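import Mathlib

/-! Additive (q-linearised) polynomial maps on a field containing a finite field. -/

namespace Pool.Agent.P.MP_43acf5_nt

open Polynomial Module

variable (Fq : Type*) [Field Fq] [Fintype Fq] (L : Type*) [Field L] [Algebra Fq L]

/-- The `q ^ k`-power map. -/
noncomputable def fr (k : ℕ) : L →ₐ[Fq] L := (FiniteField.frobeniusAlgHom Fq L) ^ k

variable {L}

lemma fr_apply (k : ℕ) (x : L) : fr Fq L k x = x ^ (Fintype.card Fq) ^ k := by
  simp [fr, AlgHom.coe_pow, FiniteField.coe_frobeniusAlgHom, pow_iterate]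

lemma two_le_q : 2 ≤ Fintype.card Fq := Fintype.one_lt_card

lemma fr_fr (a b : ℕ) (x : L) : fr Fq L a (fr Fq L b x) = fr Fq L (a + b) x := by
  simp [fr, pow_add]

@[simp] lemma fr_zero (x : L) : fr Fq L 0 x = x := by simp [fr]

variable (L)

/-- The span of the maps `x ↦ x ^ q ^ k` with `a ≤ k < b`. -/
def AP (a b : ℕ) : Submodule L (L → L) :=
  Submodule.span L ((fun k => (fr Fq L k : L → L)) '' Set.Ico a b)

variable {Fq L}

lemma fr_mem_AP {a b k : ℕ} (h1 : a ≤ k) (h2 : k < b) : (fr Fq L k : L → L) ∈ AP Fq L a b :=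
  Submodule.subset_span ⟨k, ⟨h1, h2⟩, rfl⟩

lemma AP_mono {a b a' b' : ℕ} (h1 : a' ≤ a) (h2 : b ≤ b') : AP Fq L a b ≤ AP Fq L a' b' :=
  Submodule.span_mono (Set.image_mono (Set.Ico_subset_Ico h1 h2))

lemma mem_AP_iff {a b : ℕ} {u : L → L} :
    u ∈ AP Fq L a b ↔ ∃ c : ℕ → L, ∀ x, u x = ∑ k ∈ Finset.Ico a b, c k * fr Fq L k x := by
  constructor
  · intro hu
    induction hu using Submodule.span_induction with
    | mem u hu =>
      obtain ⟨k, hk, rfl⟩ := hu
      refine ⟨fun j => if j = k then 1 else 0, fun x => ?_⟩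
      rw [Finset.sum_eq_single k]
      · simp
      · intro j _ hj; simp [hj]
      · intro h; exact absurd (Finset.mem_Ico.mpr hk) h
    | zero => exact ⟨0, fun x => by simp⟩
    | add u v _ _ hu hv =>
      obtain ⟨c, hc⟩ := hu
      obtain ⟨d, hd⟩ := hv
      exact ⟨c + d, fun x => by simp [hc, hd, add_mul, Finset.sum_add_distrib]⟩
    | smul s u _ hu =>
      obtain ⟨c, hc⟩ := hu
      exact ⟨s • c, fun x => by simp [hc, Finset.mul_sum, mul_assoc]⟩
  · rintro ⟨c, hc⟩
    have : u = ∑ k ∈ Finset.Ico a b, c k • (fr Fq L k : L → L) := by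
      funext x; simp [hc, Finset.sum_apply]
    rw [this]
    refine Submodule.sum_mem _ fun k hk => Submodule.smul_mem _ _ ?_
    exact fr_mem_AP (Finset.mem_Ico.mp hk).1 (Finset.mem_Ico.mp hk).2

lemma fr_comp_mem_AP {a b : ℕ} {v : L → L} (hv : v ∈ AP Fq L a b) (k : ℕ) :
    (fun x => fr Fq L k (v x)) ∈ AP Fq L (a + k) (b + k) := by
  induction hv using Submodule.span_induction with
  | mem u hu =>
    obtain ⟨j, hj, rfl⟩ := hu
    have : (fun x => fr Fq L k (fr Fq L j x)) = (fr Fq L (k + j) : L → L) := by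
      funext x; exact fr_fr Fq k j x
    simp only
    rw [this]
    exact fr_mem_AP (by have := hj.1; omega) (by have := hj.2; omega)
  | zero =>
    have : (fun x : L => fr Fq L k ((0 : L → L) x)) = 0 := by funext x; simp
    rw [this]; exact Submodule.zero_mem _
  | add u v _ _ hu hv =>
    have : (fun x => fr Fq L k ((u + v) x)) =
        (fun x => fr Fq L k (u x)) + (fun x => fr Fq L k (v x)) := by funext x; simp
    rw [this]; exact Submodule.add_mem _ hu hv
  | smul s u _ hu =>
    have : (fun x => fr Fq L k ((s • u) x)) = fr Fq L k s • (fun x => fr Fq L k (u x)) := by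
      funext x; simp
    rw [this]; exact Submodule.smul_mem _ _ hu

lemma comp_mem_AP {a b a' b' : ℕ} {u v : L → L} (hu : u ∈ AP Fq L a (b + 1))
    (hv : v ∈ AP Fq L a' b') : (fun x => u (v x)) ∈ AP Fq L (a + a') (b + b') := by
  induction hu using Submodule.span_induction with
  | mem u hu =>
    obtain ⟨j, hj, rfl⟩ := hu
    exact AP_mono (by have := hj.1; omega) (by have := hj.2; omega) (fr_comp_mem_AP hv j)
  | zero =>
    have : (fun x : L => (0 : L → L) (v x)) = 0 := by funext x; simp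
    rw [this]; exact Submodule.zero_mem _
  | add u u' _ _ hu hu' =>
    have : (fun x => (u + u') (v x)) = (fun x => u (v x)) + (fun x => u' (v x)) := by
      funext x; simp
    rw [this]; exact Submodule.add_mem _ hu hu'
  | smul s u _ hu =>
    have : (fun x => (s • u) (v x)) = s • (fun x => u (v x)) := by funext x; simp
    rw [this]; exact Submodule.smul_mem _ _ hu

/-- `u` is `c x` plus terms `x ^ q ^ k` with `1 ≤ k ≤ n`. -/
def IsLin (Fq : Type*) [Field Fq] [Fintype Fq] {L : Type*} [Field L] [Algebra Fq L]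
    (c : L) (n : ℕ) (u : L → L) : Prop :=
  (fun x => u x - c * x) ∈ AP Fq L 1 (n + 1)

lemma mul_mem_AP (c : L) {b : ℕ} (hb : 0 < b) : (fun x => c * x) ∈ AP Fq L 0 b := by
  have : (fun x => c * x) = c • (fr Fq L 0 : L → L) := by funext x; simp
  rw [this]; exact Submodule.smul_mem _ _ (fr_mem_AP le_rfl hb)

lemma IsLin.mem_AP {c : L} {n : ℕ} {u : L → L} (h : IsLin Fq c n u) : u ∈ AP Fq L 0 (n + 1) := by
  have : u = (fun x => u x - c * x) + (fun x => c * x) := by funext x; simp
  rw [this]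
  exact Submodule.add_mem _ (AP_mono (by omega) le_rfl h) (mul_mem_AP c (by omega))

lemma IsLin.mono {c : L} {n n' : ℕ} {u : L → L} (h : IsLin Fq c n u) (hn : n ≤ n') :
    IsLin Fq c n' u := AP_mono le_rfl (by omega) h

lemma IsLin.comp {c c' : L} {n n' : ℕ} {u v : L → L} (hu : IsLin Fq c n u)
    (hv : IsLin Fq c' n' v) : IsLin Fq (c * c') (n + n') (fun x => u (v x)) := by
  have h1 := comp_mem_AP (a := 1) (b := n) hu hv.mem_AP
  have h2 : c • (fun x => v x - c' * x) ∈ AP Fq L 1 (n' + 1) := Submodule.smul_mem _ _ hv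
  have : (fun x => u (v x) - c * c' * x) =
      (fun x => u (v x) - c * v x) + c • (fun x => v x - c' * x) := by
    funext x; simp; ring
  unfold IsLin
  rw [this]
  exact Submodule.add_mem _ (AP_mono (by omega) (by omega) h1) (AP_mono le_rfl (by omega) h2)

lemma isLin_of_mem_AP {n : ℕ} {u : L → L} (h : u ∈ AP Fq L 0 (n + 1)) :
    ∃ c, IsLin Fq c n u := by
  obtain ⟨c, hc⟩ := mem_AP_iff.mp h
  refine ⟨c 0, mem_AP_iff.mpr ⟨c, fun x => ?_⟩⟩
  rw [hc, Finset.sum_eq_sum_Ico_succ_bot (by omega)]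
  simp

lemma isLin_pow {θ : L} {r : ℕ} {Φ : Module.End Fq L} (h : IsLin Fq θ r Φ) (i : ℕ) :
    IsLin Fq (θ ^ i) (r * i) (Φ ^ i : Module.End Fq L) := by
  induction i with
  | zero =>
    unfold IsLin
    have : (fun x => (Φ ^ 0 : Module.End Fq L) x - θ ^ 0 * x) = 0 := by funext x; simp
    rw [this]; exact Submodule.zero_mem _
  | succ i ih =>
    have := ih.comp h
    have e : (fun x => (Φ ^ i : Module.End Fq L) (Φ x)) = (Φ ^ (i + 1) : Module.End Fq L) := by
      funext x; simp [pow_succ]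
    rw [e, ← pow_succ] at this
    exact this

lemma isLin_aeval {θ : L} {r : ℕ} {Φ : Module.End Fq L} (h : IsLin Fq θ r Φ) (a : Fq[X]) :
    IsLin Fq (aeval θ a) (r * a.natDegree) (aeval Φ a : Module.End Fq L) := by
  unfold IsLin
  have : (fun x => (aeval Φ a : Module.End Fq L) x - aeval θ a * x) =
      ∑ i ∈ Finset.range (a.natDegree + 1), algebraMap Fq L (a.coeff i) •
        (fun x => (Φ ^ i : Module.End Fq L) x - θ ^ i * x) := by
    funext x
    rw [aeval_eq_sum_range, aeval_eq_sum_range]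
    simp only [LinearMap.coe_sum, Finset.sum_apply, LinearMap.smul_apply, Finset.sum_mul,
      Pi.smul_apply, smul_eq_mul, ← Finset.sum_sub_distrib]
    refine Finset.sum_congr rfl fun i _ => ?_
    rw [Algebra.smul_def, Algebra.smul_def]; ring
  rw [this]
  refine Submodule.sum_mem _ fun i hi => Submodule.smul_mem _ _ ?_
  refine (isLin_pow h i).mono ?_
  exact Nat.mul_le_mul_left _ (by have := Finset.mem_range.mp hi; omega)

/-- The ordinary polynomial attached to a coefficient sequence. -/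
noncomputable def apoly (Fq : Type*) [Fintype Fq] {L : Type*} [Field L] (n : ℕ) (c : ℕ → L) :
    L[X] := ∑ k ∈ Finset.range (n + 1), C (c k) * X ^ (Fintype.card Fq) ^ k

lemma apoly_eval (n : ℕ) (c : ℕ → L) (x : L) :
    (apoly Fq n c).eval x = ∑ k ∈ Finset.range (n + 1), c k * fr Fq L k x := by
  simp [apoly, eval_finsetSum, fr_apply]

omit [Algebra Fq L] in
lemma apoly_natDegree_le (n : ℕ) (c : ℕ → L) :
    (apoly Fq n c).natDegree ≤ (Fintype.card Fq) ^ n := by
  unfold apoly
  refine natDegree_sum_le_of_forall_le _ _ fun k hk => ?_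
  refine (natDegree_C_mul_X_pow_le _ _).trans ?_
  exact Nat.pow_le_pow_right (by have := two_le_q Fq; omega)
    (by have := Finset.mem_range.mp hk; omega)

omit [Algebra Fq L] in
lemma apoly_coeff (n : ℕ) (c : ℕ → L) {k : ℕ} (hk : k ≤ n) :
    (apoly Fq n c).coeff ((Fintype.card Fq) ^ k) = c k := by
  unfold apoly
  rw [finsetSum_coeff, Finset.sum_eq_single k]
  · simp
  · intro j _ hj
    rw [coeff_C_mul, coeff_X_pow, if_neg, mul_zero]
    intro h
    exact hj (Nat.pow_right_injective (two_le_q Fq) h).symm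
  · intro h; exact absurd (Finset.mem_range.mpr (by omega)) h

/-- An additive polynomial of degree at most `q ^ n` with more than `q ^ n` roots is zero. -/
lemma coeff_eq_zero_of_roots {n : ℕ} {c : ℕ → L} (s : Finset L)
    (hs : (Fintype.card Fq) ^ n < s.card)
    (h : ∀ x ∈ s, ∑ k ∈ Finset.range (n + 1), c k * fr Fq L k x = 0) {k : ℕ} (hk : k ≤ n) :
    c k = 0 := by
  have : apoly Fq n c = 0 := by
    refine eq_zero_of_natDegree_lt_card_of_eval_eq_zero' _ s ?_ ?_
    · intro x hx; rw [apoly_eval]; exact h x hx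
    · exact (apoly_natDegree_le n c).trans_lt hs
  rw [← apoly_coeff (Fq := Fq) n c hk, this, coeff_zero]

lemma IsLin.exists_coeff {c : L} {n : ℕ} {u : L → L} (h : IsLin Fq c n u) :
    ∃ g : ℕ → L, g 0 = c ∧ ∀ x, u x = ∑ k ∈ Finset.range (n + 1), g k * fr Fq L k x := by
  obtain ⟨g, hg⟩ := mem_AP_iff.mp h
  refine ⟨fun k => if k = 0 then c else g k, by simp, fun x => ?_⟩
  have h1 := hg x
  rw [Finset.range_eq_Ico, Finset.sum_eq_sum_Ico_succ_bot (by omega)]
  simp only [if_true, fr_zero, zero_add]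
  rw [sub_eq_iff_eq_add'] at h1
  rw [h1]
  congr 1
  refine Finset.sum_congr rfl fun k hk => ?_
  rw [if_neg (by have := (Finset.mem_Ico.mp hk).1; omega)]

/-- A map `c x + ...` with `c ≠ 0` of degree at most `q ^ n` has at most `q ^ n` zeros. -/
lemma IsLin.card_roots_le {c : L} {n : ℕ} {u : L → L} (h : IsLin Fq c n u) (hc : c ≠ 0)
    (s : Finset L) (hs : ∀ x ∈ s, u x = 0) : s.card ≤ (Fintype.card Fq) ^ n := by
  by_contra hlt
  obtain ⟨g, hg0, hg⟩ := h.exists_coeff
  apply hc
  rw [← hg0]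
  exact coeff_eq_zero_of_roots (Fq := Fq) s (by omega) (fun x hx => by rw [← hg, hs x hx])
    (Nat.zero_le n)

lemma IsLin.unique [Infinite L] {c c' : L} {n n' : ℕ} {u : L → L} (h : IsLin Fq c n u)
    (h' : IsLin Fq c' n' u) : c = c' := by
  by_contra hne
  have h1 : IsLin Fq (c - c') (n + n') 0 := by
    unfold IsLin
    have : (fun x => (0 : L → L) x - (c - c') * x) =
        (fun x => u x - c * x) - (fun x => u x - c' * x) := by funext x; simp; ring
    rw [this]
    exact Submodule.sub_mem _ (h.mono (by omega)) (h'.mono (by omega))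
  obtain ⟨s, hs⟩ := Infinite.exists_subset_card_eq L ((Fintype.card Fq) ^ (n + n') + 1)
  have := h1.card_roots_le (sub_ne_zero.mpr hne) s (fun x _ => rfl)
  omega

/-- Right division by a monic additive polynomial. -/
lemma AP_div {w : ℕ} {f : L → L} (hf : (fun x => f x - fr Fq L w x) ∈ AP Fq L 0 w) (n : ℕ)
    {u : L → L} (hu : u ∈ AP Fq L 0 (n + w)) :
    ∃ ψ ∈ AP Fq L 0 n, ∃ ρ ∈ AP Fq L 0 w, ∀ x, u x = ψ (f x) + ρ x := by
  induction n generalizing u with
  | zero => exact ⟨0, Submodule.zero_mem _, u, by simpa using hu, fun x => by simp⟩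
  | succ n ih =>
    obtain ⟨c, hc⟩ := mem_AP_iff.mp hu
    have h1 : (fun x => u x - c (n + w) * fr Fq L (n + w) x) ∈ AP Fq L 0 (n + w) := by
      refine mem_AP_iff.mpr ⟨c, fun x => ?_⟩
      rw [hc, show n + 1 + w = (n + w) + 1 by omega, Finset.sum_Ico_succ_top (by omega)]
      ring
    have h2 := fr_comp_mem_AP hf n
    have h3 : (fun x => u x - c (n + w) * fr Fq L n (f x)) ∈ AP Fq L 0 (n + w) := by
      have : (fun x => u x - c (n + w) * fr Fq L n (f x)) =
          (fun x => u x - c (n + w) * fr Fq L (n + w) x) -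
            c (n + w) • (fun x => fr Fq L n (f x - fr Fq L w x)) := by
        funext x; simp [fr_fr]; ring
      rw [this]
      exact Submodule.sub_mem _ h1 (Submodule.smul_mem _ _ (AP_mono (by omega) (by omega) h2))
    obtain ⟨ψ, hψ, ρ, hρ, h⟩ := ih h3
    refine ⟨ψ + c (n + w) • (fr Fq L n : L → L), ?_, ρ, hρ, fun x => ?_⟩
    · exact Submodule.add_mem _ (AP_mono le_rfl (by omega) hψ)
        (Submodule.smul_mem _ _ (fr_mem_AP (by omega) (by omega)))
    · have := h x
      simp only [Pi.add_apply, Pi.smul_apply, smul_eq_mul]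
      linear_combination this

/-- Members of `AP` are linear over the finite field. -/
lemma exists_linear_of_mem_AP {a b : ℕ} {u : L → L} (hu : u ∈ AP Fq L a b) :
    ∃ U : Module.End Fq L, (U : L → L) = u := by
  obtain ⟨c, hc⟩ := mem_AP_iff.mp hu
  refine ⟨∑ k ∈ Finset.Ico a b, (LinearMap.mulLeft Fq (c k)).comp (fr Fq L k).toLinearMap, ?_⟩
  funext x
  simp [hc]

end Pool.Agent.P.MP_43acf5_nt
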