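import Pool.Agent.P.MP_43acf5_nt.AP

/-! Hasse derivatives on the rational function field over a finite field. -/

namespace Pool.Agent.P.MP_43acf5_nt

open Polynomial Module

variable {Fq : Type*} [Field Fq]

/-- Taylor expansion of a polynomial at the generic point. -/
noncomputable def DD0 : Fq[X] →+* PowerSeries (RatFunc Fq) :=
  (coeToPowerSeries.ringHom.comp (taylorAlgHom (RatFunc.X : RatFunc Fq)).toRingHom).comp
    (mapRingHom (algebraMap Fq (RatFunc Fq)))

lemma coeff_DD0 (j : ℕ) (f : Fq[X]) :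
    PowerSeries.coeff j (DD0 f) = algebraMap Fq[X] (RatFunc Fq) (hasseDeriv j f) := by
  have h1 : hasseDeriv j (f.map (algebraMap Fq (RatFunc Fq))) =
      (hasseDeriv j f).map (algebraMap Fq (RatFunc Fq)) := by
    ext n; simp [hasseDeriv_coeff]
  have : DD0 f = ((taylor RatFunc.X (f.map (algebraMap Fq (RatFunc Fq))) : (RatFunc Fq)[X]) :
      PowerSeries (RatFunc Fq)) := rfl
  rw [this, coeff_coe, taylor_coeff, h1, eval_map_algebraMap, RatFunc.aeval_X_left_eq_algebraMap]

lemma isUnit_DD0 (y : nonZeroDivisors Fq[X]) : IsUnit (DD0 (y : Fq[X])) := by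
  rw [PowerSeries.isUnit_iff_constantCoeff, ← PowerSeries.coeff_zero_eq_constantCoeff_apply,
    coeff_DD0, hasseDeriv_zero']
  exact (RatFunc.algebraMap_ne_zero (nonZeroDivisors.ne_zero y.2)).isUnit

/-- Taylor expansion of a rational function at the generic point. -/
noncomputable def DD : RatFunc Fq →+* PowerSeries (RatFunc Fq) :=
  IsLocalization.lift (M := nonZeroDivisors Fq[X]) isUnit_DD0

lemma DD_algebraMap (f : Fq[X]) : DD (algebraMap Fq[X] (RatFunc Fq) f) = DD0 f :=
  IsLocalization.lift_eq _ _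

/-- The `j`-th Hasse derivative. -/
noncomputable def HD (j : ℕ) (y : RatFunc Fq) : RatFunc Fq := PowerSeries.coeff j (DD y)

lemma HD_algebraMap (j : ℕ) (f : Fq[X]) :
    HD j (algebraMap Fq[X] (RatFunc Fq) f) = algebraMap Fq[X] (RatFunc Fq) (hasseDeriv j f) := by
  rw [HD, DD_algebraMap, coeff_DD0]

lemma HD_add (j : ℕ) (x y : RatFunc Fq) : HD j (x + y) = HD j x + HD j y := by simp [HD]

@[simp] lemma HD_zero (j : ℕ) : HD j (0 : RatFunc Fq) = 0 := by simp [HD]

lemma HD_sum {ι : Type*} (j : ℕ) (s : Finset ι) (x : ι → RatFunc Fq) :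
    HD j (∑ i ∈ s, x i) = ∑ i ∈ s, HD j (x i) := by simp [HD]

lemma constantCoeff_DD (y : RatFunc Fq) : PowerSeries.constantCoeff (DD y) = y := by
  have : (PowerSeries.constantCoeff (R := RatFunc Fq)).comp DD = RingHom.id _ := by
    refine IsLocalization.ringHom_ext (nonZeroDivisors Fq[X]) (RingHom.ext fun f => ?_)
    simp only [RingHom.comp_apply, RingHom.id_apply]
    rw [DD_algebraMap, ← PowerSeries.coeff_zero_eq_constantCoeff_apply, coeff_DD0,
      hasseDeriv_zero']
  exact congrArg (fun φ : RatFunc Fq →+* RatFunc Fq => φ y) this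

@[simp] lemma HD_zero_left (y : RatFunc Fq) : HD 0 y = y := by
  rw [HD, PowerSeries.coeff_zero_eq_constantCoeff_apply, constantCoeff_DD]

/-- The Leibniz rule, with the top term split off. -/
lemma HD_mul (j : ℕ) (x y : RatFunc Fq) :
    HD j (x * y) = x * HD j y + ∑ i ∈ Finset.range j, HD (j - i) x * HD i y := by
  rw [mul_comm x y, HD, map_mul, PowerSeries.coeff_mul,
    Finset.Nat.sum_antidiagonal_eq_sum_range_succ
      (fun a b => PowerSeries.coeff a (DD y) * PowerSeries.coeff b (DD x)),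
    Finset.sum_range_succ, add_comm, Nat.sub_self]
  congr 1
  · change HD j y * HD 0 x = _
    rw [HD_zero_left, mul_comm]
  · exact Finset.sum_congr rfl fun i _ => mul_comm _ _

variable [Fintype Fq]

lemma add_pow_q_pow {R : Type*} [CommRing R] [Algebra Fq R] (a b : R) (s : ℕ) :
    (a + b) ^ (Fintype.card Fq) ^ s = a ^ (Fintype.card Fq) ^ s + b ^ (Fintype.card Fq) ^ s := by
  have := map_add ((FiniteField.frobeniusAlgHom Fq R) ^ s) a b
  simpa [AlgHom.coe_pow, FiniteField.coe_frobeniusAlgHom, pow_iterate] using this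

lemma HD_fr_mul {s j : ℕ} (hj : j < (Fintype.card Fq) ^ s) (e y : RatFunc Fq) :
    HD j (fr Fq (RatFunc Fq) s e * y) = fr Fq (RatFunc Fq) s e * HD j y := by
  rw [HD, fr_apply, map_mul, map_pow, PowerSeries.eq_X_mul_shift_add_const (DD e),
    add_pow_q_pow (Fq := Fq), constantCoeff_DD, mul_pow, add_mul, map_add, mul_assoc,
    PowerSeries.coeff_X_pow_mul', if_neg (by omega), zero_add, ← map_pow,
    PowerSeries.coeff_C_mul, HD]

variable (Fq) in
/-- The subfield of `q ^ s`-th powers. -/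
noncomputable abbrev EE (s : ℕ) : IntermediateField Fq (RatFunc Fq) :=
  (fr Fq (RatFunc Fq) s).fieldRange

lemma HD_EE_mul {s j : ℕ} (hj : j < (Fintype.card Fq) ^ s) (e : EE Fq s) (y : RatFunc Fq) :
    HD j ((e : RatFunc Fq) * y) = (e : RatFunc Fq) * HD j y := by
  obtain ⟨_, e, rfl⟩ := e
  exact HD_fr_mul hj e y

lemma HD_smul {j : ℕ} (c : Fq) (y : RatFunc Fq) : HD j (c • y) = c • HD j y := by
  have hj : j < (Fintype.card Fq) ^ j := Nat.lt_pow_self (two_le_q Fq)
  have := HD_fr_mul hj (algebraMap Fq (RatFunc Fq) c) y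
  rw [AlgHom.commutes] at this
  rw [Algebra.smul_def, this, Algebra.smul_def]

lemma mem_span_pow (s : ℕ) (y : RatFunc Fq) :
    y ∈ Submodule.span (EE Fq s)
      (Set.range fun u : Fin ((Fintype.card Fq) ^ s) => (RatFunc.X : RatFunc Fq) ^ (u : ℕ)) := by
  set Q := (Fintype.card Fq) ^ s with hQ
  have hQ0 : 0 < Q := pow_pos (by have := two_le_q Fq; omega) s
  set S := Submodule.span (EE Fq s)
      (Set.range fun u : Fin Q => (RatFunc.X : RatFunc Fq) ^ (u : ℕ))
  have hS : ∀ e x : RatFunc Fq, x ∈ S → e ^ Q * x ∈ S := by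
    intro e x hx
    have := S.smul_mem (⟨fr Fq (RatFunc Fq) s e, e, rfl⟩ : EE Fq s) hx
    rw [hQ, ← fr_apply]
    exact this
  have hpoly : ∀ f : Fq[X], algebraMap Fq[X] (RatFunc Fq) f ∈ S := by
    intro f
    induction f using Polynomial.induction_on' with
    | add p q hp hq => rw [map_add]; exact S.add_mem hp hq
    | monomial n a =>
      have h1 : algebraMap Fq[X] (RatFunc Fq) (monomial n a) =
          (algebraMap Fq (RatFunc Fq) a * RatFunc.X ^ (n / Q)) ^ Q * RatFunc.X ^ (n % Q) := by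
        have h2 : (algebraMap Fq (RatFunc Fq) a) ^ Q = algebraMap Fq (RatFunc Fq) a := by
          rw [hQ, ← fr_apply, AlgHom.commutes]
        rw [mul_pow, h2, ← pow_mul, mul_assoc, ← pow_add, Nat.div_add_mod', ← C_mul_X_pow_eq_monomial]
        simp
      rw [h1]
      exact hS _ _ (Submodule.subset_span ⟨⟨n % Q, Nat.mod_lt _ hQ0⟩, rfl⟩)
  have hd : algebraMap Fq[X] (RatFunc Fq) y.denom ≠ 0 :=
    RatFunc.algebraMap_ne_zero (RatFunc.denom_ne_zero y)
  have : y = (algebraMap Fq[X] (RatFunc Fq) y.denom)⁻¹ ^ Q *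
      algebraMap Fq[X] (RatFunc Fq) (y.num * y.denom ^ (Q - 1)) := by
    conv_lhs => rw [← RatFunc.num_div_denom y]
    obtain ⟨k, hk⟩ : ∃ k, Q = k + 1 := ⟨Q - 1, by omega⟩
    rw [hk, map_mul, map_pow, Nat.add_sub_cancel, inv_pow, pow_succ]
    field_simp
  rw [this]
  exact hS _ _ (hpoly _)

omit [Fintype Fq] in
lemma eq_zero_of_HD_pow {Q : ℕ} (γ : Fin Q → RatFunc Fq)
    (h : ∀ j < Q, ∑ u, γ u * HD j ((RatFunc.X : RatFunc Fq) ^ (u : ℕ)) = 0) : γ = 0 := by
  set p : (RatFunc Fq)[X] := ∑ u : Fin Q, monomial (u : ℕ) (γ u) with hp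
  have hc : ∀ u : Fin Q, p.coeff u = γ u := by
    intro u
    rw [hp, finsetSum_coeff, Finset.sum_eq_single u]
    · simp
    · intro v _ hv
      rw [coeff_monomial, if_neg (fun h => hv (Fin.ext h))]
    · simp
  have hdeg : p.degree < Q := by
    rw [hp]
    refine (degree_sum_le _ _).trans_lt ?_
    rw [Finset.sup_lt_iff (WithBot.bot_lt_coe _)]
    intro u _
    exact (degree_monomial_le _ _).trans_lt (by exact_mod_cast u.2)
  have ht : taylor RatFunc.X p = 0 := by
    ext j
    by_cases hj : j < Q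
    · rw [coeff_zero, ← h j hj, hp, map_sum, finsetSum_coeff]
      refine Finset.sum_congr rfl fun u _ => ?_
      rw [taylor_monomial, coeff_C_mul]
      congr 1
      have : (RatFunc.X : RatFunc Fq) ^ (u : ℕ) = algebraMap Fq[X] (RatFunc Fq) (X ^ (u : ℕ)) := by
        simp
      rw [this, HD, DD_algebraMap]
      have : DD0 (X ^ (u : ℕ) : Fq[X]) =
          (((X + C RatFunc.X) ^ (u : ℕ) : (RatFunc Fq)[X]) : PowerSeries (RatFunc Fq)) := by
        simp [DD0]
      rw [this, coeff_coe]
    · rw [coeff_zero]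
      apply coeff_eq_zero_of_degree_lt
      rw [degree_taylor]
      exact hdeg.trans_le (by exact_mod_cast not_lt.mp hj)
  rw [taylor_eq_zero] at ht
  funext u
  rw [← hc, ht]; simp

lemma linearIndependent_X_pow (s : ℕ) : LinearIndependent (EE Fq s)
    (fun u : Fin ((Fintype.card Fq) ^ s) => (RatFunc.X : RatFunc Fq) ^ (u : ℕ)) := by
  rw [Fintype.linearIndependent_iff]
  intro e he
  have := eq_zero_of_HD_pow (fun u => (e u : RatFunc Fq)) (by
    intro j hj
    have := congrArg (HD j) he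
    rw [HD_sum, HD_zero] at this
    rw [← this]
    refine Finset.sum_congr rfl fun u _ => ?_
    exact (HD_EE_mul hj (e u) _).symm)
  intro u
  exact Subtype.ext (congrFun this u)

variable {L : Type*} [Field L] [Algebra (RatFunc Fq) L]

/-- Jets of order below `q ^ s` detect linear independence over the `q ^ s`-th powers. -/
lemma jets_indep (s : ℕ) {ι : Type*} [Fintype ι] {x : ι → L}
    (hx : LinearIndependent (EE Fq s) x) (c : ι → L)
    (hc : ∀ lam : Module.Dual (RatFunc Fq) L, ∀ j < (Fintype.card Fq) ^ s,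
      ∑ l, c l * algebraMap (RatFunc Fq) L (HD j (lam (x l))) = 0) : c = 0 := by
  set Q := (Fintype.card Fq) ^ s with hQ
  have hex : ∀ y : RatFunc Fq, ∃ η : Fin Q → EE Fq s,
      ∑ u, η u • (RatFunc.X : RatFunc Fq) ^ (u : ℕ) = y :=
    fun y => (Submodule.mem_span_range_iff_exists_fun _).mp (mem_span_pow s y)
  choose η hη using hex
  funext l0
  rw [Pi.zero_apply, ← Module.forall_dual_apply_eq_zero_iff (RatFunc Fq)]
  intro μ
  have h1 : ∀ lam : Module.Dual (RatFunc Fq) L, ∀ j < Q,
      ∑ l, μ (c l) * HD j (lam (x l)) = 0 := by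
    intro lam j hj
    have := congrArg μ (hc lam j hj)
    rw [map_sum, map_zero] at this
    rw [← this]
    refine Finset.sum_congr rfl fun l _ => ?_
    rw [mul_comm (c l), ← Algebra.smul_def, map_smul, smul_eq_mul, mul_comm]
  have h2 : ∀ lam : Module.Dual (RatFunc Fq) L, ∀ u,
      ∑ l, μ (c l) * (η (lam (x l)) u : RatFunc Fq) = 0 := by
    intro lam
    have := eq_zero_of_HD_pow (fun u => ∑ l, μ (c l) * (η (lam (x l)) u : RatFunc Fq)) (by
      intro j hj
      rw [← h1 lam j hj]
      simp only [Finset.sum_mul]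
      rw [Finset.sum_comm]
      refine Finset.sum_congr rfl fun l _ => ?_
      conv_rhs => rw [← hη (lam (x l)), HD_sum, Finset.mul_sum]
      refine Finset.sum_congr rfl fun u _ => ?_
      rw [mul_assoc]
      congr 1
      exact (HD_EE_mul hj _ _).symm)
    exact fun u => congrFun this u
  have h3 : ∀ lam : Module.Dual (RatFunc Fq) L, ∀ u u',
      ∑ l, η (μ (c l)) u' * η (lam (x l)) u = 0 := by
    intro lam u
    refine Fintype.linearIndependent_iff.mp (linearIndependent_X_pow s)
      (fun u' => ∑ l, η (μ (c l)) u' * η (lam (x l)) u) ?_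
    rw [← h2 lam u]
    simp only [Finset.sum_smul]
    rw [Finset.sum_comm]
    refine Finset.sum_congr rfl fun l _ => ?_
    conv_rhs => rw [← hη (μ (c l)), Finset.sum_mul]
    refine Finset.sum_congr rfl fun u' _ => ?_
    simp only [IntermediateField.smul_def, smul_eq_mul, MulMemClass.coe_mul]
    ring
  have h4 : ∀ u', ∑ l, η (μ (c l)) u' • x l = 0 := by
    intro u'
    rw [← Module.forall_dual_apply_eq_zero_iff (RatFunc Fq)]
    intro lam
    have : ∑ u, (∑ l, η (μ (c l)) u' * η (lam (x l)) u) •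
        (RatFunc.X : RatFunc Fq) ^ (u : ℕ) = 0 := by simp [h3]
    rw [← this, map_sum]
    simp only [Finset.sum_smul]
    rw [Finset.sum_comm]
    refine Finset.sum_congr rfl fun l _ => ?_
    rw [IntermediateField.smul_def, map_smul]
    conv_lhs => rw [← hη (lam (x l)), Finset.smul_sum]
    refine Finset.sum_congr rfl fun u _ => ?_
    simp only [IntermediateField.smul_def, smul_eq_mul, MulMemClass.coe_mul]
    ring
  have h5 := fun u' => Fintype.linearIndependent_iff.mp hx _ (h4 u') l0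
  rw [← hη (μ (c l0))]
  simp [h5]

end Pool.Agent.P.MP_43acf5_nt
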