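import Pool.Agent.P.MP_43acf5_nt.LinAlg
import Pool.Agent.P.MP_43acf5_nt.Hasse

/-! The generalised Wronskian of a finite additive subgroup of a Galois extension. -/

namespace Pool.Agent.P.MP_43acf5_nt

open Module

variable {Fq : Type*} [Field Fq] [Fintype Fq] {L : Type*} [Field L] [Algebra (RatFunc Fq) L]
  [Algebra Fq L] [IsScalarTower Fq (RatFunc Fq) L]

/-- A row attached to an automorphism, an order of derivation and a frame. -/
noncomputable def frameRow {ι : Type*} [Fintype ι] (β : ι → L)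
    (lam : ι → Module.Dual (RatFunc Fq) L) (σ : L ≃ₐ[RatFunc Fq] L) (j : ℕ) : L →ₗ[Fq] L where
  toFun x := ∑ a, σ (β a) * algebraMap (RatFunc Fq) L (HD j (lam a x))
  map_add' x y := by simp [HD_add, mul_add, Finset.sum_add_distrib]
  map_smul' c x := by
    simp only [LinearMap.map_smul_of_tower, HD_smul, RingHom.id_apply, Finset.smul_sum]
    refine Finset.sum_congr rfl fun a _ => ?_
    rw [Algebra.smul_def, Algebra.smul_def, map_mul, ← IsScalarTower.algebraMap_apply]
    ring

lemma frameRow_apply {ι : Type*} [Fintype ι] (β : ι → L)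
    (lam : ι → Module.Dual (RatFunc Fq) L) (σ : L ≃ₐ[RatFunc Fq] L) (j : ℕ) (x : L) :
    frameRow β lam σ j x = ∑ a, σ (β a) * algebraMap (RatFunc Fq) L (HD j (lam a x)) := rfl

lemma frameRow_fr_smul {ι : Type*} [Fintype ι] (β : ι → L)
    (lam : ι → Module.Dual (RatFunc Fq) L) (σ : L ≃ₐ[RatFunc Fq] L) {s j : ℕ}
    (hj : j < (Fintype.card Fq) ^ s) (u : RatFunc Fq) (x : L) :
    frameRow β lam σ j (fr Fq (RatFunc Fq) s u • x) =
      algebraMap (RatFunc Fq) L (fr Fq (RatFunc Fq) s u) * frameRow β lam σ j x := by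
  simp only [frameRow_apply, map_smul, smul_eq_mul, HD_fr_mul hj, map_mul, Finset.mul_sum]
  exact Finset.sum_congr rfl fun a _ => by ring

/-- The span of the jets of order below `j`, as functions on `V`. -/
def JJ (V : Submodule Fq L) (j : ℕ) : Submodule L (V → L) :=
  Submodule.span L {f | ∃ lam : Module.Dual (RatFunc Fq) L, ∃ i < j,
    f = fun x : V => algebraMap (RatFunc Fq) L (HD i (lam x))}

omit [Fintype Fq] [IsScalarTower Fq (RatFunc Fq) L] in
lemma jet_mem_JJ (V : Submodule Fq L) (lam : Module.Dual (RatFunc Fq) L) {i j : ℕ} (h : i < j) :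
    (fun x : V => algebraMap (RatFunc Fq) L (HD i (lam x))) ∈ JJ V j :=
  Submodule.subset_span ⟨lam, i, h, rfl⟩

variable [FiniteDimensional (RatFunc Fq) L]

/-- The rows attached to a fixed basis. -/
noncomputable def row (V : Submodule Fq L) (p : (L ≃ₐ[RatFunc Fq] L) × ℕ) : V → L :=
  fun x => frameRow (Module.finBasis (RatFunc Fq) L) (Module.finBasis (RatFunc Fq) L).coord
    p.1 p.2 x

lemma frameRow_sub_row (V : Submodule Fq L) {ι : Type*} [Fintype ι] (β : ι → L)
    (lam : ι → Module.Dual (RatFunc Fq) L) (h : ∀ x ∈ V, ∑ a, lam a x • β a = x)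
    (σ : L ≃ₐ[RatFunc Fq] L) (j : ℕ) :
    (fun x : V => frameRow β lam σ j x) - row V (σ, j) ∈ JJ V j := by
  set b := Module.finBasis (RatFunc Fq) L
  have h1 : (fun x : V => frameRow β lam σ j x) - row V (σ, j) =
      - ∑ c, ∑ a, ∑ i ∈ Finset.range j,
        (σ (b c) * algebraMap (RatFunc Fq) L (HD (j - i) (b.repr (β a) c))) •
          (fun x : V => algebraMap (RatFunc Fq) L (HD i (lam a x))) := by
    funext x
    have h2 : ∀ c, b.coord c x = ∑ a, b.repr (β a) c * lam a x := by
      intro c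
      conv_lhs => rw [← h x x.2]
      simp [mul_comm]
    have h3 : ∀ a, σ (β a) = ∑ c, algebraMap (RatFunc Fq) L (b.repr (β a) c) * σ (b c) := by
      intro a
      conv_lhs => rw [← b.sum_repr (β a)]
      simp [Algebra.smul_def]
    simp only [Pi.sub_apply, row, frameRow_apply, Pi.neg_apply, Finset.sum_apply, Pi.smul_apply,
      smul_eq_mul]
    change _ - ∑ c, σ (b c) * algebraMap (RatFunc Fq) L (HD j (b.coord c x)) = _
    simp only [h2, h3, HD_sum, HD_mul, map_sum, map_add, map_mul, Finset.mul_sum, Finset.sum_mul,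
      mul_add, Finset.sum_add_distrib]
    rw [Finset.sum_comm (s := Finset.univ) (t := Finset.univ)
      (f := fun a c => algebraMap (RatFunc Fq) L (b.repr (β a) c) * σ (b c) *
        algebraMap (RatFunc Fq) L (HD j (lam a x)))]
    simp only [mul_assoc, mul_left_comm (σ (b _))]
    ring
  rw [h1]
  refine Submodule.neg_mem _ (Submodule.sum_mem _ fun c _ => Submodule.sum_mem _ fun a _ =>
    Submodule.sum_mem _ fun i hi => Submodule.smul_mem _ _ ?_)
  exact jet_mem_JJ V _ (Finset.mem_range.mp hi)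

variable [IsGalois (RatFunc Fq) L]

lemma JJ_succ_le (V : Submodule Fq L) (j : ℕ) :
    JJ V (j + 1) ≤ JJ V j ⊔ Submodule.span L (Set.range fun σ => row V (σ, j)) := by
  classical
  refine Submodule.span_le.mpr ?_
  rintro _ ⟨lam, i, hi, rfl⟩
  rcases (Nat.lt_succ_iff.mp hi).lt_or_eq with hi | rfl
  · exact Submodule.mem_sup_left (jet_mem_JJ V lam hi)
  set b := Module.finBasis (RatFunc Fq) L
  set b' := (Algebra.traceForm (RatFunc Fq) L).dualBasis (traceForm_nondegenerate _ L) b
  have h1 : ∀ c, (fun x : V => algebraMap (RatFunc Fq) L (HD i (b.coord c x))) =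
      ∑ σ : L ≃ₐ[RatFunc Fq] L, σ (b' c) • row V (σ, i) := by
    intro c
    funext x
    simp only [Finset.sum_apply, Pi.smul_apply, smul_eq_mul, row, frameRow_apply, Finset.mul_sum]
    rw [Finset.sum_comm]
    have h2 : ∀ a, ∑ σ : L ≃ₐ[RatFunc Fq] L, σ (b' c) * σ (b a) = if a = c then 1 else 0 := by
      intro a
      simp only [← map_mul]
      rw [← trace_eq_sum_automorphisms, ← Algebra.traceForm_apply,
        LinearMap.BilinForm.apply_dualBasis_left]
      split_ifs <;> simp
    change _ = ∑ a, ∑ σ : L ≃ₐ[RatFunc Fq] L,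
      σ (b' c) * (σ (b a) * algebraMap (RatFunc Fq) L (HD i (b.coord a x)))
    simp only [← mul_assoc, ← Finset.sum_mul, h2]
    simp
  have h2 : (fun x : V => algebraMap (RatFunc Fq) L (HD i (lam x))) =
      ∑ c, (algebraMap (RatFunc Fq) L (lam (b c)) •
        (fun x : V => algebraMap (RatFunc Fq) L (HD i (b.coord c x))) +
        ∑ i' ∈ Finset.range i, algebraMap (RatFunc Fq) L (HD (i - i') (lam (b c))) •
          (fun x : V => algebraMap (RatFunc Fq) L (HD i' (b.coord c x)))) := by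
    funext x
    have h3 : lam x = ∑ c, lam (b c) * b.coord c x := by
      conv_lhs => rw [← b.sum_repr (x : L), map_sum]
      refine Finset.sum_congr rfl fun c _ => ?_
      rw [map_smul, smul_eq_mul, mul_comm]
      rfl
    simp only [Finset.sum_apply, Pi.add_apply, Pi.smul_apply, smul_eq_mul]
    rw [h3]
    simp only [HD_sum, HD_mul, map_sum, map_add, map_mul]
  rw [SetLike.mem_coe, h2]
  refine Submodule.sum_mem _ fun c _ => Submodule.add_mem _ ?_ ?_
  · refine Submodule.mem_sup_right (Submodule.smul_mem _ _ ?_)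
    rw [h1]
    exact Submodule.sum_mem _ fun σ _ => Submodule.smul_mem _ _ (Submodule.subset_span ⟨σ, rfl⟩)
  · refine Submodule.mem_sup_left (Submodule.sum_mem _ fun i' hi' => Submodule.smul_mem _ _ ?_)
    exact jet_mem_JJ V _ (Finset.mem_range.mp hi')

lemma exists_rows (V : Submodule Fq L) (j : ℕ) :
    ∃ I : Finset ((L ≃ₐ[RatFunc Fq] L) × ℕ), (∀ p ∈ I, p.2 < j) ∧ LinearIndepOn L (row V) I ∧
      ∀ i ≤ j, JJ V i ≤ Submodule.span L (row V '' {p | p ∈ I ∧ p.2 < i}) := by
  classical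
  induction j with
  | zero =>
    refine ⟨∅, by simp, by simp, fun i hi => ?_⟩
    refine Submodule.span_le.mpr ?_
    rintro _ ⟨lam, k, hk, rfl⟩
    omega
  | succ j ih =>
    obtain ⟨I, h1, h2, h3⟩ := ih
    set T : Finset ((L ≃ₐ[RatFunc Fq] L) × ℕ) := I ∪ Finset.univ.image fun σ => (σ, j)
    have hsub : (I : Set ((L ≃ₐ[RatFunc Fq] L) × ℕ)) ⊆ T := by
      intro p hp; exact Finset.mem_union_left _ hp
    have hfin : (h2.extend hsub).Finite := T.finite_toSet.subset (h2.extend_subset hsub)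
    have hlev : ∀ p ∈ h2.extend hsub, p.2 < j + 1 := by
      intro p hp
      rcases Finset.mem_union.mp (h2.extend_subset hsub hp) with h | h
      · have := h1 p h; omega
      · obtain ⟨σ, -, rfl⟩ := Finset.mem_image.mp h
        simp
    refine ⟨hfin.toFinset, fun p hp => hlev p (by simpa using hp), ?_, fun i hi => ?_⟩
    · rw [Set.Finite.coe_toFinset]; exact h2.linearIndepOn_extend hsub
    have hmono : ∀ i ≤ j, ∀ i', i ≤ i' →
        JJ V i ≤ Submodule.span L (row V '' {p | p ∈ hfin.toFinset ∧ p.2 < i'}) := by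
      intro i hi i' hi'
      refine (h3 i hi).trans (Submodule.span_mono (Set.image_mono ?_))
      rintro p ⟨hp, hp'⟩
      exact ⟨by simpa using h2.subset_extend hsub hp, by omega⟩
    rcases hi.lt_or_eq with hi | rfl
    · exact hmono i (by omega) i le_rfl
    refine (JJ_succ_le V j).trans (sup_le (hmono j le_rfl _ (by omega)) ?_)
    refine Submodule.span_le.mpr ?_
    rintro _ ⟨σ, rfl⟩
    have := h2.image_subset_span_image_extend hsub
      ⟨(σ, j), Finset.mem_union_right _ (Finset.mem_image.mpr ⟨σ, Finset.mem_univ _, rfl⟩), rfl⟩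
    refine Submodule.span_mono (Set.image_mono ?_) this
    intro p hp
    exact ⟨by simpa using hp, hlev p hp⟩

omit [IsGalois (RatFunc Fq) L] in
lemma card_le_card_rows (V : Submodule Fq L) (s : ℕ) {I : Finset ((L ≃ₐ[RatFunc Fq] L) × ℕ)}
    (hI : JJ V ((Fintype.card Fq) ^ s) ≤ Submodule.span L (row V '' I)) {ι : Type*} [Fintype ι]
    {x : ι → V} (hx : LinearIndependent (EE Fq s) fun l => (x l : L)) :
    Fintype.card ι ≤ I.card := by
  have hli : LinearIndependent L (fun l => fun p : I => row V p (x l)) := by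
    rw [Fintype.linearIndependent_iff]
    intro c hc
    set ev : (V → L) →ₗ[L] L := ∑ l, c l • LinearMap.proj (x l) with hev
    have hev' : ∀ f, ev f = ∑ l, c l * f (x l) := by intro f; simp [hev]
    have h1 : Submodule.span L (row V '' I) ≤ LinearMap.ker ev := by
      refine Submodule.span_le.mpr ?_
      rintro _ ⟨p, hp, rfl⟩
      have := congrFun hc ⟨p, hp⟩
      simpa [hev'] using this
    have := jets_indep s hx c (by
      intro lam j hj
      have := h1 (hI (jet_mem_JJ V lam hj))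
      rwa [LinearMap.mem_ker, hev'] at this)
    exact fun l => congrFun this l
  simpa using hli.fintype_card_le_finrank

omit [IsGalois (RatFunc Fq) L] in
/-- The local estimate for the generalised Wronskian. -/
lemma det_bound {Γ : Type*} [LinearOrderedCommGroupWithZero Γ] (w : Valuation L Γ) (s : ℕ)
    (hD : ∀ y : RatFunc Fq, w (algebraMap _ L y) ≤ 1 → ∀ j < (Fintype.card Fq) ^ s,
      w (algebraMap _ L (HD j y)) ≤ 1)
    (V : Submodule Fq L) [FiniteDimensional Fq V] {I : Finset ((L ≃ₐ[RatFunc Fq] L) × ℕ)}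
    [DecidableEq I] (hI1 : ∀ p ∈ I, p.2 < (Fintype.card Fq) ^ s)
    (hI2 : ∀ i ≤ (Fintype.card Fq) ^ s,
      JJ V i ≤ Submodule.span L (row V '' {p | p ∈ I ∧ p.2 < i}))
    (x : I → V) (τ : (L ≃ₐ[RatFunc Fq] L) → Γ) (Vd : Submodule Fq L) (hle : Vd ≤ V)
    (hVd : ∀ y ∈ Vd, ∀ σ : L ≃ₐ[RatFunc Fq] L, w (σ y) ≤ τ σ) {κ : ℕ}
    (hκ : finrank Fq V ≤ finrank Fq Vd + κ) {u : RatFunc Fq} (hu0 : u ≠ 0)
    (hu1 : w (algebraMap _ L (fr Fq (RatFunc Fq) s u)) ≤ 1)
    (hu : ∀ y ∈ V, ∀ σ : L ≃ₐ[RatFunc Fq] L,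
      w (algebraMap _ L (fr Fq (RatFunc Fq) s u)) * w (σ y) ≤ τ σ) :
    w (Matrix.of fun (k i : I) => row V i (x k)).det *
      w (algebraMap _ L (fr Fq (RatFunc Fq) s u)) ^ κ ≤ ∏ i : I, τ i.1.1 := by
  classical
  have := Submodule.finiteDimensional_of_le hle
  obtain ⟨sV, hsV⟩ := exists_finset V
  obtain ⟨sVd, hsVd⟩ := exists_finset Vd
  set U := fr Fq (RatFunc Fq) s u with hU
  have hU0 : U ≠ 0 := by simpa [hU] using hu0
  set G : Finset L := sVd ∪ sV.image fun y => U • y
  have hG : ∀ y ∈ G, ∀ σ : L ≃ₐ[RatFunc Fq] L, w (σ y) ≤ τ σ := by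
    intro y hy σ
    rcases Finset.mem_union.mp hy with h | h
    · exact hVd y ((hsVd y).mp h) σ
    · obtain ⟨z, hz, rfl⟩ := Finset.mem_image.mp h
      rw [map_smul, Algebra.smul_def, map_mul]
      exact hu z ((hsV z).mp hz) σ
  have hUG : ∀ y ∈ V, U • y ∈ G := fun y hy =>
    Finset.mem_union_right _ (Finset.mem_image.mpr ⟨y, (hsV y).mpr hy, rfl⟩)
  obtain ⟨B, hBG, lam, hlam⟩ := exists_frame (w.comap (algebraMap (RatFunc Fq) L)) G
  have hframe : ∀ y ∈ V, ∑ a : B, lam a y • (a : L) = y := by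
    intro y hy
    have := (hlam _ (hUG y hy)).1
    simp only [map_smul, smul_eq_mul, mul_smul, ← Finset.smul_sum] at this
    exact smul_right_injective L hU0 this
  have hbd : ∀ y ∈ G, ∀ i : I, w (frameRow (fun a : B => (a : L)) lam i.1.1 i.1.2 y) ≤ τ i.1.1 := by
    intro y hy i
    rw [frameRow_apply]
    refine w.map_sum_le fun a _ => ?_
    rw [map_mul]
    exact (mul_le_of_le_one_right' (hD _ ((hlam y hy).2 a) _ (hI1 _ i.2))).trans
      (hG _ (hBG a.2) _)
  have hdet := det_eq_of_level (fun i : I => i.1.2) (fun i : I => row V i)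
    (fun i : I => fun y : V => frameRow (fun a : B => (a : L)) lam i.1.1 i.1.2 y) (by
      intro i
      refine Submodule.span_mono ?_ (hI2 _ (hI1 _ i.2).le
        (frameRow_sub_row V (fun a : B => (a : L)) lam hframe i.1.1 i.1.2))
      rintro _ ⟨p, ⟨hp, hp'⟩, rfl⟩
      exact ⟨⟨p, hp⟩, hp', rfl⟩) x
  rw [← hdet]
  refine det_deep_le w (LinearMap.pi fun i : I => frameRow (fun a : B => (a : L)) lam i.1.1 i.1.2)
    V Vd hle hκ (fun i => τ i.1.1) ?_ hu1 ?_ ?_ x
  · simpa using hU0
  · intro y hy i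
    exact hbd y (Finset.mem_union_left _ ((hsVd y).mpr hy)) i
  · intro y hy i
    have := hbd _ (hUG y hy) i
    rw [hU, frameRow_fr_smul _ _ _ (hI1 _ i.2), map_mul, mul_comm] at this
    exact this

end Pool.Agent.P.MP_43acf5_nt
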