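import Pool.Agent.P.MP_43acf5_nt.Ineq

/-! Cyclic submodules and the final count. -/

namespace Pool.Agent.P.MP_43acf5_nt

open Module WithZero Polynomial

section Cyc

variable {K M : Type*} [Field K] [AddCommGroup M] [Module K M]

/-- The cyclic submodule generated by `x`. -/
noncomputable def cyc (Φ : Module.End K M) (x : M) : Submodule K M :=
  LinearMap.range ((LinearMap.applyₗ x).comp (aeval Φ : K[X] →ₐ[K] Module.End K M).toLinearMap)

lemma mem_cyc {Φ : Module.End K M} {x y : M} :
    y ∈ cyc Φ x ↔ ∃ a : K[X], (aeval Φ a : Module.End K M) x = y := Iff.rfl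

lemma aeval_mem {Φ : Module.End K M} {B : Submodule K M} (hB : ∀ x ∈ B, Φ x ∈ B) (a : K[X])
    {x : M} (hx : x ∈ B) : (aeval Φ a : Module.End K M) x ∈ B := by
  rw [aeval_eq_sum_range]
  simp only [LinearMap.coe_sum, Finset.sum_apply, LinearMap.smul_apply]
  exact B.sum_mem fun i _ => B.smul_mem _ (Module.End.pow_apply_mem_of_forall_mem i hB x hx)

lemma aeval_aeval (Φ : Module.End K M) (a b : K[X]) (x : M) :
    (aeval Φ a : Module.End K M) ((aeval Φ b : Module.End K M) x) =
      (aeval Φ (a * b) : Module.End K M) x := by simp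

lemma cyc_stable (Φ : Module.End K M) (x : M) : ∀ y ∈ cyc Φ x, Φ y ∈ cyc Φ x := by
  rintro _ ⟨a, rfl⟩
  exact ⟨X * a, by simp⟩

lemma finrank_cyc {Φ : Module.End K M} {x : M} {f : K[X]} (hf : f.Monic)
    (h : ∀ a, (aeval Φ a : Module.End K M) x = 0 ↔ f ∣ a) :
    FiniteDimensional K (cyc Φ x) ∧ finrank K (cyc Φ x) = f.natDegree := by
  set ev := (LinearMap.applyₗ x).comp (aeval Φ : K[X] →ₐ[K] Module.End K M).toLinearMap
  have h1 : LinearMap.ker ev = (Ideal.span {f}).restrictScalars K := by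
    ext a
    rw [Submodule.restrictScalars_mem, Ideal.mem_span_singleton, ← h]
    rfl
  have e : (K[X] ⧸ Ideal.span {f}) ≃ₗ[K] cyc Φ x :=
    (Submodule.Quotient.restrictScalarsEquiv K (Ideal.span {f})).symm.trans
      ((Submodule.quotEquivOfEq _ _ h1.symm).trans ev.quotKerEquivRange)
  have := hf.finite_quotient
  exact ⟨e.finiteDimensional, by rw [← e.finrank_eq, finrank_quotient_span_eq_natDegree]⟩

lemma aeval_comm {Φ Ψ f : Module.End K M} (h : ∀ x, f (Φ x) = Ψ (f x)) (a : K[X]) (x : M) :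
    (aeval Ψ a : Module.End K M) (f x) = f ((aeval Φ a : Module.End K M) x) := by
  have h1 : ∀ i x, (Ψ ^ i) (f x) = f ((Φ ^ i) x) := by
    intro i
    induction i with
    | zero => simp
    | succ i ih => intro x; rw [pow_succ, pow_succ, Module.End.mul_apply, ← h, ih]; rfl
  rw [aeval_eq_sum_range, aeval_eq_sum_range]
  simp [h1]

lemma finrank_map_add {f : Module.End K M} {V W : Submodule K M} [FiniteDimensional K V]
    (hW : LinearMap.ker f = W) (hle : W ≤ V) :
    finrank K (V.map f) + finrank K W = finrank K V := by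
  have h1 := LinearMap.finrank_range_add_finrank_ker (f.domRestrict V)
  rw [LinearMap.range_domRestrict, LinearMap.ker_domRestrict, hW,
    (Submodule.comapSubtypeEquivOfLe hle).finrank_eq] at h1
  exact h1

/-- The submodules of a cyclic primary module form a chain. -/
lemma cyc_dichotomy {Φ : Module.End K M} {x : M} {P : K[X]} (hP : Irreducible P) {k j : ℕ}
    (h : (aeval Φ (P ^ k) : Module.End K M) x = 0) {B : Submodule K M} (hB : ∀ y ∈ B, Φ y ∈ B)
    (hle : B ≤ cyc Φ x) (hne : B ≠ cyc Φ x)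
    (hn : ¬ B ≤ cyc Φ ((aeval Φ (P ^ j) : Module.End K M) x)) :
    cyc Φ ((aeval Φ (P ^ j) : Module.End K M) x) ≤ B ∧ 2 ≤ j := by
  classical
  obtain ⟨y, hy, hy'⟩ := SetLike.not_le_iff_exists.mp hn
  obtain ⟨a, rfl⟩ := mem_cyc.mp (hle hy)
  have h1 : ¬ P ^ j ∣ a := by
    rintro ⟨b, rfl⟩
    exact hy' (mem_cyc.mpr ⟨b, by rw [aeval_aeval, mul_comm]⟩)
  obtain ⟨i, -, u, hu⟩ := (dvd_prime_pow hP.prime k).mp (EuclideanDomain.gcd_dvd_left (P ^ k) a)
  have h2 : (aeval Φ (EuclideanDomain.gcd (P ^ k) a) : Module.End K M) x ∈ B := by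
    rw [EuclideanDomain.gcd_eq_gcd_ab, map_add, LinearMap.add_apply, mul_comm (P ^ k), mul_comm a,
      ← aeval_aeval, ← aeval_aeval, h, map_zero, zero_add]
    exact aeval_mem hB _ hy
  have h3 : ∀ b, (aeval Φ (b * P ^ i) : Module.End K M) x ∈ B := by
    intro b
    rw [← hu, mul_comm _ (u : K[X]), ← mul_assoc, ← aeval_aeval]
    exact aeval_mem hB _ h2
  have h4 : i < j := by
    by_contra hij
    refine h1 ((pow_dvd_pow P (not_lt.mp hij)).trans ?_)
    rw [← hu, Units.mul_right_dvd]
    exact EuclideanDomain.gcd_dvd_right _ _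
  have h5 : i ≠ 0 := by
    rintro rfl
    refine hne (le_antisymm hle ?_)
    intro z hz
    obtain ⟨b, rfl⟩ := mem_cyc.mp hz
    simpa using h3 b
  refine ⟨?_, by omega⟩
  intro z hz
  obtain ⟨b, rfl⟩ := mem_cyc.mp hz
  rw [aeval_aeval]
  have := h3 (b * P ^ (j - i))
  rwa [mul_assoc, ← pow_add, Nat.sub_add_cancel h4.le] at this

end Cyc

variable {Fq : Type*} [Field Fq] [Fintype Fq] {L : Type*} [Field L] [Algebra (RatFunc Fq) L]
  [Algebra Fq L] [IsScalarTower Fq (RatFunc Fq) L] {wv : Pl Fq → Valuation L ℝᵐ⁰}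
  [FiniteDimensional (RatFunc Fq) L] [IsGalois (RatFunc Fq) L]

/-- There are few elements which are units at all places. -/
lemma Ext.exists_units (h : Ext wv) : ∃ U : Finset L,
    U.card ≤ (Fintype.card Fq) ^ finrank (RatFunc Fq) L * finrank (RatFunc Fq) L ∧
      ∀ u : L, (∀ v σ, WW wv v σ u ≤ 1) → u ∈ U := by
  classical
  set D := finrank (RatFunc Fq) L
  set pol : (Fin D → Fq) → L[X] := fun c => X ^ D + ∑ i : Fin D, C (algebraMap Fq L (c i)) * X ^ (i : ℕ)
  have hdeg : ∀ c, (pol c).natDegree ≤ D := by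
    intro c
    refine natDegree_add_le_of_degree_le (by simp) ?_
    refine natDegree_sum_le_of_forall_le _ _ fun i _ => ?_
    exact (natDegree_C_mul_X_pow_le _ _).trans i.2.le
  refine ⟨Finset.univ.biUnion fun c => (pol c).roots.toFinset, ?_, fun u hu => ?_⟩
  · refine (Finset.card_biUnion_le_card_mul _ _ D fun c _ => ?_).trans (by simp)
    exact (Multiset.toFinset_card_le _).trans ((card_roots' _).trans (hdeg c))
  set p : L[X] := ∏ σ : L ≃ₐ[RatFunc Fq] L, (X - C (σ u)) with hp
  have hmon : p.Monic := monic_prod_X_sub_C _ _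
  have hpd : p.natDegree = D := by
    rw [hp, natDegree_finsetProd_X_sub_C_eq_card, Finset.card_univ, ← Nat.card_eq_fintype_card,
      IsGalois.card_aut_eq_finrank]
  have hco : ∀ j, ∃ c : Fq, algebraMap Fq L c = p.coeff j := by
    intro j
    obtain ⟨y, hy⟩ : p.coeff j ∈ Set.range (algebraMap (RatFunc Fq) L) := by
      rw [IsGalois.mem_range_algebraMap_iff_fixed]
      intro τ
      have : p.map (τ : L →+* L) = p := by
        rw [hp, Polynomial.map_prod]
        simp only [Polynomial.map_sub, map_X, map_C]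
        exact Equiv.prod_comp (Equiv.mulLeft τ) fun σ => X - C (σ u)
      conv_rhs => rw [← this, coeff_map]
      rfl
    obtain ⟨c, hc⟩ := exists_const_of_le_one (y := y) (by
      intro v
      rw [← h.le_one_iff, hy]
      have := GB.prod (w := wv v) (σ := 1) one_ne_zero Finset.univ
        (fun σ : L ≃ₐ[RatFunc Fq] L => 1) (fun σ => X - C (σ u))
        (fun σ _ => (GB_X_sub_C _).mono (max_le le_rfl (hu v σ))) j
      simpa using this)
    exact ⟨c, by rw [← hy, ← hc, ← IsScalarTower.algebraMap_apply]⟩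
  choose c hc using hco
  have h1 : pol (fun i => c i) = p := by
    conv_rhs => rw [hmon.as_sum, hpd, Finset.sum_range]
    simp only [pol, hc]
  refine Finset.mem_biUnion.mpr ⟨fun i => c i, Finset.mem_univ _, ?_⟩
  rw [h1, Multiset.mem_toFinset, mem_roots hmon.ne_zero, IsRoot, hp, eval_prod]
  exact Finset.prod_eq_zero (Finset.mem_univ 1) (by simp)

lemma Ext.count (h : Ext wv) (V : Submodule Fq L) [FiniteDimensional Fq V] (P : MI Fq)
    (hc : ∀ P' ≠ P, ∀ σ, ∀ x ∈ V, ∀ y ∈ V, x ≠ 0 → y ≠ 0 →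
      WW wv (some P') σ x = WW wv (some P') σ y) :
    (Fintype.card Fq) ^ finrank Fq V ≤ 1 +
      (Fintype.card Fq) ^ finrank (RatFunc Fq) L * finrank (RatFunc Fq) L *
        finrank Fq V ^ (2 * finrank (RatFunc Fq) L) := by
  classical
  obtain ⟨U, hU1, hU2⟩ := h.exists_units
  obtain ⟨sV', hsV'⟩ := exists_finset V
  set sV := sV'.erase 0
  have hsV : ∀ x ∈ sV, x ∈ V ∧ x ≠ 0 := by
    intro x; simp [sV, hsV', and_comm]
  have h1 : sV.card + 1 = (Fintype.card Fq) ^ finrank Fq V := by
    rw [Finset.card_erase_add_one ((hsV' 0).mpr V.zero_mem), card_finset_eq V hsV']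
  set f : L → (Bool × (L ≃ₐ[RatFunc Fq] L)) → ℝᵐ⁰ :=
    fun x i => WW wv (if i.1 then none else some P) i.2 x with hf
  have h2 : (sV.image f).card ≤ finrank Fq V ^ (2 * finrank (RatFunc Fq) L) := by
    have : sV.image f ⊆ Fintype.piFinset fun i : Bool × (L ≃ₐ[RatFunc Fq] L) =>
        sV.image (WW wv (if i.1 then none else some P) i.2) := by
      intro b hb
      obtain ⟨x, hx, rfl⟩ := Finset.mem_image.mp hb
      exact Fintype.mem_piFinset.mpr fun i => Finset.mem_image_of_mem _ hx
    refine (Finset.card_le_card this).trans ?_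
    rw [Fintype.card_piFinset]
    refine (Finset.prod_le_pow_card _ _ _ fun i _ => card_image_le_finrank _ V sV hsV).trans ?_
    rw [Finset.card_univ, Fintype.card_prod, Fintype.card_bool, ← Nat.card_eq_fintype_card,
      IsGalois.card_aut_eq_finrank]
  have h3 := Finset.card_le_mul_card_image (f := f) sV U.card (by
    intro b hb
    obtain ⟨y, hy, rfl⟩ := Finset.mem_image.mp hb
    refine Finset.card_le_card_of_injOn (fun x => x / y) ?_ ?_
    · intro x hx
      have hx' := Finset.mem_filter.mp hx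
      refine hU2 _ fun v σ => ?_
      have : WW wv v σ x = WW wv v σ y := by
        cases v with
        | none => exact congrFun hx'.2 (true, σ)
        | some P' =>
          by_cases hP : P' = P
          · rw [hP]; exact congrFun hx'.2 (false, σ)
          · exact hc P' hP σ x (hsV x hx'.1).1 y (hsV y hy).1 (hsV x hx'.1).2 (hsV y hy).2
      rw [map_div₀, this]
      exact div_self_le_one _
    · intro a _ b _ hab
      exact (div_left_inj' (hsV y hy).2).mp hab)
  have h4 := h3.trans (Nat.mul_le_mul hU1 h2)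
  omega

end Pool.Agent.P.MP_43acf5_nt
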