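import Mathlib

/-! Extension of a discrete valuation to a finite extension, with real values. -/

namespace Pool.Agent.P.MP_43acf5_nt

open Module WithZero Polynomial

lemma exists_pow_eq_of_finite {F L Γ : Type*} [Field F] [Field L] [Algebra F L]
    [FiniteDimensional F L] [LinearOrderedCommGroupWithZero Γ] (W : Valuation L Γ) {x : L}
    (hx : x ≠ 0) : ∃ k, 1 ≤ k ∧ k ≤ finrank F L ∧ ∃ y : F, y ≠ 0 ∧
      W x ^ k = W (algebraMap F L y) := by
  classical
  set p := minpoly F x
  have hint : IsIntegral F x := Algebra.IsIntegral.isIntegral x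
  have hmon : p.Monic := minpoly.monic hint
  have hdeg : p.natDegree ≤ finrank F L := minpoly.natDegree_le x
  have h0 : ∑ j ∈ Finset.range (p.natDegree + 1), algebraMap F L (p.coeff j) * x ^ j = 0 := by
    have := minpoly.aeval F x
    rw [aeval_eq_sum_range] at this
    simpa [Algebra.smul_def] using this
  obtain ⟨i, hi, hmax⟩ := Finset.exists_max_image (Finset.range (p.natDegree + 1))
    (fun j => W (algebraMap F L (p.coeff j) * x ^ j)) ⟨0, by simp⟩
  have hWx : W x ≠ 0 := W.ne_zero_iff.mpr hx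
  have hi0 : W (algebraMap F L (p.coeff i) * x ^ i) ≠ 0 := by
    have := hmax p.natDegree (by simp)
    rw [hmon.coeff_natDegree, map_one, one_mul, map_pow] at this
    exact ne_of_gt ((pow_pos (zero_lt_iff.mpr hWx) _).trans_le this)
  have hex : ∃ j ∈ Finset.range (p.natDegree + 1), j ≠ i ∧
      W (algebraMap F L (p.coeff j) * x ^ j) = W (algebraMap F L (p.coeff i) * x ^ i) := by
    by_contra hne
    push Not at hne
    have := W.map_sum_eq_of_lt (s := Finset.range (p.natDegree + 1))
      (f := fun j => algebraMap F L (p.coeff j) * x ^ j) hi (by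
        intro j hj
        have hj' := Finset.mem_sdiff.mp hj
        exact lt_of_le_of_ne (hmax j hj'.1) (hne j hj'.1 (by simpa using hj'.2)))
    rw [h0, map_zero] at this
    exact hi0 this.symm
  obtain ⟨j, hj, hji, hW⟩ := hex
  have key : ∀ a b : ℕ, a < b → b ≤ p.natDegree →
      W (algebraMap F L (p.coeff a) * x ^ a) = W (algebraMap F L (p.coeff b) * x ^ b) →
      W (algebraMap F L (p.coeff b) * x ^ b) ≠ 0 →
      ∃ k, 1 ≤ k ∧ k ≤ finrank F L ∧ ∃ y : F, y ≠ 0 ∧ W x ^ k = W (algebraMap F L y) := by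
    intro a b hab hb h hne
    have ha0 : p.coeff a ≠ 0 := by
      intro h0; rw [← h, h0] at hne; simp at hne
    have hb0 : p.coeff b ≠ 0 := by
      intro h0; rw [h0] at hne; simp at hne
    refine ⟨b - a, by omega, by omega, p.coeff a / p.coeff b, div_ne_zero ha0 hb0, ?_⟩
    have hWb : W (algebraMap F L (p.coeff b)) ≠ 0 := by simpa using hb0
    rw [map_div₀, map_div₀, eq_div_iff hWb]
    obtain ⟨k, rfl⟩ := Nat.exists_eq_add_of_le hab.le
    rw [map_mul, map_mul, map_pow, map_pow, pow_add, mul_comm (W x ^ a), ← mul_assoc] at h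
    rw [Nat.add_sub_cancel_left, mul_comm]
    exact (mul_right_cancel₀ (pow_ne_zero _ hWx) h).symm
  have hi' := Finset.mem_range.mp hi
  have hj' := Finset.mem_range.mp hj
  rcases lt_or_gt_of_ne hji with h | h
  · exact key j i h (by omega) hW hi0
  · exact key i j h (by omega) hW.symm (hW ▸ hi0)

lemma exists_extension {F L : Type*} [Field F] [Field L] [Algebra F L] [FiniteDimensional F L]
    (v : Valuation F ℤᵐ⁰) {π : F} (hπ : v π = exp (-1)) {c : ℝ} (hc : 0 < c) :
    ∃ w : Valuation L ℝᵐ⁰,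
      (∀ y : F, y ≠ 0 → w (algebraMap F L y) = exp (c * (log (v y) : ℤ))) ∧
      ∀ x : L, x ≠ 0 → ∃ z : ℤ, log (w x) = c * z / (finrank F L).factorial := by
  classical
  obtain ⟨A, hA, hloc⟩ := IsLocalRing.exists_factor_valuationRing
    ((algebraMap F L).comp v.valuationSubring.subtype)
  set W := A.valuation
  have h1 : ∀ y : F, v y ≤ 1 → W (algebraMap F L y) ≤ 1 := fun y hy =>
    (A.valuation_le_one_iff _).mpr (hA ⟨y, hy⟩)
  have hπ0 : π ≠ 0 := by
    rintro rfl
    rw [map_zero] at hπ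
    exact exp_ne_zero hπ.symm
  have hπ1 : v π < 1 := by rw [hπ, ← exp_zero, exp_lt_exp]; norm_num
  set ϖ := W (algebraMap F L π) with hϖ
  have hϖ0 : 0 < ϖ := zero_lt_iff.mpr (W.ne_zero_iff.mpr (by simpa using hπ0))
  have hϖ1 : ϖ < 1 := by
    have h2 : ¬ IsUnit (⟨π, hπ1.le⟩ : v.valuationSubring) := by
      rw [← mem_nonunits_iff, ← IsLocalRing.mem_maximalIdeal, Valuation.mem_maximalIdeal_iff]
      exact hπ1
    have h3 : ¬ IsUnit (⟨algebraMap F L π, hA ⟨π, hπ1.le⟩⟩ : A) := fun h =>
      h2 (hloc.map_nonunit _ h)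
    exact (A.valuation_lt_one_iff ⟨_, hA ⟨π, hπ1.le⟩⟩).mp h3
  have h2 : ∀ y : F, y ≠ 0 → W (algebraMap F L y) = ϖ ^ (-log (v y)) := by
    intro y hy
    have hvy : v y ≠ 0 := v.ne_zero_iff.mpr hy
    have h3 : v (y * π ^ log (v y)) = 1 := by
      rw [map_mul, map_zpow₀, hπ, ← exp_zsmul, ← exp_log hvy, ← exp_add]
      simp
    have h4 := h1 _ h3.le
    have h5 := h1 (y * π ^ log (v y))⁻¹ (by rw [map_inv₀, h3, inv_one])
    rw [map_inv₀, map_inv₀, inv_le_one₀ (zero_lt_iff.mpr (W.ne_zero_iff.mpr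
      ((_root_.map_ne_zero _).mpr (mul_ne_zero hy (zpow_ne_zero _ hπ0)))))] at h5
    have h6 := le_antisymm h4 h5
    rw [map_mul, map_mul, map_zpow₀, map_zpow₀] at h6
    rw [zpow_neg]
    exact eq_inv_of_mul_eq_one_left h6
  set N := (finrank F L).factorial with hN
  have hN0 : 0 < N := Nat.factorial_pos _
  have h3 : ∀ x : L, x ≠ 0 → ∃ z : ℤ, W x ^ N = ϖ ^ z := by
    intro x hx
    obtain ⟨k, hk1, hk2, y, hy, h⟩ := exists_pow_eq_of_finite (F := F) W hx
    obtain ⟨m, hm⟩ := Nat.dvd_factorial hk1 hk2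
    refine ⟨-log (v y) * m, ?_⟩
    rw [hN, hm, pow_mul, h, h2 y hy, zpow_mul, zpow_natCast]
  choose! z hz using h3
  have hinj : ∀ a b : ℤ, ϖ ^ a = ϖ ^ b → a = b := fun a b h =>
    zpow_right_injective₀ hϖ0 hϖ1.ne h
  set f : L → ℝᵐ⁰ := fun x => if x = 0 then 0 else exp (c * (-z x : ℤ) / N) with hf
  have hmono : ∀ a b : L, W a ≤ W b → f a ≤ f b := by
    intro a b hab
    by_cases ha : a = 0
    · simp [hf, ha]
    have hb : b ≠ 0 := by
      rintro rfl
      rw [map_zero, le_zero_iff] at hab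
      exact ha (W.zero_iff.mp hab)
    simp only [hf, if_neg ha, if_neg hb, exp_le_exp]
    have h4 : ϖ ^ z a ≤ ϖ ^ z b := by
      rw [← hz a ha, ← hz b hb]; exact pow_le_pow_left' hab N
    rw [zpow_le_zpow_iff_right_of_lt_one₀ hϖ0 hϖ1] at h4
    have : ((-z a : ℤ) : ℝ) ≤ ((-z b : ℤ) : ℝ) := by exact_mod_cast neg_le_neg h4
    gcongr
  let w : Valuation L ℝᵐ⁰ :=
    { toFun := f
      map_zero' := by simp [hf]
      map_one' := by
        have : z 1 = 0 := hinj _ _ (by rw [← hz 1 one_ne_zero]; simp)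
        simp [hf, this]
      map_mul' := by
        intro a b
        by_cases ha : a = 0
        · simp [hf, ha]
        by_cases hb : b = 0
        · simp [hf, hb]
        have : z (a * b) = z a + z b := hinj _ _ (by
          rw [← hz _ (mul_ne_zero ha hb), zpow_add₀ hϖ0.ne', ← hz a ha, ← hz b hb, map_mul,
            mul_pow])
        simp only [hf, if_neg ha, if_neg hb, if_neg (mul_ne_zero ha hb), this, ← exp_add]
        congr 1; push_cast; ring
      map_add_le_max' := by
        intro a b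
        rcases le_max_iff.mp (W.map_add a b) with h | h
        · exact le_max_of_le_left (hmono _ _ h)
        · exact le_max_of_le_right (hmono _ _ h) }
  refine ⟨w, fun y hy => ?_, fun x hx => ⟨-z x, ?_⟩⟩
  · have hy' : algebraMap F L y ≠ 0 := by simpa using hy
    have : z (algebraMap F L y) = -log (v y) * N := hinj _ _ (by
      rw [← hz _ hy', h2 y hy, zpow_mul, zpow_natCast])
    change f _ = _
    simp only [hf, if_neg hy', this]
    congr 1
    have : (N : ℝ) ≠ 0 := by positivity
    push_cast; field_simp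
  · change log (f x) = _
    simp only [hf, if_neg hx, log_exp]

end Pool.Agent.P.MP_43acf5_nt
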