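import Pool.Agent.P.MP_43acf5_nt.Reduce

/-! The uniform bound for the number of torsion points. -/

namespace Pool.Agent.P.MP_43acf5_nt

open Module Polynomial

lemma killer {Fq : Type*} [Field Fq] [Fintype Fq] {M : Type*} [AddCommGroup M] [Module Fq M]
    {Φ : Module.End Fq M} {n0 : ℕ}
    (h : ∀ (x0 : M) (P : MI Fq) (k : ℕ),
      (∀ a, (aeval Φ a : Module.End Fq M) x0 = 0 ↔ P.1 ^ k ∣ a) → k * P.1.natDegree < n0)
    {x : M} {a : Fq[X]} (ha : a ≠ 0) (hx : (aeval Φ a : Module.End Fq M) x = 0) :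
    (aeval Φ ((X ^ (Fintype.card Fq) ^ n0.factorial - X : Fq[X]) ^ n0) : Module.End Fq M) x
      = 0 := by
  classical
  let I : Ideal Fq[X] :=
    { carrier := {b | (aeval Φ b : Module.End Fq M) x = 0}
      add_mem' := fun {b c} hb hc => by
        simp only [Set.mem_ofPred_eq] at hb hc ⊢
        rw [map_add, LinearMap.add_apply, hb, hc, add_zero]
      zero_mem' := by simp
      smul_mem' := fun c b hb => by
        simp only [Set.mem_ofPred_eq] at hb ⊢
        rw [smul_eq_mul, ← aeval_aeval, hb, map_zero] }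
  obtain ⟨g, hg⟩ := (IsPrincipalIdealRing.principal I).principal
  have hI : ∀ b, (aeval Φ b : Module.End Fq M) x = 0 ↔ g ∣ b := by
    intro b
    rw [← Ideal.mem_span_singleton]
    change b ∈ I ↔ _
    rw [hg]
  have hg0 : g ≠ 0 := by
    rintro rfl
    exact ha (zero_dvd_iff.mp ((hI a).mp hx))
  rw [hI, UniqueFactorizationMonoid.dvd_iff_emultiplicity_le hg0]
  intro p hp
  rw [emultiplicity_le_emultiplicity_iff]
  intro k hk
  rcases Nat.eq_zero_or_pos k with rfl | hk0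
  · simp
  have hass : Associated (normalize p) p := normalize_associated p
  let P : MI Fq := ⟨normalize p, monic_normalize hp.ne_zero, hass.symm.irreducible hp.irreducible⟩
  obtain ⟨c, hc⟩ : P.1 ^ k ∣ g := (hass.pow_pow (n := k)).dvd.trans hk
  have hc0 : c ≠ 0 := by
    rintro rfl
    exact hg0 (by simpa using hc)
  have h1 := h ((aeval Φ c : Module.End Fq M) x) P k (fun b => by
    rw [aeval_aeval, hI, hc, mul_dvd_mul_iff_right hc0])
  have h2 : 0 < P.1.natDegree := P.2.2.natDegree_pos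
  have h3 : P.1 ∣ X ^ (Fintype.card Fq) ^ n0.factorial - X := by
    rw [← Nat.card_eq_fintype_card, ← P.2.2.natDegree_dvd_iff_dvd_X_pow_card_pow_sub_X]
    exact Nat.dvd_factorial h2 (by nlinarith)
  refine (hass.pow_pow (n := k)).symm.dvd.trans ((pow_dvd_pow_of_dvd h3 k).trans ?_)
  exact pow_dvd_pow _ (by nlinarith)

universe u v

lemma torsion_bound_lin {q r : ℕ} (hq : 2 ≤ q) (hr : 0 < r) (d : ℕ) : ∃ B : ℕ,
    ∀ (Fq : Type u) [Field Fq] [Fintype Fq], Fintype.card Fq = q →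
    ∀ (L : Type v) [Field L] [Algebra (RatFunc Fq) L] [Algebra Fq L]
      [IsScalarTower Fq (RatFunc Fq) L] [FiniteDimensional (RatFunc Fq) L],
      finrank (RatFunc Fq) L ≤ d → ∀ Φ : Module.End Fq L, IsLin Fq (th Fq L 0) r Φ →
      ∀ s : Finset L, (∀ x ∈ s, ∃ a : Fq[X], a ≠ 0 ∧ (aeval Φ a : Module.End Fq L) x = 0) →
        s.card ≤ B := by
  obtain ⟨n0, h⟩ := primary_bound.{u, v} hq hr d
  refine ⟨q ^ (r * (n0 * q ^ n0.factorial)), ?_⟩
  intro Fq _ _ hFq L _ _ _ _ _ hd Φ hΦ s hs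
  have h1 : 1 < Fintype.card Fq := Fintype.one_lt_card
  have h2 := (isLin_aeval hΦ ((X ^ (Fintype.card Fq) ^ n0.factorial - X : Fq[X]) ^ n0)).card_roots_le
    (aeval_th_ne_zero 0 (pow_ne_zero _
      (FiniteField.X_pow_card_pow_sub_X_ne_zero Fq n0.factorial_ne_zero h1))) s (fun x hx => by
      obtain ⟨a, ha, hx⟩ := hs x hx
      exact killer (h Fq hFq L hd Φ hΦ) ha hx)
  rwa [natDegree_pow, FiniteField.X_pow_card_pow_sub_X_natDegree_eq Fq n0.factorial_ne_zero h1,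
    hFq] at h2

theorem torsion_bound (q r d : ℕ) (hr : 1 ≤ r) : ∃ B : ℕ,
    ∀ (Fq : Type u) [Field Fq] [Fintype Fq], Fintype.card Fq = q →
    ∀ (L : Type v) [Field L] [Algebra (RatFunc Fq) L] [FiniteDimensional (RatFunc Fq) L],
      finrank (RatFunc Fq) L ≤ d → ∀ (g : ℕ → L) (φT : L → L),
      (∀ x, φT x = algebraMap (RatFunc Fq) L RatFunc.X * x +
        ∑ j ∈ Finset.Icc 1 r, g j * x ^ q ^ j) →
      ∀ φ : Fq[X] → L → L, (∀ a x, φ a x = ∑ i ∈ Finset.range (a.natDegree + 1),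
        algebraMap (RatFunc Fq) L (RatFunc.C (a.coeff i)) * φT^[i] x) →
      {α : L | ∃ a : Fq[X], a ≠ 0 ∧ φ a α = 0}.Finite ∧
        {α : L | ∃ a : Fq[X], a ≠ 0 ∧ φ a α = 0}.ncard ≤ B := by
  by_cases hq : 2 ≤ q
  swap
  · exact ⟨0, fun Fq _ _ hFq => absurd (hFq ▸ two_le_q Fq) hq⟩
  obtain ⟨B, h⟩ := torsion_bound_lin.{u, v} hq hr d
  refine ⟨B, ?_⟩
  intro Fq _ _ hFq L _ _ _ hd g φT hφT φ hφ
  let : Algebra Fq L := ((algebraMap (RatFunc Fq) L).comp (algebraMap Fq (RatFunc Fq))).toAlgebra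
  have : IsScalarTower Fq (RatFunc Fq) L := IsScalarTower.of_algebraMap_eq fun _ => rfl
  have h1 : (fun x => φT x - th Fq L 0 * x) ∈ AP Fq L 1 (r + 1) := by
    refine mem_AP_iff.mpr ⟨g, fun x => ?_⟩
    rw [hφT, th, fr_zero, add_sub_cancel_left, ← Finset.Ico_add_one_right_eq_Icc]
    simp [fr_apply, hFq]
  have h2 : IsLin Fq (th Fq L 0) r φT := h1
  obtain ⟨Φ, hΦ⟩ := exists_linear_of_mem_AP h2.mem_AP
  have h3 : ∀ a x, φ a x = (aeval Φ a : Module.End Fq L) x := by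
    intro a x
    rw [hφ, aeval_eq_sum_range, LinearMap.sum_apply]
    refine Finset.sum_congr rfl fun i _ => ?_
    rw [LinearMap.smul_apply, Algebra.smul_def, Module.End.pow_apply, hΦ]
    rfl
  have h4 := h Fq hFq L hd Φ (by rw [hΦ]; exact h2)
  have h5 : {α : L | ∃ a : Fq[X], a ≠ 0 ∧ φ a α = 0}.Finite := by
    by_contra hinf
    obtain ⟨s, hs, hc⟩ := Set.Infinite.exists_subset_card_eq hinf (B + 1)
    have := h4 s (fun x hx => by simpa only [h3, Set.mem_ofPred_eq] using hs hx)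
    omega
  refine ⟨h5, ?_⟩
  rw [Set.ncard_eq_toFinset_card _ h5]
  exact h4 _ (fun x hx => by simpa only [h3, Set.mem_ofPred_eq] using h5.mem_toFinset.mp hx)

end Pool.Agent.P.MP_43acf5_nt
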