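import Pool.Agent.P.MP_43acf5_nt.Hasse

/-! The places of the rational function field and the product formula. -/

namespace Pool.Agent.P.MP_43acf5_nt

open Polynomial WithZero IsDedekindDomain

variable {Fq : Type*} [Field Fq]

/-- Monic irreducible polynomials. -/
abbrev MI (Fq : Type*) [Field Fq] := {P : Fq[X] // P.Monic ∧ Irreducible P}

/-- Places of the rational function field; `none` is the place at infinity. -/
abbrev Pl (Fq : Type*) [Field Fq] := Option (MI Fq)

/-- The prime ideal generated by a monic irreducible polynomial. -/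
noncomputable def hs (P : MI Fq) : HeightOneSpectrum Fq[X] where
  asIdeal := Ideal.span {P.1}
  isPrime := (PrincipalIdealRing.isMaximal_of_irreducible P.2.2).isPrime
  ne_bot := by simpa using P.2.2.ne_zero

open Classical in
/-- The normalised valuation of a place. -/
noncomputable def pval : Pl Fq → Valuation (RatFunc Fq) ℤᵐ⁰
  | none => RatFunc.inftyValuation Fq
  | some P => (hs P).valuation (RatFunc Fq)

/-- The degree of a place. -/
def pdeg : Pl Fq → ℕ
  | none => 1
  | some P => P.1.natDegree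

/-- A uniformiser at a place. -/
noncomputable def punif : Pl Fq → RatFunc Fq
  | none => 1 / RatFunc.X
  | some P => algebraMap Fq[X] (RatFunc Fq) P.1

lemma pdeg_pos (v : Pl Fq) : 0 < pdeg v := by
  cases v with
  | none => exact one_pos
  | some P => exact P.2.2.natDegree_pos

lemma pval_punif (v : Pl Fq) : pval v (punif v) = exp (-1) := by
  classical
  cases v with
  | none => exact RatFunc.inftyValuation.X_inv Fq
  | some P =>
    exact ((hs P).valuation_of_algebraMap P.1).trans
      ((hs P).intValuation_singleton P.2.2.ne_zero rfl)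

lemma pval_some_le_one (P : MI Fq) (f : Fq[X]) :
    pval (some P) (algebraMap Fq[X] (RatFunc Fq) f) ≤ 1 := (hs P).valuation_le_one f

lemma pval_some_eq_one_iff (P : MI Fq) (f : Fq[X]) :
    pval (some P) (algebraMap Fq[X] (RatFunc Fq) f) = 1 ↔ ¬ P.1 ∣ f := by
  rw [← Ideal.mem_span_singleton]
  exact (hs P).valuation_eq_one_iff_notMem

lemma pval_none {f : Fq[X]} (hf : f ≠ 0) :
    pval none (algebraMap Fq[X] (RatFunc Fq) f) = exp (f.natDegree : ℤ) := by
  classical
  exact RatFunc.inftyValuation.polynomial Fq hf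

lemma MI.eq_of_dvd {P P' : MI Fq} (h : P.1 ∣ P'.1) : P = P' :=
  Subtype.ext (eq_of_monic_of_associated P.2.1 P'.2.1 (P.2.2.associated_of_dvd P'.2.2 h))

lemma product_formula_poly {f : Fq[X]} (hf : f ≠ 0) : ∃ S0 : Finset (Pl Fq), ∀ S, S0 ⊆ S →
    ∑ v ∈ S, (pdeg v : ℤ) * log (pval v (algebraMap Fq[X] (RatFunc Fq) f)) = 0 := by
  classical
  induction f using UniqueFactorizationMonoid.induction_on_prime with
  | h₁ => exact absurd rfl hf
  | h₂ f hu =>
    refine ⟨∅, fun S _ => Finset.sum_eq_zero fun v _ => ?_⟩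
    cases v with
    | none => rw [pval_none hf, natDegree_eq_zero_of_isUnit hu]; simp
    | some P =>
      rw [(pval_some_eq_one_iff P f).mpr fun h => P.2.2.not_isUnit (isUnit_of_dvd_unit h hu)]
      simp
  | h₃ a p ha hp ih =>
    obtain ⟨S0, hS0⟩ := ih ha
    obtain ⟨P, hP1, hP2, hP3⟩ := exists_monic_irreducible_factor p hp.not_isUnit
    have hass : Associated P p := hP2.associated_of_dvd hp.irreducible hP3
    set P' : MI Fq := ⟨P, hP1, hP2⟩
    refine ⟨S0 ∪ {none, some P'}, fun S hS => ?_⟩
    have h1 := hS0 S (Finset.subset_union_left.trans hS)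
    have h2 : ∑ v ∈ S, (pdeg v : ℤ) * log (pval v (algebraMap Fq[X] (RatFunc Fq) p)) = 0 := by
      rw [← Finset.sum_subset (Finset.subset_union_right.trans hS), Finset.sum_pair (by simp)]
      · rw [pval_none hp.ne_zero]
        obtain ⟨u, rfl⟩ := hass
        have h3 : pval (some P') (algebraMap Fq[X] (RatFunc Fq) u) = 1 :=
          (pval_some_eq_one_iff P' u).mpr fun h => hP2.not_isUnit (isUnit_of_dvd_unit h u.isUnit)
        have h4 : pval (some P') (algebraMap Fq[X] (RatFunc Fq) P) = exp (-1) :=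
          pval_punif (some P')
        rw [map_mul, map_mul, h3, h4, natDegree_mul hP2.ne_zero u.ne_zero,
          natDegree_eq_zero_of_isUnit u.isUnit]
        simp [pdeg, P']
      · intro v _ hv
        cases v with
        | none => simp at hv
        | some P'' =>
          rw [(pval_some_eq_one_iff P'' p).mpr]
          · simp
          · intro h
            apply hv
            have : P'' = P' := MI.eq_of_dvd (h.trans hass.symm.dvd)
            simp [this]
    rw [← add_zero 0]
    nth_rewrite 1 [← h2]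
    rw [← h1, ← Finset.sum_add_distrib]
    refine Finset.sum_congr rfl fun v _ => ?_
    rw [map_mul, map_mul, log_mul, mul_add]
    · simpa using hp.ne_zero
    · simpa using ha

lemma product_formula {y : RatFunc Fq} (hy : y ≠ 0) : ∃ S0 : Finset (Pl Fq), ∀ S, S0 ⊆ S →
    ∑ v ∈ S, (pdeg v : ℤ) * log (pval v y) = 0 := by
  classical
  obtain ⟨S1, h1⟩ := product_formula_poly (RatFunc.num_ne_zero hy)
  obtain ⟨S2, h2⟩ := product_formula_poly (RatFunc.denom_ne_zero y)
  refine ⟨S1 ∪ S2, fun S hS => ?_⟩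
  rw [← sub_zero 0]
  nth_rewrite 1 [← h1 S (Finset.subset_union_left.trans hS)]
  rw [← h2 S (Finset.subset_union_right.trans hS), ← Finset.sum_sub_distrib]
  refine Finset.sum_congr rfl fun v _ => ?_
  conv_lhs => rw [← RatFunc.num_div_denom y]
  rw [map_div₀, log_div, mul_sub]
  · simpa using RatFunc.num_ne_zero hy
  · simpa using RatFunc.denom_ne_zero y

lemma not_dvd_denom {P : MI Fq} {y : RatFunc Fq} (h : pval (some P) y ≤ 1) : ¬ P.1 ∣ y.denom := by
  intro hd
  have hn : ¬ P.1 ∣ y.num := fun hn =>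
    P.2.2.not_isUnit ((RatFunc.isCoprime_num_denom y).isUnit_of_dvd' hn hd)
  have h1 := (pval_some_eq_one_iff P _).mpr hn
  have h2 : pval (some P) (algebraMap Fq[X] (RatFunc Fq) y.denom) < 1 :=
    lt_of_le_of_ne (pval_some_le_one P _) fun h => (pval_some_eq_one_iff P _).mp h hd
  have h3 : 0 < pval (some P) (algebraMap Fq[X] (RatFunc Fq) y.denom) :=
    zero_lt_iff.mpr (by simpa using RatFunc.denom_ne_zero y)
  rw [← RatFunc.num_div_denom y, map_div₀, h1, div_le_one₀ h3] at h
  exact absurd h (not_le.mpr h2)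

lemma natDegree_num_le {y : RatFunc Fq} (h : pval none y ≤ 1) :
    y.num.natDegree ≤ y.denom.natDegree := by
  by_cases hy : y = 0
  · simp [hy]
  rw [← RatFunc.num_div_denom y, map_div₀, pval_none (RatFunc.num_ne_zero hy),
    pval_none (RatFunc.denom_ne_zero y), div_le_one₀ exp_pos, exp_le_exp] at h
  exact_mod_cast h

lemma exists_const_of_le_one {y : RatFunc Fq} (h : ∀ v : Pl Fq, pval v y ≤ 1) :
    ∃ c : Fq, algebraMap Fq (RatFunc Fq) c = y := by
  have h1 : IsUnit y.denom := by
    by_contra hu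
    obtain ⟨P, hP1, hP2, hP3⟩ := exists_monic_irreducible_factor _ hu
    exact not_dvd_denom (h (some ⟨P, hP1, hP2⟩)) hP3
  have h2 : y.denom = 1 := (RatFunc.monic_denom y).eq_one_of_isUnit h1
  have h3 := natDegree_num_le (h none)
  rw [h2, natDegree_one, Nat.le_zero] at h3
  refine ⟨y.num.coeff 0, ?_⟩
  conv_rhs => rw [← RatFunc.num_div_denom y, h2, eq_C_of_natDegree_eq_zero h3]
  simp

variable [Fintype Fq]

lemma pval_HD_le_one (v : Pl Fq) {y : RatFunc Fq} (h : pval v y ≤ 1) (j : ℕ) :
    pval v (HD j y) ≤ 1 := by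
  have hj : j < (Fintype.card Fq) ^ j := Nat.lt_pow_self (two_le_q Fq)
  obtain ⟨k, hk⟩ : ∃ k, (Fintype.card Fq) ^ j = k + 1 := ⟨(Fintype.card Fq) ^ j - 1, by omega⟩
  have hd : algebraMap Fq[X] (RatFunc Fq) y.denom ≠ 0 :=
    RatFunc.algebraMap_ne_zero (RatFunc.denom_ne_zero y)
  have h1 : y = fr Fq (RatFunc Fq) j (algebraMap Fq[X] (RatFunc Fq) y.denom)⁻¹ *
      algebraMap Fq[X] (RatFunc Fq) (y.num * y.denom ^ k) := by
    conv_lhs => rw [← RatFunc.num_div_denom y]
    rw [fr_apply, hk, map_mul, map_pow, inv_pow, pow_succ]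
    field_simp
  have h2 : HD j y = algebraMap Fq[X] (RatFunc Fq) (hasseDeriv j (y.num * y.denom ^ k)) /
      algebraMap Fq[X] (RatFunc Fq) (y.denom ^ (k + 1)) := by
    conv_lhs => rw [h1, HD_fr_mul hj, HD_algebraMap, fr_apply, hk]
    rw [map_pow, inv_pow, div_eq_inv_mul]
  have hd' : y.denom ^ (k + 1) ≠ 0 := pow_ne_zero _ (RatFunc.denom_ne_zero y)
  rw [h2, map_div₀]
  refine div_le_one_of_le₀ ?_ zero_le
  cases v with
  | none =>
    by_cases h0 : hasseDeriv j (y.num * y.denom ^ k) = 0
    · simp [h0]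
    rw [pval_none h0, pval_none hd', exp_le_exp, natDegree_pow]
    have h3 := natDegree_hasseDeriv_le (y.num * y.denom ^ k) j
    have h4 := natDegree_mul_le (p := y.num) (q := y.denom ^ k)
    have h5 := natDegree_num_le h
    rw [natDegree_pow] at h4
    have : (hasseDeriv j (y.num * y.denom ^ k)).natDegree ≤ (k + 1) * y.denom.natDegree := by
      rw [add_mul, one_mul]; omega
    exact_mod_cast this
  | some P =>
    rw [(pval_some_eq_one_iff P (y.denom ^ (k + 1))).mpr
      fun hh => not_dvd_denom h (P.2.2.prime.dvd_of_dvd_pow hh)]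
    exact pval_some_le_one P _

end Pool.Agent.P.MP_43acf5_nt
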