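import Pool.Agent.P.MP_43acf5_nt.Core
import Pool.Agent.P.MP_43acf5_nt.Places
import Pool.Agent.P.MP_43acf5_nt.Extend

/-! The product formula applied to the generalised Wronskian. -/

namespace Pool.Agent.P.MP_43acf5_nt

open Module WithZero

variable {Fq : Type*} [Field Fq] {L : Type*} [Field L] [Algebra (RatFunc Fq) L]

/-- A choice of one extension to `L` of every place. -/
structure Ext (wv : Pl Fq → Valuation L ℝᵐ⁰) : Prop where
  base : ∀ v, ∀ y : RatFunc Fq, y ≠ 0 →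
    wv v (algebraMap _ L y) = exp ((pdeg v : ℝ) * (log (pval v y) : ℤ))
  disc : ∀ v, ∀ x : L, x ≠ 0 →
    ∃ z : ℤ, log (wv v x) = (pdeg v : ℝ) * z / (finrank (RatFunc Fq) L).factorial

lemma exists_ext [FiniteDimensional (RatFunc Fq) L] :
    ∃ wv : Pl Fq → Valuation L ℝᵐ⁰, Ext wv := by
  choose wv h1 h2 using fun v : Pl Fq => exists_extension (L := L) (pval v) (pval_punif v)
    (c := pdeg v) (by exact_mod_cast pdeg_pos v)
  exact ⟨wv, h1, h2⟩

/-- The conjugates of the chosen extensions. -/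
noncomputable def WW (wv : Pl Fq → Valuation L ℝᵐ⁰) (v : Pl Fq) (σ : L ≃ₐ[RatFunc Fq] L) :
    Valuation L ℝᵐ⁰ :=
  (wv v).comap (σ : L →+* L)

lemma WW_apply (wv : Pl Fq → Valuation L ℝᵐ⁰) (v : Pl Fq) (σ : L ≃ₐ[RatFunc Fq] L) (x : L) :
    WW wv v σ x = wv v (σ x) := rfl

lemma WW_algebraMap (wv : Pl Fq → Valuation L ℝᵐ⁰) (v : Pl Fq) (σ : L ≃ₐ[RatFunc Fq] L)
    (y : RatFunc Fq) : WW wv v σ (algebraMap _ L y) = wv v (algebraMap _ L y) := by
  rw [WW_apply, AlgEquiv.commutes]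

lemma exp_sum {ι : Type*} (s : Finset ι) (f : ι → ℝ) :
    exp (∑ i ∈ s, f i) = ∏ i ∈ s, exp (f i) := by
  classical
  induction s using Finset.induction_on with
  | empty => simp
  | insert a s ha ih => rw [Finset.sum_insert ha, Finset.prod_insert ha, exp_add, ih]

variable {wv : Pl Fq → Valuation L ℝᵐ⁰}

lemma Ext.le_one_iff (h : Ext wv) (v : Pl Fq) (y : RatFunc Fq) :
    wv v (algebraMap _ L y) ≤ 1 ↔ pval v y ≤ 1 := by
  by_cases hy : y = 0
  · simp [hy]
  have hv : pval v y ≠ 0 := (pval v).ne_zero_iff.mpr hy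
  have hd : (0 : ℝ) < pdeg v := by exact_mod_cast pdeg_pos v
  rw [h.base v y hy, ← exp_zero, exp_le_exp, ← exp_zero, ← log_le_iff_le_exp hv]
  constructor
  · intro h
    by_contra h'
    have : (0 : ℝ) < (log (pval v y) : ℤ) := by exact_mod_cast not_le.mp h'
    exact absurd h (not_le.mpr (mul_pos hd this))
  · intro h
    exact mul_nonpos_of_nonneg_of_nonpos hd.le (by exact_mod_cast h)

lemma Ext.gap (h : Ext wv) (v : Pl Fq) (σ : L ≃ₐ[RatFunc Fq] L) {x y : L} (hx : x ≠ 0)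
    (hy : y ≠ 0) (hxy : log (WW wv v σ x) < log (WW wv v σ y)) :
    (pdeg v : ℝ) / (finrank (RatFunc Fq) L).factorial ≤ log (WW wv v σ y) - log (WW wv v σ x) := by
  obtain ⟨a, ha⟩ := h.disc v (σ x) (by simpa using hx)
  obtain ⟨b, hb⟩ := h.disc v (σ y) (by simpa using hy)
  rw [WW_apply, WW_apply, ha, hb] at hxy ⊢
  have hd : (0 : ℝ) < pdeg v := by exact_mod_cast pdeg_pos v
  have hN : (0 : ℝ) < (finrank (RatFunc Fq) L).factorial := by positivity
  rw [div_lt_div_iff_of_pos_right hN, mul_lt_mul_iff_right₀ hd] at hxy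
  have h1 : a + 1 ≤ b := by exact_mod_cast hxy
  have h2 : (a : ℝ) + 1 ≤ b := by exact_mod_cast h1
  rw [← sub_div]
  gcongr
  nlinarith

lemma Ext.product [FiniteDimensional (RatFunc Fq) L] [IsGalois (RatFunc Fq) L] (h : Ext wv)
    {x : L} (hx : x ≠ 0) : ∃ S0 : Finset (Pl Fq), ∀ S, S0 ⊆ S →
      ∑ v ∈ S, ∑ σ : L ≃ₐ[RatFunc Fq] L, log (WW wv v σ x) = 0 := by
  have hN : Algebra.norm (RatFunc Fq) x ≠ 0 := Algebra.norm_ne_zero_iff.mpr hx
  obtain ⟨S0, hS0⟩ := product_formula hN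
  refine ⟨S0, fun S hS => ?_⟩
  have h1 := congrArg (Int.cast : ℤ → ℝ) (hS0 S hS)
  push_cast at h1
  rw [← h1]
  refine Finset.sum_congr rfl fun v _ => ?_
  have h2 := h.base v _ hN
  rw [Algebra.norm_eq_prod_automorphisms, map_prod] at h2
  have h3 : ∏ σ : L ≃ₐ[RatFunc Fq] L, wv v (σ x) =
      exp (∑ σ : L ≃ₐ[RatFunc Fq] L, log (WW wv v σ x)) := by
    rw [exp_sum]
    refine Finset.prod_congr rfl fun σ _ => ?_
    rw [exp_log ((WW wv v σ).ne_zero_iff.mpr hx), WW_apply]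
  rw [h3, exp_inj] at h2
  exact h2

variable [Fintype Fq] [Algebra Fq L] [IsScalarTower Fq (RatFunc Fq) L]

omit [Algebra Fq L] [IsScalarTower Fq (RatFunc Fq) L] in
lemma Ext.exists_u (h : Ext wv) (v : Pl Fq) (s : ℕ) {a : ℝ} (ha : 0 ≤ a) :
    ∃ u : RatFunc Fq, u ≠ 0 ∧ ∃ b : ℝ, wv v (algebraMap _ L (fr Fq (RatFunc Fq) s u)) = exp (-b) ∧
      a ≤ b ∧ b ≤ a + ((Fintype.card Fq) ^ s : ℕ) * pdeg v := by
  set Q := (Fintype.card Fq) ^ s with hQ
  have hQ0 : (0 : ℝ) < Q := by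
    have := two_le_q Fq
    exact_mod_cast pow_pos (by omega) s
  have hd : (0 : ℝ) < pdeg v := by exact_mod_cast pdeg_pos v
  have hπ : punif v ≠ 0 := by
    intro h0
    have := pval_punif v
    rw [h0, map_zero] at this
    exact exp_ne_zero this.symm
  set j := ⌈a / (Q * pdeg v)⌉₊
  refine ⟨punif v ^ j, pow_ne_zero _ hπ, j * (Q * pdeg v), ?_, ?_, ?_⟩
  · rw [fr_apply, h.base v _ (pow_ne_zero _ (pow_ne_zero _ hπ)), map_pow, map_pow, pval_punif,
      log_pow, log_pow, log_exp]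
    congr 1
    simp only [nsmul_eq_mul, ← hQ]
    push_cast
    ring
  · have := Nat.le_ceil (a / (Q * pdeg v))
    rwa [div_le_iff₀ (by positivity)] at this
  · have := (Nat.ceil_lt_add_one (show 0 ≤ a / (Q * pdeg v) by positivity)).le
    have h2 := mul_le_mul_of_nonneg_right this (show (0 : ℝ) ≤ Q * pdeg v by positivity)
    rw [add_mul, div_mul_cancel₀ _ (by positivity), one_mul] at h2
    exact h2

variable [FiniteDimensional (RatFunc Fq) L] [IsGalois (RatFunc Fq) L]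

/-- The determinant inequality. -/
lemma Ext.core (h : Ext wv) (s : ℕ) (V : Submodule Fq L) [FiniteDimensional Fq V] {m : ℕ}
    (hm : m ≤ finrank (EE Fq s) (Submodule.span (EE Fq s) (V : Set L))) :
    ∃ M : ℕ, m ≤ M ∧ ∃ S0 : Finset (Pl Fq), ∀ S, S0 ⊆ S →
      ∀ (t A : Pl Fq → (L ≃ₐ[RatFunc Fq] L) → ℝ) (κ : Pl Fq → (L ≃ₐ[RatFunc Fq] L) → ℕ),
        (∀ v σ, 0 ≤ A v σ) → (∀ v σ, ∀ x ∈ V, WW wv v σ x ≤ exp (t v σ + A v σ)) →
        (∀ v σ, finrank Fq V ≤ finrank Fq (ball (WW wv v σ) V (t v σ)) + κ v σ) →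
        0 ≤ M * ∑ v ∈ S, ∑ σ, t v σ + finrank (RatFunc Fq) L *
          ∑ v ∈ S, (∑ σ, κ v σ : ℕ) * (∑ σ, A v σ + ((Fintype.card Fq) ^ s : ℕ) * pdeg v) := by
  classical
  obtain ⟨I, hI1, hI2, hI3⟩ := exists_rows V ((Fintype.card Fq) ^ s)
  have hM : m ≤ I.card := by
    obtain ⟨ι, a, ha, hsp, hli⟩ := exists_linearIndependent' (EE Fq s) (fun x : V => (x : L))
    have hVfin : Finite V := Module.finite_of_finite Fq
    have : Finite ι := Finite.of_injective a ha
    have := Fintype.ofFinite ι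
    have h1 := card_le_card_rows V s (I := I) ((hI3 _ le_rfl).trans
      (Submodule.span_mono (Set.image_mono fun p hp => hp.1))) (x := a) hli
    rw [linearIndependent_iff_card_eq_finrank_span.mp hli, Set.finrank, hsp] at h1
    have : Set.range (fun x : V => (x : L)) = (V : Set L) := Subtype.range_coe
    rw [this] at h1
    exact hm.trans h1
  obtain ⟨x, hx⟩ := exists_det_ne_zero (fun i : I => row V i) hI2
  set Δ := (Matrix.of fun (k i : I) => row V i (x k)).det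
  obtain ⟨S0, hS0⟩ := h.product hx
  refine ⟨I.card, hM, S0, fun S hS t A κ hA ht hκ => ?_⟩
  rw [← hS0 S hS, Finset.mul_sum, Finset.mul_sum, ← Finset.sum_add_distrib]
  refine Finset.sum_le_sum fun v _ => ?_
  obtain ⟨u, hu0, b, hub, hb1, hb2⟩ := h.exists_u v s
    (a := ∑ σ, A v σ) (Finset.sum_nonneg fun σ _ => hA v σ)
  have hb0 : 0 ≤ b := (Finset.sum_nonneg fun σ _ => hA v σ).trans hb1
  have key : ∀ g : L ≃ₐ[RatFunc Fq] L, log (WW wv v g Δ) ≤
      ∑ i : I, t v (g * i.1.1) + (∑ σ, κ v σ : ℕ) * b := by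
    intro g
    have h1 := det_bound (WW wv v g) s (by
        intro y hy j _
        rw [WW_algebraMap, h.le_one_iff] at hy ⊢
        exact pval_HD_le_one v hy j) V hI1 hI3 x (fun σ => exp (t v (g * σ)))
      (V ⊓ ⨅ σ ∈ Finset.univ, ball (WW wv v σ) V (t v σ)) inf_le_left (by
        intro y hy σ
        have := hy.2
        simp only [Finset.mem_univ, iInf_pos, Submodule.coe_iInf, Set.mem_iInter] at this
        exact (this (g * σ)).2)
      (finrank_iInf_le V Finset.univ _ (fun σ => ball_le _ _ _) (κ v) (hκ v)) hu0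
      (by rw [WW_algebraMap, hub, ← exp_zero, exp_le_exp]; linarith) (by
        intro y hy σ
        rw [WW_algebraMap, hub]
        refine (mul_le_mul_right (ht v (g * σ) y hy) _).trans ?_
        rw [← exp_add, exp_le_exp]
        have := Finset.single_le_sum (f := A v) (fun σ _ => hA v σ) (Finset.mem_univ (g * σ))
        linarith)
    have hΔ : WW wv v g Δ ≠ 0 := (WW wv v g).ne_zero_iff.mpr hx
    rw [WW_algebraMap, hub, ← exp_sum, ← exp_log hΔ, ← exp_nsmul, ← exp_add, exp_le_exp,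
      nsmul_eq_mul] at h1
    linarith
  refine (Finset.sum_le_sum fun g _ => key g).trans ?_
  rw [Finset.sum_add_distrib, Finset.sum_comm, Finset.sum_const, Finset.card_univ,
    ← Nat.card_eq_fintype_card, IsGalois.card_aut_eq_finrank, nsmul_eq_mul]
  have h2 : ∑ i : I, ∑ g : L ≃ₐ[RatFunc Fq] L, t v (g * i.1.1) = I.card * ∑ σ, t v σ := by
    have : ∀ i : I, ∑ g : L ≃ₐ[RatFunc Fq] L, t v (g * i.1.1) = ∑ σ, t v σ :=
      fun i => Equiv.sum_comp (Equiv.mulRight i.1.1) (t v)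
    simp [this]
  rw [h2]
  gcongr

end Pool.Agent.P.MP_43acf5_nt
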