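import Pool.Agent.P.MP_43acf5_nt.Interp

/-! Local structure of a finite submodule of a Drinfeld module over a valued field. -/

namespace Pool.Agent.P.MP_43acf5_nt

open Polynomial Module WithZero

variable {Fq : Type*} [Field Fq] [Fintype Fq] {L : Type*} [Field L] [Algebra Fq L]

/-- The Newton polygon data at a valuation. -/
structure Loc (w : Valuation L ℝᵐ⁰) (θ : L) (Φ : Module.End Fq L) (r : ℕ) (ν s : ℝ) : Prop where
  small : ∀ t ≤ s, ∀ x, w x ≤ exp t → w (Φ x - θ * x) ≤ exp (ν + 2 * t - s)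
  shrink : ∀ (V : Submodule Fq L) [FiniteDimensional Fq V], (∀ x ∈ V, Φ x ∈ V) → ∀ t, s ≤ t →
    finrank Fq (ball w V t) ≤ finrank Fq (ball w V (s + (t - s) / 2)) + r

lemma two_le_q_pow {k : ℕ} (hk : 1 ≤ k) : (2 : ℝ) ≤ ((Fintype.card Fq : ℕ) : ℝ) ^ k := by
  have h1 : 2 ≤ Fintype.card Fq ^ k :=
    (two_le_q Fq).trans (Nat.le_self_pow (by omega) _)
  exact_mod_cast h1

lemma shrink_of_coeff (w : Valuation L ℝᵐ⁰) {Φ : Module.End Fq L} {r : ℕ} {g : ℕ → L}
    (hg : ∀ x, Φ x = ∑ k ∈ Finset.range (r + 1), g k * fr Fq L k x) {k : ℕ} (hk1 : 1 ≤ k)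
    (hk2 : k ≤ r) (hgk : g k ≠ 0) {s : ℝ}
    (hs : s ≤ log (w (g k)) + ((Fintype.card Fq : ℕ) : ℝ) ^ k * s)
    (V : Submodule Fq L) [FiniteDimensional Fq V] (hV : ∀ x ∈ V, Φ x ∈ V) (t : ℝ) (ht : s ≤ t) :
    finrank Fq (ball w V t) ≤ finrank Fq (ball w V (s + (t - s) / 2)) + r := by
  classical
  set B := ball w V t
  set B' := ball w V (s + (t - s) / 2)
  set U : Submodule Fq L := V ⊓ B.comap Φ
  have h1 : finrank Fq B ≤ finrank Fq U := finrank_le_finrank_comap (ball_le w V t) Φ hV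
  have : FiniteDimensional Fq U := Submodule.finiteDimensional_of_le inf_le_left
  obtain ⟨X, hXU, hdisj, -, hrk⟩ := exists_compl_in (inf_le_right : B' ⊓ U ≤ U)
  have h2 : finrank Fq (B' ⊓ U : Submodule Fq L) ≤ finrank Fq B' :=
    Submodule.finrank_mono inf_le_left
  by_contra hcon
  have h3 : r < finrank Fq X := by omega
  have : FiniteDimensional Fq X := Submodule.finiteDimensional_of_le hXU
  obtain ⟨sX, hsX⟩ := exists_finset X
  have hcard : (Fintype.card Fq) ^ r < sX.card := by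
    rw [card_finset_eq X hsX]; exact Nat.pow_lt_pow_right (two_le_q Fq) h3
  have hne : (sX.erase 0).Nonempty := by
    rw [← Finset.card_pos, Finset.card_erase_of_mem ((hsX 0).mpr X.zero_mem)]
    have : 0 < (Fintype.card Fq) ^ r := pow_pos (by have := two_le_q Fq; omega) r
    omega
  obtain ⟨x1, hx1, hmin⟩ := Finset.exists_min_image (sX.erase 0) w hne
  have hx10 : x1 ≠ 0 := (Finset.mem_erase.mp hx1).1
  have hx1X : x1 ∈ X := (hsX x1).mp (Finset.mem_erase.mp hx1).2
  have hw1 : w x1 ≠ 0 := w.ne_zero_iff.mpr hx10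
  have hgb : GB w (w x1) (exp t) (apoly Fq r g) := by
    refine GB_of_interp hw1 sX ((hsX 0).mpr X.zero_mem) ?_ ((apoly_natDegree_le r g).trans_lt hcard)
      ?_ ?_
    · intro x hx y hy
      exact (hsX _).mpr (X.sub_mem ((hsX _).mp hx) ((hsX _).mp hy))
    · intro x hx
      rw [apoly_eval, ← hg]
      exact (hXU ((hsX _).mp hx)).2.2
    · intro x hx hx0
      exact hmin x (Finset.mem_erase.mpr ⟨hx0, hx⟩)
  have h4 := hgb ((Fintype.card Fq) ^ k)
  rw [apoly_coeff r g hk2] at h4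
  have hwg : w (g k) ≠ 0 := w.ne_zero_iff.mpr hgk
  rw [← log_le_iff_le_exp (mul_ne_zero hwg (pow_ne_zero _ hw1)), log_mul hwg (pow_ne_zero _ hw1),
    log_pow, nsmul_eq_mul] at h4
  have h5 : s + (t - s) / 2 < log (w x1) := by
    rw [lt_log_iff_exp_lt hw1]
    by_contra hle
    push Not at hle
    have : x1 ∈ B' ⊓ U := ⟨⟨(hXU hx1X).1, hle⟩, hXU hx1X⟩
    exact hx10 ((Submodule.disjoint_def.mp hdisj) x1 this hx1X)
  have h6 := two_le_q_pow (Fq := Fq) hk1
  push_cast at h4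
  nlinarith

lemma exists_loc (w : Valuation L ℝᵐ⁰) {θ : L} {Φ : Module.End Fq L} {r : ℕ}
    (hΦ : IsLin Fq θ r Φ) (hne : ∃ x, Φ x ≠ θ * x) {ν : ℝ} (hν : 0 ≤ ν) :
    ∃ s, Loc w θ Φ r ν s := by
  classical
  obtain ⟨g, hg0, hg⟩ := hΦ.exists_coeff
  have hsub : ∀ x, Φ x - θ * x = ∑ k ∈ Finset.Ico 1 (r + 1), g k * fr Fq L k x := by
    intro x
    rw [hg, Finset.range_eq_Ico, Finset.sum_eq_sum_Ico_succ_bot (by omega)]
    simp [hg0]
  set K := (Finset.Ico 1 (r + 1)).filter fun k => g k ≠ 0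
  have hK : K.Nonempty := by
    by_contra h
    obtain ⟨x, hx⟩ := hne
    apply hx
    rw [← sub_eq_zero, hsub]
    refine Finset.sum_eq_zero fun k hk => ?_
    have : g k = 0 := by
      by_contra h'
      exact h ⟨k, Finset.mem_filter.mpr ⟨hk, h'⟩⟩
    simp [this]
  set q : ℝ := ((Fintype.card Fq : ℕ) : ℝ)
  obtain ⟨k0, hk0, hmin⟩ := Finset.exists_min_image K
    (fun k => (ν - log (w (g k))) / (q ^ k - 1)) hK
  have hk0' := Finset.mem_Ico.mp (Finset.mem_filter.mp hk0).1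
  set s := (ν - log (w (g k0))) / (q ^ k0 - 1) with hs
  refine ⟨s, ?_, ?_⟩
  · intro t ht x hx
    rw [hsub]
    refine w.map_sum_le fun k hk => ?_
    by_cases hgk : g k = 0
    · simp [hgk]
    have hk' := Finset.mem_Ico.mp hk
    have h2 := two_le_q_pow (Fq := Fq) hk'.1
    have h3 := hmin k (Finset.mem_filter.mpr ⟨hk, hgk⟩)
    rw [le_div_iff₀ (by linarith)] at h3
    have hwg : w (g k) ≠ 0 := w.ne_zero_iff.mpr hgk
    rw [map_mul, fr_apply, map_pow, ← exp_log hwg]
    refine (mul_le_mul_right (pow_le_pow_left' hx _) _).trans ?_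
    rw [← exp_nsmul, ← exp_add, exp_le_exp, nsmul_eq_mul]
    push_cast
    nlinarith
  · intro V _ hV t ht
    refine shrink_of_coeff w hg hk0'.1 (by omega) (Finset.mem_filter.mp hk0).2 ?_ V hV t ht
    have h2 := two_le_q_pow (Fq := Fq) hk0'.1
    have h3 : s * (q ^ k0 - 1) = ν - log (w (g k0)) := by
      rw [hs]; exact div_mul_cancel₀ _ (by linarith)
    nlinarith

variable {w : Valuation L ℝᵐ⁰} {θ : L} {Φ : Module.End Fq L} {r : ℕ} {ν s : ℝ}

lemma Loc.shrink_iter (h : Loc w θ Φ r ν s) (V : Submodule Fq L) [FiniteDimensional Fq V]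
    (hV : ∀ x ∈ V, Φ x ∈ V) {t : ℝ} (ht : s ≤ t) (j : ℕ) :
    finrank Fq (ball w V t) ≤ finrank Fq (ball w V (s + (t - s) / 2 ^ j)) + r * j := by
  induction j with
  | zero =>
    have : s + (t - s) / 2 ^ 0 = t := by ring
    rw [this]; omega
  | succ j ih =>
    have h1 := h.shrink V hV (s + (t - s) / 2 ^ j)
      (by have : 0 ≤ (t - s) / 2 ^ j := by apply div_nonneg <;> [linarith; positivity]
          linarith)
    have : s + (s + (t - s) / 2 ^ j - s) / 2 = s + (t - s) / 2 ^ (j + 1) := by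
      rw [pow_succ]; field_simp; ring
    rw [this] at h1
    rw [mul_add, mul_one]
    omega

lemma Loc.stable (h : Loc w θ Φ r 0 s) (hθ : w θ ≤ 1) {t : ℝ} (ht : t ≤ s) {x : L}
    (hx : w x ≤ exp t) : w (Φ x) ≤ exp t := by
  have h1 := h.small t ht x hx
  have : Φ x = (Φ x - θ * x) + θ * x := by ring
  rw [this]
  refine w.map_add_le (h1.trans (exp_le_exp.mpr (by linarith))) ?_
  rw [map_mul]
  exact (mul_le_of_le_one_left' hθ).trans hx

lemma Loc.pow (h : Loc w θ Φ r 0 s) (hθ : w θ ≤ 1) {t : ℝ} (ht : t ≤ s) {x : L}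
    (hx : w x ≤ exp t) (i : ℕ) :
    w ((Φ ^ i) x) ≤ exp t ∧ w ((Φ ^ i) x - θ ^ i * x) ≤ exp (2 * t - s) := by
  induction i with
  | zero => simpa using hx
  | succ i ih =>
    rw [pow_succ', Module.End.mul_apply]
    refine ⟨h.stable hθ ht ih.1, ?_⟩
    have h1 := h.small t ht _ ih.1
    have : Φ ((Φ ^ i) x) - θ ^ (i + 1) * x =
        (Φ ((Φ ^ i) x) - θ * (Φ ^ i) x) + θ * ((Φ ^ i) x - θ ^ i * x) := by ring
    rw [this]
    refine w.map_add_le (by simpa using h1) ?_
    rw [map_mul]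
    exact (mul_le_of_le_one_left' hθ).trans ih.2

lemma Loc.aeval_small (h : Loc w θ Φ r 0 s) (hθ : w θ ≤ 1) {t : ℝ} (ht : t ≤ s) {x : L}
    (hx : w x ≤ exp t) (a : Fq[X]) :
    w ((aeval Φ a : Module.End Fq L) x - aeval θ a * x) ≤ exp (2 * t - s) := by
  rw [aeval_eq_sum_range, aeval_eq_sum_range]
  simp only [LinearMap.coe_sum, Finset.sum_apply, LinearMap.smul_apply, Finset.sum_mul,
    ← Finset.sum_sub_distrib]
  refine w.map_sum_le fun i _ => ?_
  rw [smul_mul_assoc, ← smul_sub]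
  exact (val_smul_le w _ _).trans (h.pow hθ ht hx i).2

lemma Loc.lower_fin (h : Loc w θ Φ r 0 s) (hθ : w θ ≤ 1) {a : Fq[X]} {x : L} (hx : x ≠ 0)
    (ha : aeval θ a ≠ 0) (ha' : log (w (aeval θ a)) ≤ 0)
    (hax : (aeval Φ a : Module.End Fq L) x = 0) : s + log (w (aeval θ a)) ≤ log (w x) := by
  have hwx : w x ≠ 0 := w.ne_zero_iff.mpr hx
  have hwa : w (aeval θ a) ≠ 0 := w.ne_zero_iff.mpr ha
  by_cases hle : s ≤ log (w x)
  · linarith
  have h1 := h.aeval_small hθ (le_of_not_ge hle) (exp_log hwx).ge a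
  rw [hax, zero_sub, Valuation.map_neg, map_mul,
    ← log_le_iff_le_exp (mul_ne_zero hwa hwx), log_mul hwa hwx] at h1
  linarith

lemma Loc.lower_inf (h : Loc w θ Φ r ν s) (hθ : w θ = exp ν) (hν : 0 < ν)
    (V : Submodule Fq L) [FiniteDimensional Fq V] (hV : ∀ x ∈ V, Φ x ∈ V) {x : L} (hxV : x ∈ V)
    (hx : x ≠ 0) : s - finrank Fq V * ν ≤ log (w x) := by
  classical
  by_contra hlt
  push Not at hlt
  have hwx : w x ≠ 0 := w.ne_zero_iff.mpr hx
  have key : ∀ i ≤ finrank Fq V, (Φ ^ i) x ∈ V ∧ w ((Φ ^ i) x) = exp (log (w x) + i * ν) := by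
    intro i hi
    induction i with
    | zero => simpa [exp_log hwx] using hxV
    | succ i ih =>
      obtain ⟨h1, h2⟩ := ih (by omega)
      rw [pow_succ', Module.End.mul_apply]
      refine ⟨hV _ h1, ?_⟩
      have hi' : (i : ℝ) + 1 ≤ finrank Fq V := by exact_mod_cast hi
      have h3 : log (w x) + i * ν < s := by nlinarith
      have h4 := h.small _ h3.le _ h2.le
      have h5 : w (θ * (Φ ^ i) x) = exp (log (w x) + (i + 1 : ℕ) * ν) := by
        rw [map_mul, hθ, h2, ← exp_add]; congr 1; push_cast; ring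
      rw [← h5]
      apply w.map_eq_of_sub_lt
      rw [h5]
      refine h4.trans_lt (exp_lt_exp.mpr ?_)
      push_cast
      linarith
  have h1 := card_image_le_finrank w V
    ((Finset.range (finrank Fq V + 1)).image fun i => (Φ ^ i) x) (by
      intro y hy
      obtain ⟨i, hi, rfl⟩ := Finset.mem_image.mp hy
      obtain ⟨h1, h2⟩ := key i (by have := Finset.mem_range.mp hi; omega)
      refine ⟨h1, fun h0 => ?_⟩
      rw [h0, map_zero] at h2
      exact exp_ne_zero h2.symm)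
  rw [Finset.image_image, Finset.card_image_of_injOn, Finset.card_range] at h1
  · omega
  · intro i hi j hj hij
    have hi' := (key i (by have := Finset.mem_range.mp hi; omega)).2
    have hj' := (key j (by have := Finset.mem_range.mp hj; omega)).2
    simp only [Function.comp_apply] at hij
    rw [hi', hj', exp_inj] at hij
    have : (i : ℝ) = j := by
      have : ((i : ℝ) - j) * ν = 0 := by linarith
      rcases mul_eq_zero.mp this with h | h
      · linarith
      · linarith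
    exact_mod_cast this

lemma exists_top (w : Valuation L ℝᵐ⁰) (V : Submodule Fq L) [FiniteDimensional Fq V]
    (hV : 0 < finrank Fq V) :
    ∃ s0 : ℝ, (∀ x ∈ V, w x ≤ exp s0) ∧ ∃ x ∈ V, w x = exp s0 := by
  obtain ⟨sV, hsV⟩ := exists_finset V
  obtain ⟨x, hx, hmax⟩ := Finset.exists_max_image sV w ⟨0, (hsV 0).mpr V.zero_mem⟩
  have hne : V ≠ ⊥ := by
    rintro rfl
    simp at hV
  obtain ⟨y, hy, hy0⟩ := Submodule.exists_mem_ne_zero_of_ne_bot hne
  have hwx : w x ≠ 0 := by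
    intro h
    have := hmax y ((hsV y).mpr hy)
    rw [h, le_zero_iff] at this
    exact hy0 (w.zero_iff.mp this)
  refine ⟨log (w x), fun z hz => ?_, x, (hsV x).mp hx, (exp_log hwx).symm⟩
  rw [exp_log hwx]
  exact hmax z ((hsV z).mpr hz)

lemma ball_eq_self {V : Submodule Fq L} {t : ℝ} (h : ∀ x ∈ V, w x ≤ exp t) : ball w V t = V :=
  le_antisymm (ball_le w V t) fun x hx => ⟨hx, h x hx⟩

/-- If the absolute value is constant on the nonzero elements then it is below the threshold. -/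
lemma Loc.const_le (h : Loc w θ Φ r ν s) (V : Submodule Fq L) [FiniteDimensional Fq V]
    (hV : ∀ x ∈ V, Φ x ∈ V) (hr : r < finrank Fq V) {y : ℝ}
    (hy : ∀ x ∈ V, x ≠ 0 → w x = exp y) : y ≤ s := by
  by_contra hlt
  push Not at hlt
  have h1 := h.shrink V hV y hlt.le
  have h2 : ball w V y = V := ball_eq_self fun x hx => by
    by_cases h0 : x = 0
    · simp [h0]
    · exact (hy x hx h0).le
  have h3 : ball w V (s + (y - s) / 2) = ⊥ := by
    rw [eq_bot_iff]
    intro x hx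
    by_contra h0
    have := hx.2
    rw [hy x hx.1 h0, exp_le_exp] at this
    linarith
  rw [h2, h3, finrank_bot] at h1
  omega

/-- Exponential growth of the spread of the absolute values. -/
lemma Loc.large (h : Loc w θ Φ r ν s) (V : Submodule Fq L) [FiniteDimensional Fq V]
    (hV : ∀ x ∈ V, Φ x ∈ V) (hlow : ∀ x ∈ V, x ≠ 0 → s ≤ log (w x)) {s0 : ℝ}
    (hs0 : ∀ x ∈ V, w x ≤ exp s0) (hss : s ≤ s0) {γ : ℝ}
    (hgap : ∀ x ∈ V, ∀ y ∈ V, x ≠ 0 → y ≠ 0 → log (w x) < log (w y) →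
      γ ≤ log (w y) - log (w x)) {j : ℕ}
    (h1 : finrank Fq (ball w V s) + r * j < finrank Fq V) (h2 : r * j + r < finrank Fq V) :
    2 ^ j * γ ≤ s0 - s := by
  have h3 := h.shrink_iter V hV hss j
  rw [ball_eq_self hs0] at h3
  set B := ball w V (s + (s0 - s) / 2 ^ j)
  obtain ⟨y, hy, x, hx, hxy⟩ := exists_top w B (by omega)
  have hx0 : x ≠ 0 := by
    rintro rfl
    rw [map_zero] at hxy
    exact exp_ne_zero hxy.symm
  have hyt : y ≤ s + (s0 - s) / 2 ^ j := by
    have := hx.2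
    rwa [hxy, exp_le_exp] at this
  have hBy : B ≤ ball w V y := fun z hz => ⟨hz.1, hy z hz⟩
  have hsy : s < y := by
    by_contra hle
    push Not at hle
    have : finrank Fq B ≤ finrank Fq (ball w V s) :=
      Submodule.finrank_mono (hBy.trans (ball_mono w V hle))
    omega
  have h4 := h.shrink V hV y hsy.le
  have h5 : finrank Fq B ≤ finrank Fq (ball w V y) := Submodule.finrank_mono hBy
  have hne : ball w V (s + (y - s) / 2) ≠ ⊥ := by
    intro h0
    rw [h0, finrank_bot] at h4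
    omega
  obtain ⟨z, hz, hz0⟩ := Submodule.exists_mem_ne_zero_of_ne_bot hne
  have hwz : w z ≠ 0 := w.ne_zero_iff.mpr hz0
  have h6 : log (w z) ≤ s + (y - s) / 2 := (log_le_iff_le_exp hwz).mpr hz.2
  have h7 := hgap z hz.1 x hx.1 hz0 hx0 (by rw [hxy, log_exp]; linarith)
  rw [hxy, log_exp] at h7
  have h8 := hlow z hz.1 hz0
  have h9 : γ ≤ (s0 - s) / 2 ^ j := by linarith
  rw [le_div_iff₀ (by positivity)] at h9
  linarith

omit [Fintype Fq] in
/-- At most half of the nonzero elements are below the top. -/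
lemma sum_top_sub_le (V : Submodule Fq L) {sV : Finset L} (hsV : ∀ x, x ∈ sV ↔ x ∈ V ∧ x ≠ 0)
    {s0 b : ℝ} (hs0 : ∀ x ∈ V, w x ≤ exp s0) {x0 : L} (hx0 : x0 ∈ V) (hx0' : w x0 = exp s0)
    (hb0 : 0 ≤ b) (hb : ∀ x ∈ sV, s0 - log (w x) ≤ b) :
    ∑ x ∈ sV, (s0 - log (w x)) ≤ sV.card / 2 * b := by
  classical
  set lo := sV.filter fun x => w x < exp s0
  set hi := sV.filter fun x => ¬ w x < exp s0
  have h1 : lo.card ≤ hi.card := by
    refine Finset.card_le_card_of_injOn (fun x => x + x0) ?_ ?_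
    · intro x hx
      have hx' := Finset.mem_filter.mp hx
      have : w (x + x0) = exp s0 := by rw [w.map_add_eq_of_lt_right (hx0' ▸ hx'.2), hx0']
      refine Finset.mem_filter.mpr ⟨(hsV _).mpr ⟨V.add_mem ((hsV _).mp hx'.1).1 hx0, ?_⟩, ?_⟩
      · intro h0
        simp only at h0
        rw [h0, map_zero] at this
        exact exp_ne_zero this.symm
      · simp [this]
    · intro x _ y _ hxy
      simpa using hxy
  have h2 : lo.card + hi.card = sV.card := Finset.card_filter_add_card_filter_not _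
  have h3 : ∑ x ∈ hi, (s0 - log (w x)) = 0 := by
    refine Finset.sum_eq_zero fun x hx => ?_
    have hx' := Finset.mem_filter.mp hx
    have : w x = exp s0 := le_antisymm (hs0 x ((hsV _).mp hx'.1).1) (not_lt.mp hx'.2)
    simp [this]
  have h4 : ∑ x ∈ lo, (s0 - log (w x)) ≤ lo.card * b := by
    have := Finset.sum_le_card_nsmul lo (fun x => s0 - log (w x)) b
      fun x hx => hb x (Finset.mem_filter.mp hx).1
    simpa using this
  rw [← Finset.sum_filter_add_sum_filter_not sV fun x => w x < exp s0, h3, add_zero]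
  have h5 : (lo.card : ℝ) ≤ sV.card / 2 := by
    have : (lo.card : ℝ) + hi.card = sV.card := by exact_mod_cast h2
    have : (lo.card : ℝ) ≤ hi.card := by exact_mod_cast h1
    linarith
  exact h4.trans (mul_le_mul_of_nonneg_right h5 hb0)

/-- The local data used in the determinant inequality. -/
lemma Loc.package (h : Loc w θ Φ r ν s) (V : Submodule Fq L) [FiniteDimensional Fq V]
    (hV : ∀ x ∈ V, Φ x ∈ V) {sV : Finset L} (hsV : ∀ x, x ∈ sV ↔ x ∈ V ∧ x ≠ 0)
    {s0 : ℝ} (hs0 : ∀ x ∈ V, w x ≤ exp s0) (hx0 : ∃ x ∈ V, w x = exp s0)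
    {err : ℝ} (herr : 0 ≤ err) (hlow : ∀ x ∈ V, x ≠ 0 → s - err ≤ log (w x)) :
    (finrank Fq V ≤ finrank Fq (ball w V (s0 - 3 / 4 * max (s0 - s) 0)) +
        (if 0 < max (s0 - s) 0 then 2 * r else 0)) ∧
      sV.card * (max (s0 - s) 0 / 4 - err) ≤
        ∑ x ∈ sV, (log (w x) - (s0 - 3 / 4 * max (s0 - s) 0)) := by
  constructor
  · split_ifs with hA
    · have hss : 0 < s0 - s := by simpa using hA
      have h1 := h.shrink_iter V hV (t := s0) (by linarith) 2
      rw [ball_eq_self hs0] at h1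
      have : s0 - 3 / 4 * max (s0 - s) 0 = s + (s0 - s) / 2 ^ 2 := by
        rw [max_eq_left hss.le]; ring
      rw [this]; omega
    · have : max (s0 - s) 0 = 0 := le_antisymm (not_lt.mp hA) (le_max_right _ _)
      rw [this, mul_zero, sub_zero, ball_eq_self hs0]
      omega
  · obtain ⟨x0, hx0, hx0'⟩ := hx0
    set A := max (s0 - s) 0
    have hA : 0 ≤ A := le_max_right _ _
    have hA' : s0 - s ≤ A := le_max_left _ _
    have h1 := sum_top_sub_le V hsV hs0 hx0 hx0' (b := A + err) (by linarith) (fun x hx => by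
      have := hlow x ((hsV x).mp hx).1 ((hsV x).mp hx).2
      linarith)
    have h2 : ∑ x ∈ sV, (log (w x) - (s0 - 3 / 4 * A)) =
        sV.card * (3 / 4 * A) - ∑ x ∈ sV, (s0 - log (w x)) := by
      rw [← nsmul_eq_mul, ← Finset.sum_const, ← Finset.sum_sub_distrib]
      exact Finset.sum_congr rfl fun x _ => by ring
    rw [h2]
    have : (0 : ℝ) ≤ sV.card := Nat.cast_nonneg _
    nlinarith

end Pool.Agent.P.MP_43acf5_nt
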