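import Pool.Agent.P.MP_43acf5_nt.Isog

/-! A finite submodule of a Drinfeld module spans a large space over small subfields. -/

namespace Pool.Agent.P.MP_43acf5_nt

open Polynomial Module

variable {Fq : Type*} [Field Fq] [Fintype Fq]

lemma exists_fixed_of_frob_stable {E : Type*} [Field E] [Algebra Fq E] {ι : Type*} [Fintype ι]
    (R : Submodule E (ι → E)) (hR : R ≠ ⊥) (hst : ∀ c ∈ R, (fun j => fr Fq E 1 (c j)) ∈ R) :
    ∃ c ∈ R, c ≠ 0 ∧ ∀ j, fr Fq E 1 (c j) = c j := by
  classical
  have hex : ∃ n, ∃ c ∈ R, c ≠ 0 ∧ (Finset.univ.filter fun j => c j ≠ 0).card = n := by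
    obtain ⟨c, hc, hc0⟩ := Submodule.exists_mem_ne_zero_of_ne_bot hR
    exact ⟨_, c, hc, hc0, rfl⟩
  obtain ⟨c, hc, hc0, hn⟩ := Nat.find_spec hex
  obtain ⟨j0, hj0⟩ : ∃ j, c j ≠ 0 := Function.ne_iff.mp hc0
  set c' : ι → E := (c j0)⁻¹ • c with hc'
  have hc'R : c' ∈ R := R.smul_mem _ hc
  have hc'1 : c' j0 = 1 := by simp [hc', hj0]
  refine ⟨c', hc'R, fun h => by simp [h] at hc'1, ?_⟩
  by_contra hne
  have hd : (fun j => fr Fq E 1 (c' j)) - c' ≠ 0 := by
    intro h
    apply hne
    intro j
    exact sub_eq_zero.mp (congrFun h j)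
  have h1 := Nat.find_min' hex ⟨_, R.sub_mem (hst c' hc'R) hc'R, hd, rfl⟩
  rw [← hn] at h1
  refine absurd h1 (not_le.mpr (Finset.card_lt_card ⟨?_, ?_⟩))
  · intro j hj
    simp only [Finset.mem_filter, Finset.mem_univ, true_and, Pi.sub_apply] at hj ⊢
    intro h0
    apply hj
    simp [hc', h0]
  · intro h
    have := h (Finset.mem_filter.mpr ⟨Finset.mem_univ j0, hj0⟩)
    simp [hc'1] at this

variable {L : Type*} [Field L] [Algebra Fq L]

lemma fr_algebraMap {E : Type*} [Field E] [Algebra Fq E] [Algebra E L] (k : ℕ) (e : E) :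
    fr Fq L k (algebraMap E L e) = algebraMap E L (fr Fq E k e) := by
  simp [fr_apply]

lemma finrank_le_of_span (E : Type*) [Field E] [Algebra Fq E] [Algebra E L]
    [IsScalarTower Fq E L] {θ : L} {r : ℕ} {Φ : Module.End Fq L} (hΦ : IsLin Fq θ r Φ)
    (V : Submodule Fq L) [FiniteDimensional Fq V] (hV : ∀ x ∈ V, Φ x ∈ V) (y : ℕ)
    (hy : finrank E (Submodule.span E (V : Set L)) ≤ y)
    (hθ : LinearIndependent E (fun i : Fin (y + 1) => θ ^ (i : ℕ))) :
    finrank Fq V ≤ y * (r * y) := by
  classical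
  by_contra hlt
  push Not at hlt
  set Y := Submodule.span E (V : Set L)
  have hVfin : Finite V := Module.finite_of_finite Fq
  have : FiniteDimensional E Y := FiniteDimensional.span_of_finite E (Set.toFinite _)
  set bV := Module.finBasis Fq V
  set bY := Module.finBasis E Y
  set n := finrank Fq V
  set y0 := finrank E Y
  have hVY : ∀ x ∈ V, x ∈ Y := fun x hx => Submodule.subset_span hx
  set xx : Fin n → Y := fun j => ⟨bV j, hVY _ (bV j).2⟩ with hxx
  set lam : Fin n → Fin y0 → E := fun j l => bY.repr (xx j) l with hlam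
  have hx : ∀ j, (xx j : L) = ∑ l, algebraMap E L (lam j l) * (bY l : L) := by
    intro j
    have := congrArg Y.subtype (bY.sum_repr (xx j))
    rw [map_sum] at this
    rw [show (xx j : L) = Y.subtype (xx j) from rfl, ← this]
    refine Finset.sum_congr rfl fun l _ => ?_
    rw [map_smul, Algebra.smul_def]
    rfl
  set T : (Fin n → E) →ₗ[E] (Fin y0 × Fin (r * y) → E) :=
    LinearMap.pi fun p => Fintype.linearCombination E (fun j => fr Fq E p.2 (lam j p.1)) with hT
  have hker : LinearMap.ker T ≠ ⊥ := by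
    apply LinearMap.ker_ne_bot_of_finrank_lt
    simp only [finrank_fintype_fun_eq_card, Fintype.card_prod, Fintype.card_fin]
    exact (Nat.mul_le_mul_right _ hy).trans_lt hlt
  have hmem : ∀ c, c ∈ LinearMap.ker T ↔
      ∀ l : Fin y0, ∀ k < r * y, ∑ j, c j * fr Fq E k (lam j l) = 0 := by
    intro c
    simp only [LinearMap.mem_ker, hT, funext_iff, LinearMap.pi_apply,
      Fintype.linearCombination_apply, smul_eq_mul, Pi.zero_apply, Prod.forall]
    exact ⟨fun h l k hk => h l ⟨k, hk⟩, fun h l k => h l k k.2⟩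
  have step1 : ∀ c ∈ LinearMap.ker T, ∀ l : Fin y0, ∀ k, 1 ≤ k → k ≤ r * y →
      ∑ j, fr Fq E 1 (c j) * fr Fq E k (lam j l) = 0 := by
    intro c hc l k hk1 hk2
    have := congrArg (fr Fq E 1) ((hmem c).mp hc l (k - 1) (by omega))
    rw [map_sum, map_zero] at this
    rw [← this]
    refine Finset.sum_congr rfl fun j _ => ?_
    rw [map_mul, fr_fr, show 1 + (k - 1) = k by omega]
  have step2 : ∀ c ∈ LinearMap.ker T, ∀ k, 1 ≤ k → k ≤ r * y →
      ∑ j, algebraMap E L (fr Fq E 1 (c j)) * fr Fq L k (xx j) = 0 := by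
    intro c hc k hk1 hk2
    simp only [hx, map_sum, map_mul, Finset.mul_sum, fr_algebraMap]
    rw [Finset.sum_comm]
    refine Finset.sum_eq_zero fun l _ => ?_
    have := congrArg (fun e => algebraMap E L e * fr Fq L k (bY l)) (step1 c hc l k hk1 hk2)
    simp only [map_sum, map_mul, map_zero, zero_mul, Finset.sum_mul] at this
    rw [← this]
    exact Finset.sum_congr rfl fun j _ => by ring
  have step3 : ∀ c ∈ LinearMap.ker T, ∑ j, fr Fq E 1 (c j) • xx j = 0 := by
    intro c hc
    set η : Y := ∑ j, fr Fq E 1 (c j) • xx j with hη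
    have hη' : (η : L) = ∑ j, algebraMap E L (fr Fq E 1 (c j)) * xx j := by
      simp [hη, Algebra.smul_def]
    have hin : ∀ i ≤ y, θ ^ i * (η : L) ∈ Y := by
      intro i hi
      obtain ⟨e, he⟩ := mem_AP_iff.mp (isLin_pow hΦ i)
      have h1 : θ ^ i * (η : L) = ∑ j, fr Fq E 1 (c j) • (Φ ^ i) (xx j) := by
        have h2 : ∑ j, algebraMap E L (fr Fq E 1 (c j)) * ((Φ ^ i) (xx j) - θ ^ i * xx j) = 0 := by
          simp only [he, Finset.mul_sum]
          rw [Finset.sum_comm]
          refine Finset.sum_eq_zero fun k hk => ?_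
          have hk' := Finset.mem_Ico.mp hk
          have h3 := step2 c hc k hk'.1 (by
            have : r * i ≤ r * y := Nat.mul_le_mul_left _ hi
            omega)
          have := congrArg (fun z => e k * z) h3
          simp only [Finset.mul_sum, mul_zero] at this
          rw [← this]
          exact Finset.sum_congr rfl fun j _ => by ring
        rw [hη', Finset.mul_sum, ← sub_eq_zero, ← Finset.sum_sub_distrib, ← neg_eq_zero, ← h2,
          ← Finset.sum_neg_distrib]
        refine Finset.sum_congr rfl fun j _ => ?_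
        rw [Algebra.smul_def]; ring
      rw [h1]
      refine Y.sum_mem fun j _ => Y.smul_mem _ (hVY _ ?_)
      exact Module.End.pow_apply_mem_of_forall_mem i hV _ (bV j).2
    by_contra hne
    have hne' : (η : L) ≠ 0 := fun h => hne (Subtype.ext h)
    have hli := hθ.map' (LinearMap.mulRight E (η : L)) (by
      rw [LinearMap.ker_eq_bot]
      exact mul_left_injective₀ hne')
    have hli2 : LinearIndependent E
        (fun i : Fin (y + 1) => (⟨θ ^ (i : ℕ) * η, hin i (by have := i.2; omega)⟩ : Y)) :=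
      LinearIndependent.of_comp Y.subtype hli
    have := hli2.fintype_card_le_finrank
    simp only [Fintype.card_fin] at this
    omega
  obtain ⟨c, hc, hc0, hfix⟩ := exists_fixed_of_frob_stable (Fq := Fq) (LinearMap.ker T) hker (by
    intro c hc
    rw [hmem]
    intro l k hk
    rcases Nat.eq_zero_or_pos k with rfl | hk0
    · have := congrArg (fun z => bY.repr z l) (step3 c hc)
      simpa [hlam] using this
    · exact step1 c hc l k hk0 hk.le)
  choose a ha using fun j => mem_range_of_fr_one (hfix j)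
  have h3 := step3 c hc
  have h4 : ∑ j, a j • bV j = 0 := by
    apply Subtype.ext
    have := congrArg Y.subtype h3
    simp only [← ha, map_sum, map_smul, Submodule.subtype_apply, map_zero] at this
    simpa [hxx] using this
  have h5 := Fintype.linearIndependent_iff.mp bV.linearIndependent a h4
  apply hc0
  funext j
  rw [← ha, h5 j]; simp

end Pool.Agent.P.MP_43acf5_nt
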