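import Pool.Agent.P.MP_43acf5_nt.Global
import Pool.Agent.P.MP_43acf5_nt.Local
import Pool.Agent.P.MP_43acf5_nt.Span

/-! The height inequality for a finite primary submodule of a Drinfeld module. -/

namespace Pool.Agent.P.MP_43acf5_nt

open Module WithZero Polynomial

variable {Fq : Type*} [Field Fq] [Fintype Fq] {L : Type*} [Field L] [Algebra (RatFunc Fq) L]
  [Algebra Fq L] [IsScalarTower Fq (RatFunc Fq) L]

variable (Fq L) in
/-- The `q ^ d`-th power of the variable. -/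
noncomputable def th (d : ℕ) : L := fr Fq L d (algebraMap (RatFunc Fq) L RatFunc.X)

/-- The logarithmic size of the linear coefficient when it is large. -/
def nu (N : ℝ) : Pl Fq → ℝ
  | none => N
  | some _ => 0

lemma aeval_th (d : ℕ) (a : Fq[X]) : aeval (th Fq L d) a =
    algebraMap (RatFunc Fq) L (algebraMap Fq[X] (RatFunc Fq) (a ^ (Fintype.card Fq) ^ d)) := by
  rw [th, aeval_algHom_apply, aeval_algebraMap_apply, RatFunc.aeval_X_left_eq_algebraMap, fr_apply,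
    map_pow, map_pow]

lemma aeval_th_ne_zero (d : ℕ) {a : Fq[X]} (ha : a ≠ 0) : aeval (th Fq L d) a ≠ 0 := by
  rw [aeval_th]
  simpa using fun h => absurd h ha

lemma th_eq (d : ℕ) : th Fq L d =
    algebraMap (RatFunc Fq) L (algebraMap Fq[X] (RatFunc Fq) (X ^ (Fintype.card Fq) ^ d)) := by
  rw [← aeval_th, aeval_X]

variable {wv : Pl Fq → Valuation L ℝᵐ⁰}

lemma Ext.th_some (h : Ext wv) (d : ℕ) (P : MI Fq) (σ : L ≃ₐ[RatFunc Fq] L) :
    WW wv (some P) σ (th Fq L d) ≤ 1 := by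
  rw [th_eq, WW_algebraMap, h.le_one_iff]
  exact pval_some_le_one P _

lemma Ext.th_none (h : Ext wv) (d : ℕ) (σ : L ≃ₐ[RatFunc Fq] L) :
    WW wv none σ (th Fq L d) = exp (((Fintype.card Fq) ^ d : ℕ) : ℝ) := by
  rw [th_eq, WW_algebraMap, h.base _ _ (RatFunc.algebraMap_ne_zero (pow_ne_zero _ X_ne_zero)),
    pval_none (pow_ne_zero _ X_ne_zero)]
  simp [pdeg]

lemma Ext.log_aeval_th (h : Ext wv) (d : ℕ) (P P' : MI Fq) (k : ℕ) (σ : L ≃ₐ[RatFunc Fq] L)
    [Decidable (P' = P)] :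
    log (WW wv (some P') σ (aeval (th Fq L d) (P.1 ^ k))) =
      if P' = P then -(((Fintype.card Fq) ^ d : ℕ) * (k * P.1.natDegree : ℕ) : ℝ) else 0 := by
  rw [aeval_th, WW_algebraMap, h.base _ _ (RatFunc.algebraMap_ne_zero
    (pow_ne_zero _ (pow_ne_zero _ P.2.2.ne_zero))), log_exp, map_pow, map_pow, map_pow, map_pow,
    log_pow, log_pow]
  split_ifs with hP
  · subst hP
    have : pval (some P') (algebraMap Fq[X] (RatFunc Fq) P'.1) = exp (-1) := pval_punif (some P')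
    rw [this]
    simp [pdeg]; ring
  · rw [(pval_some_eq_one_iff P' P.1).mpr fun hd => hP (MI.eq_of_dvd hd)]
    simp

/-- The local data of a finite submodule at all places. -/
structure Dat (wv : Pl Fq → Valuation L ℝᵐ⁰) (d r : ℕ) (Φ : Module.End Fq L) (V : Submodule Fq L)
    (sst s0 : Pl Fq → (L ≃ₐ[RatFunc Fq] L) → ℝ) : Prop where
  loc : ∀ v σ, Loc (WW wv v σ) (th Fq L d) Φ r (nu (((Fintype.card Fq) ^ d : ℕ) : ℝ) v) (sst v σ)
  top_le : ∀ v σ, ∀ x ∈ V, WW wv v σ x ≤ exp (s0 v σ)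
  top_ex : ∀ v σ, ∃ x ∈ V, WW wv v σ x = exp (s0 v σ)

omit [Fintype Fq] [Algebra (RatFunc Fq) L] [IsScalarTower Fq (RatFunc Fq) L] in
lemma aeval_apply_of_eq_mul {θ : L} {Φ : Module.End Fq L} (h : ∀ x, Φ x = θ * x) (a : Fq[X])
    (x : L) : (aeval Φ a : Module.End Fq L) x = aeval θ a * x := by
  have : Φ = Algebra.lmul Fq L θ := by ext x; simp [h]
  rw [this, aeval_algHom_apply]
  simp

lemma exists_dat (wv : Pl Fq → Valuation L ℝᵐ⁰) {d r : ℕ} {Φ : Module.End Fq L}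
    (hΦ : IsLin Fq (th Fq L d) r Φ) (V : Submodule Fq L) [FiniteDimensional Fq V]
    (hV : 0 < finrank Fq V) {a : Fq[X]} (ha : a ≠ 0)
    (hk : ∀ x ∈ V, (aeval Φ a : Module.End Fq L) x = 0) : ∃ sst s0, Dat wv d r Φ V sst s0 := by
  have hne : ∃ x, Φ x ≠ th Fq L d * x := by
    by_contra hc
    push Not at hc
    have hb : V ≠ ⊥ := by
      rintro rfl
      simp at hV
    obtain ⟨x, hx, hx0⟩ := Submodule.exists_mem_ne_zero_of_ne_bot hb
    have := hk x hx
    rw [aeval_apply_of_eq_mul hc] at this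
    exact mul_ne_zero (aeval_th_ne_zero d ha) hx0 this
  choose sst h1 using fun (v : Pl Fq) (σ : L ≃ₐ[RatFunc Fq] L) =>
    exists_loc (WW wv v σ) hΦ hne (ν := nu (((Fintype.card Fq) ^ d : ℕ) : ℝ) v)
      (by cases v <;> simp [nu])
  choose s0 h2 h3 using fun (v : Pl Fq) (σ : L ≃ₐ[RatFunc Fq] L) => exists_top (WW wv v σ) V hV
  exact ⟨sst, s0, h1, h2, h3⟩

variable {d r : ℕ} {Φ : Module.End Fq L} {V : Submodule Fq L}
  {sst s0 : Pl Fq → (L ≃ₐ[RatFunc Fq] L) → ℝ}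

lemma Dat.lower_some (h : Ext wv) (hd : Dat wv d r Φ V sst s0) {P : MI Fq} {k : ℕ}
    (hk : ∀ x ∈ V, (aeval Φ (P.1 ^ k) : Module.End Fq L) x = 0) {P' : MI Fq} (hP : P' ≠ P)
    (σ : L ≃ₐ[RatFunc Fq] L) {x : L} (hx : x ∈ V) (hx0 : x ≠ 0) :
    sst (some P') σ ≤ log (WW wv (some P') σ x) := by
  classical
  have h1 := h.log_aeval_th d P P' k σ
  rw [if_neg hP] at h1
  have := (hd.loc (some P') σ).lower_fin (h.th_some d P' σ) hx0
    (aeval_th_ne_zero d (pow_ne_zero k P.2.2.ne_zero)) h1.le (hk x hx)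
  rwa [h1, add_zero] at this

lemma Dat.lower [FiniteDimensional Fq V] (h : Ext wv) (hd : Dat wv d r Φ V sst s0)
    (hV : ∀ x ∈ V, Φ x ∈ V) {P : MI Fq} {k n : ℕ}
    (hk : ∀ x ∈ V, (aeval Φ (P.1 ^ k) : Module.End Fq L) x = 0) (hn1 : finrank Fq V ≤ n)
    (hn2 : k * P.1.natDegree ≤ n) (v : Pl Fq) [Decidable (v = none ∨ v = some P)]
    (σ : L ≃ₐ[RatFunc Fq] L) {x : L} (hx : x ∈ V) (hx0 : x ≠ 0) :
    sst v σ - (if v = none ∨ v = some P then (((Fintype.card Fq) ^ d : ℕ) : ℝ) * n else 0) ≤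
      log (WW wv v σ x) := by
  classical
  have hN : (0 : ℝ) < ((Fintype.card Fq) ^ d : ℕ) := by
    have := two_le_q Fq
    exact_mod_cast pow_pos (by omega) d
  cases v with
  | none =>
    have := (hd.loc none σ).lower_inf (h.th_none d σ) hN V hV hx hx0
    have h2 : (finrank Fq V : ℝ) ≤ n := by exact_mod_cast hn1
    rw [if_pos (Or.inl rfl)]
    simp only [nu] at this
    nlinarith
  | some P' =>
    by_cases hP : P' = P
    · have h1 := h.log_aeval_th d P P' k σ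
      rw [if_pos hP] at h1
      have := (hd.loc (some P') σ).lower_fin (h.th_some d P' σ) hx0
        (aeval_th_ne_zero d (pow_ne_zero k P.2.2.ne_zero))
        (by rw [h1, neg_nonpos]; positivity) (hk x hx)
      have h2 : ((k * P.1.natDegree : ℕ) : ℝ) ≤ n := by exact_mod_cast hn2
      rw [if_pos (Or.inr (by rw [hP]))]
      rw [h1] at this
      nlinarith
    · rw [if_neg (by simpa using hP), sub_zero]
      exact hd.lower_some h hk hP σ hx hx0

lemma le_finrank_span (hΦ : IsLin Fq (th Fq L d) r Φ) [FiniteDimensional Fq V]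
    (hV : ∀ x ∈ V, Φ x ∈ V) {m s : ℕ} (hms : (Fintype.card Fq) ^ d * m < (Fintype.card Fq) ^ s)
    (hm : m * (r * m) < finrank Fq V) :
    m ≤ finrank (EE Fq s) (Submodule.span (EE Fq s) (V : Set L)) := by
  by_contra hlt
  refine absurd (finrank_le_of_span (EE Fq s) hΦ V hV m (not_le.mp hlt).le ?_) (not_le.mpr hm)
  have hN : 0 < (Fintype.card Fq) ^ d := pow_pos (by have := two_le_q Fq; omega) d
  have h1 := (linearIndependent_X_pow (Fq := Fq) s).comp
    (fun i : Fin (m + 1) => (⟨(Fintype.card Fq) ^ d * i,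
      (Nat.mul_le_mul_left _ (Nat.lt_succ_iff.mp i.2)).trans_lt hms⟩ : Fin ((Fintype.card Fq) ^ s)))
    (fun i j hij => Fin.ext (Nat.eq_of_mul_eq_mul_left hN (congrArg Fin.val hij)))
  have h2 := h1.map' (IsScalarTower.toAlgHom (EE Fq s) (RatFunc Fq) L).toLinearMap
    (LinearMap.ker_eq_bot.mpr (algebraMap (RatFunc Fq) L).injective)
  have : (fun i : Fin (m + 1) => th Fq L d ^ (i : ℕ)) = fun i : Fin (m + 1) =>
      algebraMap (RatFunc Fq) L (RatFunc.X ^ ((Fintype.card Fq) ^ d * i)) := by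
    funext i
    rw [th, fr_apply, map_pow, pow_mul]
  rw [this]
  exact h2

variable [FiniteDimensional (RatFunc Fq) L] [IsGalois (RatFunc Fq) L]

open Classical in
/-- The height inequality. -/
lemma Dat.ineq [FiniteDimensional Fq V] (h : Ext wv) (hd : Dat wv d r Φ V sst s0)
    (hΦ : IsLin Fq (th Fq L d) r Φ) (hr : 0 < r) (hV : ∀ x ∈ V, Φ x ∈ V) {P : MI Fq} {k n : ℕ}
    (hk : ∀ x ∈ V, (aeval Φ (P.1 ^ k) : Module.End Fq L) x = 0) (hn1 : finrank Fq V ≤ n)
    (hn2 : k * P.1.natDegree ≤ n) {m s : ℕ} (hm0 : m = 16 * r * finrank (RatFunc Fq) L ^ 2)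
    (hms : (Fintype.card Fq) ^ d * m < (Fintype.card Fq) ^ s) (hm : m * (r * m) < finrank Fq V) :
    ∃ S0 : Finset (Pl Fq), ∀ S, S0 ⊆ S →
      ∑ v ∈ S, ∑ σ, max (s0 v σ - sst v σ) 0 ≤
        16 * finrank (RatFunc Fq) L * (((Fintype.card Fq) ^ d : ℕ) * n) +
          ((Fintype.card Fq) ^ s : ℕ) *
            ∑ v ∈ S.filter (fun v => ∃ σ, 0 < max (s0 v σ - sst v σ) 0), (pdeg v : ℝ) := by
  obtain ⟨M, hM, S1, hS1⟩ := h.core s V (le_finrank_span hΦ hV hms hm)
  obtain ⟨sV', hsV'⟩ := exists_finset V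
  set sV := sV'.erase 0
  have hsV : ∀ x, x ∈ sV ↔ x ∈ V ∧ x ≠ 0 := by
    intro x; simp [sV, hsV', and_comm]
  choose! Sx hSx using fun (x : L) (hx : x ≠ 0) => h.product hx
  refine ⟨S1 ∪ sV.biUnion Sx, fun S hS => ?_⟩
  set D := finrank (RatFunc Fq) L with hD
  set N : ℝ := (((Fintype.card Fq) ^ d : ℕ) : ℝ) with hN
  set Q : ℝ := (((Fintype.card Fq) ^ s : ℕ) : ℝ) with hQ
  set A : Pl Fq → (L ≃ₐ[RatFunc Fq] L) → ℝ := fun v σ => max (s0 v σ - sst v σ) 0 with hA
  set err : Pl Fq → ℝ := fun v => if v = none ∨ v = some P then N * n else 0 with herr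
  have hA0 : ∀ v σ, 0 ≤ A v σ := fun v σ => le_max_right _ _
  have herr0 : ∀ v, 0 ≤ err v := fun v => by
    simp only [herr]; split_ifs <;> positivity
  have hpack := fun v σ => (hd.loc v σ).package V hV hsV (hd.top_le v σ) (hd.top_ex v σ)
    (herr0 v) (fun x hx hx0 => hd.lower h hV hk hn1 hn2 v σ hx hx0)
  have h1 := hS1 S (Finset.subset_union_left.trans hS) (fun v σ => s0 v σ - 3 / 4 * A v σ) A
    (fun v σ => if 0 < A v σ then 2 * r else 0) hA0 (fun v σ x hx =>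
      (hd.top_le v σ x hx).trans (exp_le_exp.mpr (by linarith [hA0 v σ])))
    (fun v σ => (hpack v σ).1)
  have hcardG : (Fintype.card (L ≃ₐ[RatFunc Fq] L) : ℝ) = D := by
    rw [← Nat.card_eq_fintype_card, IsGalois.card_aut_eq_finrank]
  have hD0 : (1 : ℝ) ≤ D := by exact_mod_cast Module.finrank_pos
  have hc : (0 : ℝ) < sV.card := by
    obtain ⟨x, hx, hx'⟩ := hd.top_ex none 1
    have : x ≠ 0 := by
      rintro rfl
      rw [map_zero] at hx'
      exact exp_ne_zero hx'.symm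
    exact_mod_cast Finset.card_pos.mpr ⟨x, (hsV x).mpr ⟨hx, this⟩⟩
  set T := ∑ v ∈ S, ∑ σ, (s0 v σ - 3 / 4 * A v σ) with hT
  set SA := ∑ v ∈ S, ∑ σ, A v σ with hSA
  set dS := ∑ v ∈ S.filter (fun v => ∃ σ, 0 < A v σ), (pdeg v : ℝ) with hdS
  have hE : ∑ v ∈ S, err v ≤ 2 * (N * n) := by
    simp only [herr]
    rw [← Finset.sum_filter, Finset.sum_const, nsmul_eq_mul]
    have : (S.filter fun v => v = none ∨ v = some P).card ≤ 2 := by
      refine (Finset.card_le_card (t := {none, some P}) ?_).trans Finset.card_le_two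
      intro v hv
      simpa using (Finset.mem_filter.mp hv).2
    have : ((S.filter fun v => v = none ∨ v = some P).card : ℝ) ≤ 2 := by exact_mod_cast this
    gcongr
  have h2 : T ≤ -(SA / 4) + D * (2 * (N * n)) := by
    have h3 : ∑ v ∈ S, ∑ σ, (sV.card * (A v σ / 4 - err v)) ≤
        ∑ v ∈ S, ∑ σ, ∑ x ∈ sV, (log (WW wv v σ x) - (s0 v σ - 3 / 4 * A v σ)) :=
      Finset.sum_le_sum fun v _ => Finset.sum_le_sum fun σ _ => (hpack v σ).2
    have h4 : ∑ v ∈ S, ∑ σ, ∑ x ∈ sV, log (WW wv v σ x) = 0 := by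
      rw [Finset.sum_congr rfl fun v _ => Finset.sum_comm, Finset.sum_comm]
      refine Finset.sum_eq_zero fun x hx => hSx x ((hsV x).mp hx).2 S ?_
      exact (Finset.subset_biUnion_of_mem Sx hx).trans (Finset.subset_union_right.trans hS)
    have h5 : ∑ v ∈ S, ∑ σ, ∑ x ∈ sV, (log (WW wv v σ x) - (s0 v σ - 3 / 4 * A v σ)) =
        -(sV.card * T) := by
      simp only [Finset.sum_sub_distrib (f := fun x => log (WW wv _ _ x)), Finset.sum_const,
        nsmul_eq_mul]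
      simp only [Finset.sum_sub_distrib (f := fun σ => ∑ x ∈ sV, log (WW wv _ σ x))]
      rw [Finset.sum_sub_distrib, h4, hT, Finset.mul_sum, zero_sub]
      simp only [Finset.mul_sum]
    have h6 : ∑ v ∈ S, ∑ σ, (sV.card * (A v σ / 4 - err v)) =
        sV.card * (SA / 4 - D * ∑ v ∈ S, err v) := by
      rw [hSA, Finset.sum_div, Finset.mul_sum, ← Finset.sum_sub_distrib, Finset.mul_sum]
      refine Finset.sum_congr rfl fun v _ => ?_
      rw [← Finset.mul_sum, Finset.sum_sub_distrib, Finset.sum_const, Finset.card_univ,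
        nsmul_eq_mul, hcardG, Finset.sum_div]
    rw [h5, h6, ← mul_neg, mul_le_mul_iff_right₀ hc] at h3
    have : (D : ℝ) * ∑ v ∈ S, err v ≤ D * (2 * (N * n)) := by gcongr
    linarith
  have h7 : ∑ v ∈ S, ((∑ σ, (if 0 < A v σ then 2 * r else 0) : ℕ) : ℝ) *
      (∑ σ, A v σ + Q * pdeg v) ≤ 2 * r * D * (SA + Q * dS) := by
    rw [hSA, hdS, Finset.sum_filter, Finset.mul_sum, ← Finset.sum_add_distrib, Finset.mul_sum]
    refine Finset.sum_le_sum fun v _ => ?_
    have hAv : 0 ≤ ∑ σ, A v σ := Finset.sum_nonneg fun σ _ => hA0 v σ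
    split_ifs with hv
    · have : ((∑ σ, (if 0 < A v σ then 2 * r else 0) : ℕ) : ℝ) ≤ 2 * r * D := by
        rw [← hcardG]
        have := Finset.sum_le_card_nsmul Finset.univ (fun σ => if 0 < A v σ then 2 * r else 0)
          (2 * r) (fun σ _ => by split_ifs <;> omega)
        rw [smul_eq_mul, Finset.card_univ, mul_comm (Fintype.card _)] at this
        exact_mod_cast this
      gcongr
    · push Not at hv
      rw [Finset.sum_eq_zero fun σ _ => if_neg (not_lt.mpr (hv σ))]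
      simp only [Nat.cast_zero, zero_mul, mul_zero, add_zero]
      positivity
  have hM' : 16 * r * (D : ℝ) ^ 2 ≤ M := by exact_mod_cast hm0 ▸ hM
  have hr' : (1 : ℝ) ≤ r := by exact_mod_cast hr
  have hM0 : (0 : ℝ) < M := lt_of_lt_of_le (by positivity) hM'
  have hSA0 : 0 ≤ SA := Finset.sum_nonneg fun v _ => Finset.sum_nonneg fun σ _ => hA0 v σ
  have hdS0 : 0 ≤ dS := Finset.sum_nonneg fun v _ => Nat.cast_nonneg _
  have hQ0 : 0 ≤ Q := Nat.cast_nonneg _
  have h8 : (D : ℝ) * (2 * r * D * (SA + Q * dS)) ≤ M * ((SA + Q * dS) / 8) := by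
    have : 0 ≤ SA + Q * dS := by positivity
    nlinarith
  have h9 : 0 ≤ M * (-(SA / 4) + D * (2 * (N * n)) + (SA + Q * dS) / 8) := by
    have := mul_le_mul_of_nonneg_left h2 hM0.le
    have := mul_le_mul_of_nonneg_left h7 (show (0 : ℝ) ≤ D by linarith)
    linarith
  have := (mul_nonneg_iff_of_pos_left hM0).mp h9
  linarith

end Pool.Agent.P.MP_43acf5_nt
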