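import Pool.Agent.P.MP_43acf5_nt.Isog

/-! Valued fields: balls in a finite additive group, and an interpolation bound. -/

namespace Pool.Agent.P.MP_43acf5_nt

open Polynomial Module WithZero

section Gauss

variable {L : Type*} [Field L] {Γ : Type*} [LinearOrderedCommGroupWithZero Γ]
  (w : Valuation L Γ) (σ : Γ)

/-- The Gauss norm of `p` at radius `σ` is at most `c`. -/
def GB (c : Γ) (p : L[X]) : Prop := ∀ j, w (p.coeff j) * σ ^ j ≤ c

variable {w σ}

lemma GB.mono {c c' : Γ} {p : L[X]} (h : GB w σ c p) (hc : c ≤ c') : GB w σ c' p :=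
  fun j => (h j).trans hc

lemma GB.sum {ι : Type*} (hσ : σ ≠ 0) {c : Γ} (s : Finset ι) (p : ι → L[X])
    (h : ∀ i ∈ s, GB w σ c (p i)) : GB w σ c (∑ i ∈ s, p i) := by
  intro j
  have hp : 0 < σ ^ j := pow_pos (zero_lt_iff.mpr hσ) j
  rw [← le_div_iff₀ hp, finsetSum_coeff]
  exact w.map_sum_le fun i hi => (le_div_iff₀ hp).mpr (h i hi j)

lemma GB.mul (hσ : σ ≠ 0) {c c' : Γ} {p p' : L[X]} (h : GB w σ c p) (h' : GB w σ c' p') :
    GB w σ (c * c') (p * p') := by
  intro j
  have hp : 0 < σ ^ j := pow_pos (zero_lt_iff.mpr hσ) j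
  rw [← le_div_iff₀ hp, coeff_mul]
  refine w.map_sum_le fun i hi => (le_div_iff₀ hp).mpr ?_
  rw [← (by simpa using hi : i.1 + i.2 = j), map_mul, pow_add, mul_mul_mul_comm]
  exact mul_le_mul' (h _) (h' _)

lemma GB_C (a : L) : GB w σ (w a) (C a) := by
  intro j
  rw [coeff_C]
  split_ifs with h
  · simp [h]
  · simp

lemma GB_X_sub_C (y : L) : GB w σ (max σ (w y)) (X - C y) := by
  intro j
  rw [coeff_sub, coeff_X, coeff_C]
  rcases j with _ | _ | j <;> simp

lemma GB.prod {ι : Type*} (hσ : σ ≠ 0) (s : Finset ι) (c : ι → Γ) (p : ι → L[X])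
    (h : ∀ i ∈ s, GB w σ (c i) (p i)) : GB w σ (∏ i ∈ s, c i) (∏ i ∈ s, p i) := by
  classical
  induction s using Finset.induction_on with
  | empty => simpa using GB_C (w := w) (σ := σ) 1
  | insert a s ha ih =>
    rw [Finset.prod_insert ha, Finset.prod_insert ha]
    exact (h a (Finset.mem_insert_self _ _)).mul hσ
      (ih fun i hi => h i (Finset.mem_insert_of_mem hi))

/-- Interpolation on a finite additive group all of whose nonzero elements are large. -/
lemma GB_of_interp (hσ : σ ≠ 0) {S : Γ} {p : L[X]} (s : Finset L) (h0 : (0 : L) ∈ s)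
    (hsub : ∀ x ∈ s, ∀ y ∈ s, x - y ∈ s) (hdeg : p.natDegree < s.card)
    (hS : ∀ x ∈ s, w (p.eval x) ≤ S) (hlow : ∀ x ∈ s, x ≠ 0 → σ ≤ w x) : GB w σ S p := by
  classical
  have hd : p.degree < s.card := degree_le_natDegree.trans_lt (by exact_mod_cast hdeg)
  rw [Lagrange.eq_interpolate (v := id) (Set.injOn_id _) hd, Lagrange.interpolate_apply]
  refine GB.sum hσ _ _ fun x hx => ?_
  have hb : GB w σ 1 (Lagrange.basis s id x) := by
    unfold Lagrange.basis Lagrange.basisDivisor
    refine (GB.prod hσ _ (fun y => w (x - y)⁻¹ * max σ (w y)) _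
      fun y _ => (GB_C _).mul hσ (GB_X_sub_C _)).mono ?_
    rw [Finset.prod_mul_distrib]
    have e1 : ∏ y ∈ s.erase x, w (x - y)⁻¹ = (∏ z ∈ s.erase 0, w z)⁻¹ := by
      rw [← Finset.prod_inv_distrib]
      refine Finset.prod_bij' (fun y _ => x - y) (fun z _ => x - z) ?_ ?_ ?_ ?_ ?_
      · intro y hy
        rw [Finset.mem_erase] at hy ⊢
        exact ⟨sub_ne_zero.mpr hy.1.symm, hsub x hx y hy.2⟩
      · intro z hz
        rw [Finset.mem_erase] at hz ⊢
        exact ⟨by simpa using hz.1, hsub x hx z hz.2⟩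
      · intro y _; simp
      · intro z _; simp
      · intro y _; simp
    have e2 : ∏ y ∈ s.erase x, max σ (w y) ≤ ∏ z ∈ s.erase 0, w z := by
      have h1 := Finset.prod_erase_mul s (fun y => max σ (w y)) hx
      have h2 := Finset.prod_erase_mul s (fun y => max σ (w y)) h0
      have h3 : ∏ y ∈ s.erase 0, max σ (w y) = ∏ z ∈ s.erase 0, w z :=
        Finset.prod_congr rfl fun z hz =>
          max_eq_right (hlow z (Finset.mem_erase.mp hz).2 (Finset.mem_erase.mp hz).1)
      simp only [map_zero, zero_le, max_eq_left] at h2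
      rw [h3] at h2
      have h4 : (∏ y ∈ s.erase x, max σ (w y)) * σ ≤ (∏ z ∈ s.erase 0, w z) * σ := by
        rw [h2, ← h1]
        exact mul_le_mul_right (le_max_left _ _) _
      exact le_of_mul_le_mul_right h4 (zero_lt_iff.mpr hσ)
    have hpos : 0 < ∏ z ∈ s.erase 0, w z := by
      rw [zero_lt_iff, Finset.prod_ne_zero_iff]
      intro z hz
      exact (w.ne_zero_iff).mpr (Finset.mem_erase.mp hz).1
    rw [e1, inv_mul_le_iff₀ hpos, mul_one]
    exact e2
  have := (GB_C (w := w) (σ := σ) (p.eval x)).mul hσ hb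
  rw [mul_one] at this
  exact this.mono (hS x hx)

end Gauss

variable {Fq : Type*} [Field Fq] [Fintype Fq] {L : Type*} [Field L] [Algebra Fq L]

lemma val_algebraMap_eq_one {Γ : Type*} [LinearOrderedCommGroupWithZero Γ] (w : Valuation L Γ)
    {c : Fq} (hc : c ≠ 0) : w (algebraMap Fq L c) = 1 := by
  have h1 : c ^ (Fintype.card Fq - 1) = 1 := FiniteField.pow_card_sub_one_eq_one c hc
  have h2 : w (algebraMap Fq L c) ^ (Fintype.card Fq - 1) = 1 := by
    rw [← map_pow, ← map_pow, h1, map_one, map_one]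
  have := two_le_q Fq
  exact (pow_eq_one_iff_left (by omega)).mp h2

lemma val_algebraMap_le_one {Γ : Type*} [LinearOrderedCommGroupWithZero Γ] (w : Valuation L Γ)
    (c : Fq) : w (algebraMap Fq L c) ≤ 1 := by
  by_cases hc : c = 0
  · simp [hc]
  · exact (val_algebraMap_eq_one w hc).le

lemma val_smul_le {Γ : Type*} [LinearOrderedCommGroupWithZero Γ] (w : Valuation L Γ)
    (c : Fq) (x : L) : w (c • x) ≤ w x := by
  rw [Algebra.smul_def, map_mul]
  exact mul_le_of_le_one_left' (val_algebraMap_le_one w c)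

/-- The elements of `V` of logarithmic absolute value at most `t`. -/
def ball (w : Valuation L ℝᵐ⁰) (V : Submodule Fq L) (t : ℝ) : Submodule Fq L where
  carrier := {x | x ∈ V ∧ w x ≤ exp t}
  zero_mem' := ⟨V.zero_mem, by simp⟩
  add_mem' := fun hx hy => ⟨V.add_mem hx.1 hy.1, w.map_add_le hx.2 hy.2⟩
  smul_mem' := fun c x hx => ⟨V.smul_mem c hx.1, (val_smul_le w c x).trans hx.2⟩

lemma mem_ball {w : Valuation L ℝᵐ⁰} {V : Submodule Fq L} {t : ℝ} {x : L} :
    x ∈ ball w V t ↔ x ∈ V ∧ w x ≤ exp t := Iff.rfl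

lemma ball_le (w : Valuation L ℝᵐ⁰) (V : Submodule Fq L) (t : ℝ) : ball w V t ≤ V :=
  fun _ hx => hx.1

lemma ball_mono (w : Valuation L ℝᵐ⁰) (V : Submodule Fq L) {t t' : ℝ} (h : t ≤ t') :
    ball w V t ≤ ball w V t' := fun _ hx => ⟨hx.1, hx.2.trans (exp_le_exp.mpr h)⟩

instance (w : Valuation L ℝᵐ⁰) (V : Submodule Fq L) [FiniteDimensional Fq V] (t : ℝ) :
    FiniteDimensional Fq (ball w V t) := Submodule.finiteDimensional_of_le (ball_le w V t)

lemma exists_compl_in {K M : Type*} [Field K] [AddCommGroup M] [Module K M]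
    {A U : Submodule K M} [FiniteDimensional K U] (h : A ≤ U) :
    ∃ X : Submodule K M, X ≤ U ∧ Disjoint A X ∧ A ⊔ X = U ∧
      finrank K A + finrank K X = finrank K U := by
  obtain ⟨C, hC⟩ := Submodule.exists_isCompl A
  have h1 : A ⊔ C ⊓ U = U := by
    rw [← sup_inf_assoc_of_le _ h, hC.sup_eq_top, top_inf_eq]
  have h2 : Disjoint A (C ⊓ U) := hC.disjoint.mono_right inf_le_left
  refine ⟨C ⊓ U, inf_le_right, h2, h1, ?_⟩
  have := Submodule.finiteDimensional_of_le h
  have := Submodule.finiteDimensional_of_le (inf_le_right : C ⊓ U ≤ U)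
  have h3 := Submodule.finrank_sup_add_finrank_inf_eq A (C ⊓ U)
  rw [h1, h2.eq_bot, finrank_bot] at h3
  omega

lemma finrank_le_finrank_comap {K M : Type*} [Field K] [AddCommGroup M] [Module K M]
    {B V : Submodule K M} [FiniteDimensional K V] (hB : B ≤ V) (Φ : Module.End K M)
    (hV : ∀ x ∈ V, Φ x ∈ V) : finrank K B ≤ finrank K (V ⊓ B.comap Φ : Submodule K M) := by
  set φ : V →ₗ[K] V := Φ.restrict hV
  set BV : Submodule K V := B.comap V.subtype
  have h1 : finrank K BV = finrank K B := (Submodule.comapSubtypeEquivOfLe hB).finrank_eq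
  have h2 := LinearMap.finrank_range_add_finrank_ker (BV.mkQ.comp φ)
  have h3 := Submodule.finrank_quotient_add_finrank BV
  have h4 : finrank K (LinearMap.range (BV.mkQ.comp φ)) ≤ finrank K (V ⧸ BV) :=
    Submodule.finrank_le _
  have h5 : (LinearMap.ker (BV.mkQ.comp φ)).map V.subtype = V ⊓ B.comap Φ := by
    ext x
    simp only [Submodule.mem_map, LinearMap.mem_ker, LinearMap.comp_apply, Submodule.mkQ_apply,
      Submodule.Quotient.mk_eq_zero, Submodule.mem_inf, Submodule.mem_comap, BV, φ]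
    constructor
    · rintro ⟨y, hy, rfl⟩
      exact ⟨y.2, hy⟩
    · rintro ⟨hx, hx'⟩
      exact ⟨⟨x, hx⟩, hx', rfl⟩
  rw [← h5, Submodule.finrank_map_subtype_eq]
  omega

/-- Elements with pairwise different absolute values are linearly independent. -/
lemma card_le_finrank_of_injOn {Γ : Type*} [LinearOrderedCommGroupWithZero Γ] (w : Valuation L Γ)
    (V : Submodule Fq L) [FiniteDimensional Fq V] (s : Finset L)
    (hs : ∀ x ∈ s, x ∈ V ∧ x ≠ 0) (hinj : Set.InjOn w s) : s.card ≤ finrank Fq V := by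
  classical
  have hli : LinearIndependent Fq (fun x : s => (⟨x.1, (hs x.1 x.2).1⟩ : V)) := by
    rw [Fintype.linearIndependent_iff]
    intro g hg
    by_contra hne
    push Not at hne
    obtain ⟨i, hi, hmax⟩ := Finset.exists_max_image (Finset.univ.filter fun i => g i ≠ 0)
      (fun i : s => w i.1) (by obtain ⟨i, hi⟩ := hne; exact ⟨i, by simpa using hi⟩)
    have hgi : g i ≠ 0 := by simpa using hi
    have h0 : ∑ j : s, g j • (j.1 : L) = 0 := by
      have := congrArg V.subtype hg
      simpa using this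
    have hwi : w (g i • (i.1 : L)) = w i.1 := by
      rw [Algebra.smul_def, map_mul, val_algebraMap_eq_one w hgi, one_mul]
    have hne0 : w i.1 ≠ 0 := w.ne_zero_iff.mpr (hs i.1 i.2).2
    have := w.map_sum_eq_of_lt (s := Finset.univ) (f := fun j : s => g j • (j.1 : L)) (j := i)
      (Finset.mem_univ _) (by
        intro j hj
        have hji : j ≠ i := by simpa using hj
        rw [hwi]
        by_cases hgj : g j = 0
        · simp [hgj, zero_lt_iff, hne0]
        · refine (val_smul_le w _ _).trans_lt (lt_of_le_of_ne (hmax j (by simpa using hgj)) ?_)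
          intro h
          exact hji (Subtype.ext (hinj j.2 i.2 h)))
    rw [h0, hwi, map_zero] at this
    exact hne0 this.symm
  simpa using hli.fintype_card_le_finrank

lemma card_image_le_finrank {Γ : Type*} [LinearOrderedCommGroupWithZero Γ] [DecidableEq Γ]
    (w : Valuation L Γ) (V : Submodule Fq L) [FiniteDimensional Fq V] (s : Finset L)
    (hs : ∀ x ∈ s, x ∈ V ∧ x ≠ 0) : (s.image w).card ≤ finrank Fq V := by
  obtain ⟨u, hu, hinj, him⟩ := Finset.exists_subset_injOn_image_eq_of_surjOn (f := w)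
    (s : Set L) (s.image w) (by intro y hy; simpa using hy)
  rw [← him, Finset.card_image_of_injOn hinj]
  exact card_le_finrank_of_injOn w V u (fun x hx => hs x (hu hx)) hinj

end Pool.Agent.P.MP_43acf5_nt
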