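import Pool.Agent.P.MP_43acf5_nt.AP

/-! Subspace polynomials and quotients of Drinfeld modules by finite submodules. -/

namespace Pool.Agent.P.MP_43acf5_nt

open Polynomial Module

variable {Fq : Type*} [Field Fq] [Fintype Fq] {L : Type*} [Field L] [Algebra Fq L]

lemma mem_range_of_fr_one {z : L} (hz : fr Fq L 1 z = z) : ∃ c : Fq, algebraMap Fq L c = z := by
  classical
  by_contra hne
  push Not at hne
  have h1 : IsLin Fq (-1 : L) 1 (fun x => fr Fq L 1 x - x) := by
    unfold IsLin
    have : (fun x => (fun x => fr Fq L 1 x - x) x - -1 * x) = (fr Fq L 1 : L → L) := by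
      funext x; simp
    rw [this]; exact fr_mem_AP le_rfl (by omega)
  have h2 := h1.card_roots_le (by simp) (insert z (Finset.univ.image (algebraMap Fq L))) (by
    intro x hx
    rcases Finset.mem_insert.mp hx with rfl | hx
    · simp [hz]
    · obtain ⟨c, -, rfl⟩ := Finset.mem_image.mp hx
      simp)
  rw [Finset.card_insert_of_notMem (by simpa using hne),
    Finset.card_image_of_injective _ (algebraMap Fq L).injective] at h2
  simp at h2

lemma exists_finset (W : Submodule Fq L) [FiniteDimensional Fq W] :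
    ∃ s : Finset L, ∀ y, y ∈ s ↔ y ∈ W := by
  have : Finite W := Module.finite_of_finite Fq
  exact ⟨(Set.toFinite (W : Set L)).toFinset, fun y => by simp⟩

lemma card_finset_eq (W : Submodule Fq L) [FiniteDimensional Fq W] {s : Finset L}
    (hs : ∀ y, y ∈ s ↔ y ∈ W) : s.card = (Fintype.card Fq) ^ finrank Fq W := by
  have h1 : Nat.card W = Nat.card Fq ^ finrank Fq W := Module.natCard_eq_pow_finrank
  rw [← Nat.card_eq_fintype_card, ← h1]
  have : (W : Set L) = (s : Set L) := by ext y; simp [hs]
  change s.card = Nat.card (W : Set L)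
  rw [this]; simp

lemma exists_subspace_poly_aux (s : Finset L) :
    ∃ (f : Module.End Fq L) (c : L), c ≠ 0 ∧
      IsLin Fq c (finrank Fq (Submodule.span Fq (s : Set L))) f ∧
      (fun x => f x - fr Fq L (finrank Fq (Submodule.span Fq (s : Set L))) x) ∈
        AP Fq L 0 (finrank Fq (Submodule.span Fq (s : Set L))) ∧
      LinearMap.ker f = Submodule.span Fq (s : Set L) := by
  classical
  induction s using Finset.induction_on with
  | empty =>
    refine ⟨LinearMap.id, 1, one_ne_zero, ?_, ?_, ?_⟩
    · unfold IsLin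
      have : (fun x : L => (LinearMap.id : Module.End Fq L) x - 1 * x) = 0 := by funext x; simp
      rw [this]; exact Submodule.zero_mem _
    · have h0 : finrank Fq (Submodule.span Fq ((∅ : Finset L) : Set L)) = 0 := by simp
      rw [h0]
      have : (fun x : L => (LinearMap.id : Module.End Fq L) x - fr Fq L 0 x) = 0 := by
        funext x; simp
      rw [this]; exact Submodule.zero_mem _
    · simp
  | insert x0 s _ ih =>
    by_cases hx : x0 ∈ Submodule.span Fq (s : Set L)
    · have : Submodule.span Fq ((insert x0 s : Finset L) : Set L) =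
          Submodule.span Fq (s : Set L) := by
        rw [Finset.coe_insert, Submodule.span_insert_eq_span hx]
      rw [this]; exact ih
    obtain ⟨f, c, hc, h1, h2, h3⟩ := ih
    set W := Submodule.span Fq (s : Set L) with hW
    have hsp : Submodule.span Fq ((insert x0 s : Finset L) : Set L) =
        Submodule.span Fq {x0} ⊔ W := by
      rw [Finset.coe_insert, Submodule.span_insert]
    have hx0 : x0 ≠ 0 := fun h => hx (h ▸ W.zero_mem)
    have hfin : finrank Fq (Submodule.span Fq ((insert x0 s : Finset L) : Set L)) =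
        finrank Fq W + 1 := by
      rw [hsp]
      have := Submodule.finrank_sup_add_finrank_inf_eq (Submodule.span Fq {x0}) W
      have hb : Submodule.span Fq {x0} ⊓ W = ⊥ :=
        ((Submodule.disjoint_span_singleton' hx0).mpr hx).symm.eq_bot
      rw [hb, finrank_bot, finrank_span_singleton hx0] at this
      omega
    rw [hfin, hsp]
    have hfx : f x0 ≠ 0 := fun h => hx (h3 ▸ LinearMap.mem_ker.mpr h)
    set a : L := fr Fq L 1 (f x0) / f x0 with ha
    have ha0 : a ≠ 0 := div_ne_zero (by simpa using hfx) hfx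
    have hl : IsLin Fq (-a) 1 (fun x => fr Fq L 1 x - a * x) := by
      unfold IsLin
      have : (fun x => (fun x => fr Fq L 1 x - a * x) x - -a * x) = (fr Fq L 1 : L → L) := by
        funext x; simp
      rw [this]; exact fr_mem_AP le_rfl (by omega)
    refine ⟨((fr Fq L 1).toLinearMap - LinearMap.mulLeft Fq a).comp f, -a * c,
      mul_ne_zero (neg_ne_zero.mpr ha0) hc, ?_, ?_, ?_⟩
    · have := hl.comp h1
      rw [add_comm] at this
      exact this
    · have e : (fun x => (((fr Fq L 1).toLinearMap - LinearMap.mulLeft Fq a).comp f) x -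
          fr Fq L (finrank Fq W + 1) x) =
          (fun x => fr Fq L 1 (f x - fr Fq L (finrank Fq W) x)) - a • (f : L → L) := by
        funext x; simp [fr_fr, add_comm]; ring
      rw [e]
      exact Submodule.sub_mem _ (AP_mono (by omega) le_rfl (fr_comp_mem_AP h2 1))
        (Submodule.smul_mem _ _ h1.mem_AP)
    · ext y
      simp only [LinearMap.mem_ker, LinearMap.comp_apply, LinearMap.sub_apply,
        AlgHom.toLinearMap_apply, LinearMap.mulLeft_apply, Submodule.mem_sup,
        Submodule.mem_span_singleton]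
      constructor
      · intro hy
        have : fr Fq L 1 (f y / f x0) = f y / f x0 := by
          rw [map_div₀, sub_eq_zero.mp hy, ha]
          have : fr Fq L 1 (f x0) ≠ 0 := by simpa using hfx
          field_simp
        obtain ⟨e, he⟩ := mem_range_of_fr_one this
        refine ⟨e • x0, ⟨e, rfl⟩, y - e • x0, ?_, by simp⟩
        rw [← h3, LinearMap.mem_ker, map_sub, map_smul, Algebra.smul_def, he]
        field_simp
        simp
      · rintro ⟨_, ⟨e, rfl⟩, z, hz, rfl⟩
        rw [← h3, LinearMap.mem_ker] at hz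
        rw [map_add, hz, add_zero, map_smul, map_smul, ha, Algebra.smul_def, Algebra.smul_def]
        field_simp
        simp

lemma exists_subspace_poly (W : Submodule Fq L) [FiniteDimensional Fq W] :
    ∃ (f : Module.End Fq L) (c : L), c ≠ 0 ∧ IsLin Fq c (finrank Fq W) f ∧
      (fun x => f x - fr Fq L (finrank Fq W) x) ∈ AP Fq L 0 (finrank Fq W) ∧
      LinearMap.ker f = W := by
  obtain ⟨s, hs⟩ := exists_finset W
  have : Submodule.span Fq (s : Set L) = W := by
    have : (s : Set L) = W := by ext y; simp [hs]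
    rw [this, Submodule.span_eq]
  have h := exists_subspace_poly_aux (Fq := Fq) s
  rw [this] at h
  exact h

lemma subspace_poly_prod (W : Submodule Fq L) [FiniteDimensional Fq W] {f : L → L}
    (h2 : (fun x => f x - fr Fq L (finrank Fq W) x) ∈ AP Fq L 0 (finrank Fq W))
    (h3 : ∀ y ∈ W, f y = 0) {s : Finset L} (hs : ∀ y, y ∈ s ↔ y ∈ W) (x : L) :
    f x = ∏ y ∈ s, (x - y) := by
  classical
  set w := finrank Fq W
  obtain ⟨c, hc⟩ := mem_AP_iff.mp h2
  set c' : ℕ → L := fun k => if k = w then 1 else c k
  have hf : ∀ x, f x = (apoly Fq w c').eval x := by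
    intro x
    rw [apoly_eval, Finset.sum_range_succ]
    have := hc x
    rw [sub_eq_iff_eq_add] at this
    rw [this, ← Finset.range_eq_Ico]
    simp only [c', if_true, one_mul]
    congr 1
    refine Finset.sum_congr rfl fun k hk => ?_
    rw [if_neg (by have := Finset.mem_range.mp hk; omega)]
  have hmon : (apoly Fq w c').Monic :=
    monic_of_natDegree_le_of_coeff_eq_one _ (apoly_natDegree_le w c')
      (by rw [apoly_coeff w c' le_rfl]; simp [c'])
  have hdvd : ∏ y ∈ s, (X - C y) ∣ apoly Fq w c' := by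
    refine Finset.prod_dvd_of_coprime ?_ ?_
    · exact (pairwise_coprime_X_sub_C (K := L) (s := id) Function.injective_id).set_pairwise _
    · intro y hy
      rw [dvd_iff_isRoot, IsRoot, ← hf]
      exact h3 y ((hs y).mp hy)
  have hm2 : (∏ y ∈ s, (X - C y) : L[X]).Monic := monic_prod_X_sub_C _ _
  have hdeg : (apoly Fq w c').natDegree ≤ (∏ y ∈ s, (X - C y) : L[X]).natDegree := by
    rw [natDegree_finsetProd_X_sub_C_eq_card, card_finset_eq W hs]
    exact apoly_natDegree_le w c'
  rw [hf, eq_of_monic_of_dvd_of_natDegree_le hm2 hmon hdvd hdeg]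
  simp [eval_prod]

/-- The quotient of a Drinfeld module by a finite submodule. -/
lemma exists_isogeny [Infinite L] {θ : L} {r : ℕ} {Φ : Module.End Fq L} (hΦ : IsLin Fq θ r Φ)
    (W : Submodule Fq L) [FiniteDimensional Fq W] (hW : ∀ y ∈ W, Φ y ∈ W) :
    ∃ (f Ψ : Module.End Fq L), IsLin Fq θ r Ψ ∧ (∀ x, f (Φ x) = Ψ (f x)) ∧
      LinearMap.ker f = W ∧
      ∀ s : Finset L, (∀ y, y ∈ s ↔ y ∈ W) → ∀ x, f x = ∏ y ∈ s, (x - y) := by
  obtain ⟨f, c, hc, h1, h2, h3⟩ := exists_subspace_poly W
  have hfW : ∀ y ∈ W, f y = 0 := fun y hy => by rwa [← h3] at hy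
  have h4 := (h1.comp hΦ)
  have h5 : (fun x => f (Φ x)) ∈ AP Fq L 0 ((r + 1) + finrank Fq W) :=
    AP_mono le_rfl (by omega) h4.mem_AP
  obtain ⟨ψ, hψ, ρ, hρ, h⟩ := AP_div h2 (r + 1) h5
  obtain ⟨Ψ, rfl⟩ := exists_linear_of_mem_AP hψ
  have hρ0 : ∀ x, ρ x = 0 := by
    obtain ⟨e, he⟩ := mem_AP_iff.mp hρ
    obtain ⟨s, hs⟩ := exists_finset W
    intro x
    rw [he]
    refine Finset.sum_eq_zero fun k hk => ?_
    have hk' := (Finset.mem_Ico.mp hk).2
    obtain ⟨w, hw⟩ : ∃ w, finrank Fq W = w + 1 := ⟨finrank Fq W - 1, by omega⟩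
    have : e k = 0 := by
      refine coeff_eq_zero_of_roots (Fq := Fq) (n := w) s ?_ ?_ (by omega)
      · rw [card_finset_eq W hs, hw]
        exact Nat.pow_lt_pow_right (two_le_q Fq) (by omega)
      · intro y hy
        have hy' := (hs y).mp hy
        have := h y
        rw [hfW y hy', hfW _ (hW y hy'), map_zero, zero_add, he, hw, ← Finset.range_eq_Ico] at this
        exact this.symm
    simp [this]
  have hcomm : ∀ x, f (Φ x) = Ψ (f x) := fun x => by simpa [hρ0] using h x
  obtain ⟨c', hc'⟩ := isLin_of_mem_AP hψ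
  have h6 := hc'.comp h1
  have : (fun x => Ψ (f x)) = (fun x => f (Φ x)) := by funext x; exact (hcomm x).symm
  rw [this] at h6
  have h7 := h4.unique h6
  have : c' = θ := by
    have : c * (θ - c') = 0 := by linear_combination h7
    exact (sub_eq_zero.mp ((mul_eq_zero.mp this).resolve_left hc)).symm
  refine ⟨f, Ψ, this ▸ hc', hcomm, h3, fun s hs x => subspace_poly_prod W h2 hfW hs x⟩

end Pool.Agent.P.MP_43acf5_nt
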