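import Pool.Agent.P.MP_43acf5_nt.Count

/-! The bound for the order of a primary torsion point. -/

namespace Pool.Agent.P.MP_43acf5_nt

open Module WithZero Polynomial

variable {Fq : Type*} [Field Fq] [Fintype Fq] {L : Type*} [Field L] [Algebra (RatFunc Fq) L]
  [Algebra Fq L] [IsScalarTower Fq (RatFunc Fq) L] {wv : Pl Fq → Valuation L ℝᵐ⁰}
  {d r : ℕ} {Φ Ψ : Module.End Fq L} {V W : Submodule Fq L}
  {sst s0 sst' s0' : Pl Fq → (L ≃ₐ[RatFunc Fq] L) → ℝ}

lemma Dat.const (h : Ext wv) (hd : Dat wv d r Φ V sst s0) {P : MI Fq} {k : ℕ}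
    (hk : ∀ x ∈ V, (aeval Φ (P.1 ^ k) : Module.End Fq L) x = 0) {P' : MI Fq} (hP : P' ≠ P)
    (σ : L ≃ₐ[RatFunc Fq] L) (hA : ¬ 0 < max (s0 (some P') σ - sst (some P') σ) 0) {x : L}
    (hx : x ∈ V) (hx0 : x ≠ 0) : WW wv (some P') σ x = exp (sst (some P') σ) := by
  have h1 := hd.lower_some h hk hP σ hx hx0
  have hw : WW wv (some P') σ x ≠ 0 := (WW wv (some P') σ).ne_zero_iff.mpr hx0
  have h2 := (log_le_iff_le_exp hw).mpr (hd.top_le (some P') σ x hx)
  have h3 : s0 (some P') σ - sst (some P') σ ≤ 0 := by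
    by_contra hc
    exact hA (lt_max_of_lt_left (not_le.mp hc))
  rw [← exp_log hw]
  congr 1
  linarith

lemma Dat.const_isog (h : Ext wv) (hd : Dat wv d r Φ V sst s0) {f : Module.End Fq L}
    [FiniteDimensional Fq (V.map f)] (hd' : Dat wv d r Ψ (V.map f) sst' s0')
    (hV' : ∀ x ∈ V.map f, Ψ x ∈ V.map f) (hr : r < finrank Fq (V.map f)) (hle : W ≤ V)
    (hker : LinearMap.ker f = W) {sW : Finset L} (hsW : ∀ y, y ∈ sW ↔ y ∈ W)
    (hf : ∀ x, f x = ∏ y ∈ sW, (x - y)) {P : MI Fq} {k : ℕ}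
    (hk : ∀ x ∈ V, (aeval Φ (P.1 ^ k) : Module.End Fq L) x = 0) {P' : MI Fq} (hP : P' ≠ P)
    (σ : L ≃ₐ[RatFunc Fq] L) (hA : ¬ 0 < max (s0 (some P') σ - sst (some P') σ) 0) :
    ¬ 0 < max (s0' (some P') σ - sst' (some P') σ) 0 := by
  have h1 : ∀ z ∈ V.map f, z ≠ 0 → WW wv (some P') σ z = exp (sW.card * sst (some P') σ) := by
    rintro _ ⟨x, hx, rfl⟩ hz
    have hxW : x ∉ W := fun hxW => hz (by rwa [← hker] at hxW)
    rw [hf, map_prod, ← nsmul_eq_mul, exp_nsmul, ← Finset.prod_const]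
    refine Finset.prod_congr rfl fun y hy => ?_
    have hy' := (hsW y).mp hy
    exact hd.const h hk hP σ hA (V.sub_mem hx (hle hy'))
      (sub_ne_zero.mpr fun e => hxW (e ▸ hy'))
  have h2 := (hd'.loc (some P') σ).const_le _ hV' hr h1
  obtain ⟨z, hz, hz'⟩ := hd'.top_ex (some P') σ
  have hz0 : z ≠ 0 := by
    rintro rfl
    rw [map_zero] at hz'
    exact exp_ne_zero hz'.symm
  rw [h1 z hz hz0, exp_inj] at hz'
  simp only [lt_max_iff, lt_self_iff_false, or_false, not_lt]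
  linarith

lemma Dat.large_isog (h : Ext wv) (hd : Dat wv d r Φ V sst s0) {f : Module.End Fq L}
    (hd' : Dat wv d r Ψ (V.map f) sst' s0') (hker : LinearMap.ker f = W) {sW : Finset L}
    (hsW : ∀ y, y ∈ sW ↔ y ∈ W) (hf : ∀ x, f x = ∏ y ∈ sW, (x - y)) {P : MI Fq} {k : ℕ}
    (hk : ∀ x ∈ V, (aeval Φ (P.1 ^ k) : Module.End Fq L) x = 0)
    (hk' : ∀ x ∈ V.map f, (aeval Ψ (P.1 ^ k) : Module.End Fq L) x = 0) {P' : MI Fq} (hP : P' ≠ P)
    (σ : L ≃ₐ[RatFunc Fq] L) (hA : sst (some P') σ < s0 (some P') σ)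
    (h1 : W ≤ ball (WW wv (some P') σ) V (sst (some P') σ))
    (h2 : ¬ ball (WW wv (some P') σ) V (sst (some P') σ) ≤ W) :
    sW.card * ((pdeg (some P') : ℝ) / (finrank (RatFunc Fq) L).factorial) ≤
      s0' (some P') σ - sst' (some P') σ := by
  set w := WW wv (some P') σ with hw
  set s := sst (some P') σ
  set B := ball w V s
  obtain ⟨x, hx, hx'⟩ := hd.top_ex (some P') σ
  obtain ⟨y, hy, hyW⟩ := SetLike.not_le_iff_exists.mp h2
  have hB : ∀ z ∈ B, z ≠ 0 → w z = exp s := by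
    intro z hz hz0
    have hwz : w z ≠ 0 := w.ne_zero_iff.mpr hz0
    refine le_antisymm hz.2 ?_
    rw [← le_log_iff_exp_le hwz]
    exact hd.lower_some h hk hP σ hz.1 hz0
  have hx0 : x ≠ 0 := by
    rintro rfl
    rw [map_zero] at hx'
    exact exp_ne_zero hx'.symm
  have hy0 : y ≠ 0 := fun e => hyW (e ▸ W.zero_mem)
  have h3 : w (f x) = exp (sW.card * s0 (some P') σ) := by
    rw [hf, map_prod, ← nsmul_eq_mul, exp_nsmul, ← Finset.prod_const]
    refine Finset.prod_congr rfl fun z hz => ?_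
    rw [w.map_sub_eq_of_lt_left, hx']
    rw [hx']
    exact (h1 ((hsW z).mp hz)).2.trans_lt (exp_lt_exp.mpr hA)
  have h4 : w (f y) = exp (sW.card * s) := by
    rw [hf, map_prod, ← nsmul_eq_mul, exp_nsmul, ← Finset.prod_const]
    refine Finset.prod_congr rfl fun z hz => ?_
    have hz' := (hsW z).mp hz
    exact hB _ (B.sub_mem hy (h1 hz')) (sub_ne_zero.mpr fun e => hyW (e ▸ hz'))
  have h5 := hd'.top_le (some P') σ (f x) ⟨x, hx, rfl⟩
  have h6 := hd'.lower_some h hk' hP σ (x := f y) ⟨y, hy.1, rfl⟩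
    (fun e => hyW (by rwa [← hker]))
  have h7 := h.gap (some P') σ hy0 hx0 (by rw [← hw, hB y hy hy0, hx']; simpa using hA)
  rw [← hw] at h5 h6 h7
  rw [h3, exp_le_exp] at h5
  rw [h4, log_exp] at h6
  rw [hB y hy hy0, hx', log_exp, log_exp] at h7
  have := mul_le_mul_of_nonneg_left h7 (Nat.cast_nonneg sW.card)
  linarith

variable [FiniteDimensional (RatFunc Fq) L] [IsGalois (RatFunc Fq) L]

lemma key_false (hΦ : IsLin Fq (th Fq L d) r Φ) (hr : 0 < r) {x0 : L} {P : MI Fq} {k : ℕ}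
    (hann : ∀ a, (aeval Φ a : Module.End Fq L) x0 = 0 ↔ P.1 ^ k ∣ a) {n m s : ℕ}
    (hn : n = k * P.1.natDegree) (hm0 : m = 16 * r * finrank (RatFunc Fq) L ^ 2)
    (hms : (Fintype.card Fq) ^ d * m < (Fintype.card Fq) ^ s) (N1 : 2 * (m * (r * m)) < n)
    (N2 : 6 * r < n)
    (N3 : (finrank (RatFunc Fq) L).factorial *
      (32 * finrank (RatFunc Fq) L * ((Fintype.card Fq) ^ d * n) +
        2 * (Fintype.card Fq) ^ s * (n + 2)) < 2 ^ (n / (3 * r)))
    (N4 : 1 + (Fintype.card Fq) ^ finrank (RatFunc Fq) L * finrank (RatFunc Fq) L *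
        n ^ (2 * finrank (RatFunc Fq) L) < (Fintype.card Fq) ^ n) : False := by
  classical
  obtain ⟨wv, h⟩ := exists_ext (Fq := Fq) (L := L)
  have : Infinite (RatFunc Fq) := Infinite.of_injective _ (RatFunc.algebraMap_injective Fq)
  have : Infinite L := Infinite.of_injective _ (algebraMap (RatFunc Fq) L).injective
  set δ := P.1.natDegree with hδ
  have hδ0 : 0 < δ := P.2.2.natDegree_pos
  have hk0 : 0 < k := by
    rcases Nat.eq_zero_or_pos k with rfl | h0
    · omega
    · exact h0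
  set j := (k + 1) / 2 with hj
  have hjk : j ≤ k := by omega
  set x1 := (aeval Φ (P.1 ^ j) : Module.End Fq L) x0 with hx1
  obtain ⟨hVfd, hVn⟩ := finrank_cyc (P.2.1.pow k) hann
  obtain ⟨hWfd, hWn⟩ := finrank_cyc (Φ := Φ) (x := x1) (P.2.1.pow (k - j)) (by
    intro a
    rw [hx1, aeval_aeval, hann]
    conv_lhs => rw [show k = (k - j) + j by omega, pow_add]
    exact mul_dvd_mul_iff_right (pow_ne_zero _ P.2.2.ne_zero))
  rw [natDegree_pow, ← hδ] at hVn hWn
  rw [← hn] at hVn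
  set V := cyc Φ x0
  set W := cyc Φ x1
  have hV := cyc_stable Φ x0
  have hle : W ≤ V := by
    intro z hz
    obtain ⟨b, rfl⟩ := mem_cyc.mp hz
    exact mem_cyc.mpr ⟨b * P.1 ^ j, by rw [hx1, aeval_aeval]⟩
  obtain ⟨f, Ψ, hΨ, hcomm, hker, hprod⟩ := exists_isogeny hΦ W (cyc_stable Φ x1)
  obtain ⟨sW, hsW⟩ := exists_finset W
  have hV' : ∀ x ∈ V.map f, Ψ x ∈ V.map f := by
    rintro _ ⟨x, hx, rfl⟩
    exact ⟨Φ x, hV x hx, hcomm x⟩
  have hk : ∀ x ∈ V, (aeval Φ (P.1 ^ k) : Module.End Fq L) x = 0 := by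
    intro z hz
    obtain ⟨b, rfl⟩ := mem_cyc.mp hz
    rw [aeval_aeval, hann]
    exact dvd_mul_right _ _
  have hk' : ∀ x ∈ V.map f, (aeval Ψ (P.1 ^ k) : Module.End Fq L) x = 0 := by
    rintro _ ⟨x, hx, rfl⟩
    rw [aeval_comm hcomm, hk x hx, map_zero]
  have hV'n := finrank_map_add hker hle
  have hW2 : 2 * finrank Fq W ≤ n := by
    rw [hWn, hn, ← mul_assoc]; exact Nat.mul_le_mul_right _ (by omega)
  have hmr : r ≤ m * (r * m) := by
    have hD : 0 < finrank (RatFunc Fq) L := Module.finrank_pos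
    have hm : 0 < m := by rw [hm0]; positivity
    calc r = 1 * (r * 1) := by ring
      _ ≤ m * (r * m) := by gcongr <;> omega
  have hPk : P.1 ^ k ≠ 0 := pow_ne_zero _ P.2.2.ne_zero
  obtain ⟨sst, s0, hd⟩ := exists_dat wv hΦ V (by omega) hPk hk
  obtain ⟨sst', s0', hd'⟩ := exists_dat wv hΨ (V.map f) (by omega) hPk hk'
  obtain ⟨S1, hS1⟩ := hd.ineq h hΦ hr hV hk hVn.le hn.ge hm0 hms (by omega)
  obtain ⟨S2, hS2⟩ := hd'.ineq h hΨ hr hV' hk' (n := n) (by omega) hn.ge hm0 hms (by omega)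
  set D := finrank (RatFunc Fq) L with hD
  set A : Pl Fq → (L ≃ₐ[RatFunc Fq] L) → ℝ := fun v σ => max (s0 v σ - sst v σ) 0 with hA
  set A' : Pl Fq → (L ≃ₐ[RatFunc Fq] L) → ℝ := fun v σ => max (s0' v σ - sst' v σ) 0 with hA'
  have hA0 : ∀ v σ, 0 ≤ A v σ := fun v σ => le_max_right _ _
  have hA'0 : ∀ v σ, 0 ≤ A' v σ := fun v σ => le_max_right _ _
  set κ := n / (3 * r) with hκ
  have hκ1 : 3 * (r * κ) ≤ n := by
    rw [← mul_assoc]; exact Nat.mul_div_le n (3 * r)
  have hlarge : ∀ P' ≠ P, (∃ σ, 0 < A (some P') σ) →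
      2 ^ κ * ((pdeg (some P') : ℝ) / D.factorial) ≤
        ∑ σ, A (some P') σ + ∑ σ, A' (some P') σ := by
    rintro P' hP ⟨σ, hσ⟩
    have hss : sst (some P') σ < s0 (some P') σ := by simpa [hA] using hσ
    have e1 := Finset.single_le_sum (f := A (some P')) (fun σ _ => hA0 _ σ) (Finset.mem_univ σ)
    have e2 := Finset.single_le_sum (f := A' (some P')) (fun σ _ => hA'0 _ σ) (Finset.mem_univ σ)
    have e3 : s0 (some P') σ - sst (some P') σ ≤ A (some P') σ := le_max_left _ _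
    have e4 : s0' (some P') σ - sst' (some P') σ ≤ A' (some P') σ := le_max_left _ _
    by_cases hB : ball (WW wv (some P') σ) V (sst (some P') σ) ≤ W
    · have h1 := Submodule.finrank_mono hB
      have := (hd.loc (some P') σ).large V hV (fun x hx hx0 => hd.lower_some h hk hP σ hx hx0)
        (hd.top_le _ _) hss.le (fun x _ y _ hx hy hxy => h.gap _ σ hx hy hxy) (j := κ)
        (by omega) (by omega)
      linarith [hA'0 (some P') σ]
    · obtain ⟨h1, h2⟩ := cyc_dichotomy P.2.2 ((hann _).mpr dvd_rfl)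
        (B := ball (WW wv (some P') σ) V (sst (some P') σ))
        (fun y hy => ⟨hV y hy.1, (hd.loc _ σ).stable (h.th_some d P' σ) le_rfl hy.2⟩)
        (ball_le _ _ _) (by
          intro e
          obtain ⟨x, hx, hx'⟩ := hd.top_ex (some P') σ
          have hx2 : x ∈ ball (WW wv (some P') σ) V (sst (some P') σ) := by
            rw [e]; exact hx
          have := hx2.2
          rw [hx', exp_le_exp] at this
          linarith) hB
      have h3 := hd.large_isog h hd' hker hsW (hprod sW hsW) hk hk' hP σ hss h1 hB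
      have h4 : 2 ^ κ ≤ sW.card := by
        rw [card_finset_eq W hsW]
        refine le_trans (Nat.pow_le_pow_right (by norm_num) ?_)
          (Nat.pow_le_pow_left (two_le_q Fq) _)
        have h5 : n ≤ 3 * finrank Fq W := by
          rw [hWn, hn, ← mul_assoc]; exact Nat.mul_le_mul_right _ (by omega)
        have h6 : κ ≤ r * κ := Nat.le_mul_of_pos_left _ hr
        omega
      have h5 : (2 : ℝ) ^ κ ≤ sW.card := by exact_mod_cast h4
      have h6 : (2 : ℝ) ^ κ * ((pdeg (some P') : ℝ) / D.factorial) ≤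
          sW.card * ((pdeg (some P') : ℝ) / D.factorial) := by gcongr
      linarith [hA0 (some P') σ]
  have hnone : ∀ P' ≠ P, ∀ σ, ¬ 0 < A (some P') σ := by
    intro P0 hP0 σ0 hσ0
    set S := insert (some P0) (S1 ∪ S2)
    have i1 := hS1 S (Finset.subset_union_left.trans (Finset.subset_insert _ _))
    have i2 := hS2 S (Finset.subset_union_right.trans (Finset.subset_insert _ _))
    set T := S.filter fun v => ¬ (v = none ∨ v = some P) ∧ ∃ σ, 0 < A v σ
    set dT := ∑ v ∈ T, (pdeg v : ℝ) with hdT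
    have hT1 : 1 ≤ dT := by
      have : some P0 ∈ T := Finset.mem_filter.mpr
        ⟨Finset.mem_insert_self _ _, by simpa using hP0, σ0, hσ0⟩
      have h1 := Finset.single_le_sum (f := fun v => (pdeg v : ℝ))
        (fun v _ => Nat.cast_nonneg _) this
      have h2 : (1 : ℝ) ≤ pdeg (some P0) := by exact_mod_cast pdeg_pos (some P0)
      exact h2.trans h1
    have hsub : ∀ U : Finset (Pl Fq), U ⊆ T ∪ {none, some P} →
        ∑ v ∈ U, (pdeg v : ℝ) ≤ dT + (n + 1) := by
      intro U hU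
      refine (Finset.sum_le_sum_of_subset_of_nonneg hU fun v _ _ => Nat.cast_nonneg _).trans ?_
      have h1 := Finset.sum_union_inter (s₁ := T) (s₂ := {none, some P})
        (f := fun v => (pdeg v : ℝ))
      have h2 : 0 ≤ ∑ v ∈ T ∩ {none, some P}, (pdeg v : ℝ) :=
        Finset.sum_nonneg fun v _ => Nat.cast_nonneg _
      rw [Finset.sum_pair (by simp)] at h1
      have h3 : (pdeg (some P) : ℝ) ≤ n := by
        have : pdeg (some P) ≤ n := by rw [hn]; exact Nat.le_mul_of_pos_left _ hk0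
        exact_mod_cast this
      have h4 : (pdeg (none : Pl Fq) : ℝ) = 1 := by simp [pdeg]
      linarith
    have j1 := hsub (S.filter fun v => ∃ σ, 0 < A v σ) (by
      intro v hv
      have hv' := Finset.mem_filter.mp hv
      by_cases hc : v = none ∨ v = some P
      · exact Finset.mem_union_right _ (by simpa using hc)
      · exact Finset.mem_union_left _ (Finset.mem_filter.mpr ⟨hv'.1, hc, hv'.2⟩))
    have j2 := hsub (S.filter fun v => ∃ σ, 0 < A' v σ) (by
      intro v hv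
      have hv' := Finset.mem_filter.mp hv
      by_cases hc : v = none ∨ v = some P
      · exact Finset.mem_union_right _ (by simpa using hc)
      refine Finset.mem_union_left _ (Finset.mem_filter.mpr ⟨hv'.1, hc, ?_⟩)
      cases v with
      | none => simp at hc
      | some P' =>
        obtain ⟨σ, hσ⟩ := hv'.2
        refine ⟨σ, ?_⟩
        by_contra hcon
        exact hd.const_isog h hd' hV' (by omega) hle hker hsW (hprod sW hsW) hk
          (by simpa using hc) σ hcon hσ)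
    have j3 : 2 ^ κ * (dT / D.factorial) ≤ ∑ v ∈ S, ∑ σ, A v σ + ∑ v ∈ S, ∑ σ, A' v σ := by
      rw [← Finset.sum_add_distrib, hdT, Finset.sum_div, Finset.mul_sum]
      refine le_trans (Finset.sum_le_sum fun v hv => ?_)
        (Finset.sum_le_sum_of_subset_of_nonneg (Finset.filter_subset _ S) fun v _ _ =>
          add_nonneg (Finset.sum_nonneg fun σ _ => hA0 v σ) (Finset.sum_nonneg fun σ _ => hA'0 v σ))
      have hv' := (Finset.mem_filter.mp hv).2
      cases v with
      | none => simp at hv'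
      | some P' => exact hlarge P' (by simpa using hv'.1) hv'.2
    have N3' : (D.factorial : ℝ) * (32 * D * ((((Fintype.card Fq) ^ d : ℕ) : ℝ) * n) +
        2 * (((Fintype.card Fq) ^ s : ℕ) : ℝ) * (n + 2)) < 2 ^ κ := by exact_mod_cast N3
    set N : ℝ := (((Fintype.card Fq) ^ d : ℕ) : ℝ)
    set Q : ℝ := (((Fintype.card Fq) ^ s : ℕ) : ℝ)
    have hQ0 : 0 ≤ Q := Nat.cast_nonneg _
    have hN0 : 0 ≤ N := Nat.cast_nonneg _
    have hF : (0 : ℝ) < D.factorial := by positivity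
    have j4 : 2 ^ κ * (dT / D.factorial) ≤ 32 * D * (N * n) + 2 * Q * (dT + (n + 1)) := by
      have := mul_le_mul_of_nonneg_left j1 hQ0
      have := mul_le_mul_of_nonneg_left j2 hQ0
      linarith
    have j5 : 32 * D * (N * n) + 2 * Q * (dT + (n + 1)) ≤
        (32 * D * (N * n) + 2 * Q * (n + 2)) * dT := by
      have a1 : 0 ≤ 32 * D * (N * n) * (dT - 1) := by
        have : 0 ≤ dT - 1 := by linarith
        positivity
      have a2 : 0 ≤ 2 * Q * (n + 1) * (dT - 1) := by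
        have : 0 ≤ dT - 1 := by linarith
        positivity
      nlinarith
    have j6 := j4.trans j5
    rw [← mul_div_assoc, div_le_iff₀ hF] at j6
    have j7 := mul_lt_mul_of_pos_right N3' (show 0 < dT by linarith)
    nlinarith
  have := h.count V P (fun P' hP σ x hx y hy hx0 hy0 => by
    rw [hd.const h hk hP σ (hnone P' hP σ) hx hx0, hd.const h hk hP σ (hnone P' hP σ) hy hy0])
  rw [hVn] at this
  exact absurd this (not_le.mpr N4)

end Pool.Agent.P.MP_43acf5_nt
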