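import Pool.Agent.P.MP_43acf5_nt.Interp

/-! Linear algebra lemmas for the determinant method. -/

namespace Pool.Agent.P.MP_43acf5_nt

open Module

lemma exists_det_ne_zero {X ι K : Type*} [Field K] [Fintype ι] [DecidableEq ι] (f : ι → X → K)
    (hf : LinearIndependent K f) :
    ∃ x : ι → X, (Matrix.of fun k i => f i (x k)).det ≠ 0 := by
  set col : X → ι → K := fun x i => f i x with hcol
  have htop : Submodule.span K (Set.range col) = ⊤ := by
    by_contra hne
    obtain ⟨φ, hφ0, hφ⟩ := Submodule.exists_le_ker_of_lt_top _ (lt_top_iff_ne_top.mpr hne)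
    apply hφ0
    have h1 : ∑ i, φ (fun j => if i = j then 1 else 0) • f i = 0 := by
      funext x
      have := hφ (Submodule.subset_span ⟨x, rfl⟩)
      rw [LinearMap.mem_ker, LinearMap.pi_apply_eq_sum_univ] at this
      simp only [Finset.sum_apply, Pi.smul_apply, smul_eq_mul, Pi.zero_apply]
      exact (Finset.sum_congr rfl fun i _ => mul_comm _ _).trans this
    have h2 := Fintype.linearIndependent_iff.mp hf _ h1
    ext i
    have := h2 i
    simp only [LinearMap.comp_apply, LinearMap.coe_single, LinearMap.zero_apply]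
    rw [← this]
    congr 1
    funext j
    simp [Pi.single_apply, eq_comm]
  obtain ⟨κ, a, -, hsp, hli⟩ := exists_linearIndependent' K col
  have : Finite κ := hli.finite
  have := Fintype.ofFinite κ
  have hcard : Fintype.card κ = Fintype.card ι := by
    rw [linearIndependent_iff_card_eq_finrank_span.mp hli, Set.finrank, hsp, htop, finrank_top,
      finrank_fintype_fun_eq_card]
  let e : ι ≃ κ := (Fintype.equivOfCardEq hcard).symm
  refine ⟨fun k => a (e k), ?_⟩
  have h3 : LinearIndependent K (Matrix.of fun k i => f i (a (e k))).row :=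
    hli.comp e e.injective
  rw [Matrix.linearIndependent_rows_iff_isUnit, Matrix.isUnit_iff_isUnit_det] at h3
  exact h3.ne_zero

lemma det_eq_of_level {X ι K : Type*} [Field K] [Fintype ι] [DecidableEq ι] (lev : ι → ℕ)
    (ρ ρ' : ι → X → K) (h : ∀ i, ρ' i - ρ i ∈ Submodule.span K (ρ '' {j | lev j < lev i}))
    (x : ι → X) :
    (Matrix.of fun k i => ρ' i (x k)).det = (Matrix.of fun k i => ρ i (x k)).det := by
  classical
  have h1 : ∀ i, ∃ c : ι → K, (∀ j, ¬ lev j < lev i → c j = 0) ∧
      ρ' i - ρ i = ∑ j, c j • ρ j := by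
    intro i
    obtain ⟨c, hc⟩ := (Fintype.mem_span_image_iff_exists_fun K).mp (h i)
    refine ⟨fun j => if hj : lev j < lev i then c ⟨j, hj⟩ else 0, fun j hj => dif_neg hj, ?_⟩
    rw [← hc, ← Fintype.sum_subtype_add_sum_subtype (fun j => lev j < lev i)]
    have h2 : ∑ j : {j // ¬ lev j < lev i},
        (if hj : lev j < lev i then c ⟨j, hj⟩ else 0) • ρ j = 0 :=
      Finset.sum_eq_zero fun j _ => by rw [dif_neg j.2, zero_smul]
    rw [h2, add_zero]
    refine Finset.sum_congr rfl fun j _ => ?_
    have hj : lev j < lev i := j.2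
    simp only [dif_pos hj]
  choose U hU0 hU using h1
  set M : Matrix ι ι K := Matrix.of fun j i => (if j = i then 1 else 0) + U i j with hM
  have h2 : (Matrix.of fun k i => ρ' i (x k)) = (Matrix.of fun k i => ρ i (x k)) * M := by
    ext k i
    have := congrFun (hU i) (x k)
    simp only [Pi.sub_apply, Finset.sum_apply, Pi.smul_apply, smul_eq_mul] at this
    simp only [Matrix.mul_apply, Matrix.of_apply, hM, mul_add, Finset.sum_add_distrib, mul_ite,
      mul_one, mul_zero, Finset.sum_ite_eq', Finset.mem_univ, if_true]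
    rw [← sub_eq_iff_eq_add', this]
    exact Finset.sum_congr rfl fun j _ => mul_comm _ _
  have h3 : M.BlockTriangular lev := by
    intro j i hij
    have hne : j ≠ i := by rintro rfl; exact lt_irrefl _ hij
    simp only [hM, Matrix.of_apply, if_neg hne, zero_add]
    exact hU0 i j (not_lt.mpr (le_of_lt hij))
  have h4 : M.det = 1 := by
    rw [h3.det]
    refine Finset.prod_eq_one fun a _ => ?_
    have : M.toSquareBlock lev a = 1 := by
      ext j i
      have h5 : U i j = 0 := hU0 i j (by rw [i.2, j.2]; exact lt_irrefl _)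
      simp [Matrix.toSquareBlock_def, hM, h5, Matrix.one_apply, Subtype.ext_iff]
    rw [this, Matrix.det_one]
  rw [h2, Matrix.det_mul, h4, mul_one]

lemma det_val_le {ι L Γ : Type*} [Field L] [Fintype ι] [DecidableEq ι]
    [LinearOrderedCommGroupWithZero Γ] (w : Valuation L Γ) (M : Matrix ι ι L) (a τ : ι → Γ)
    (ha : ∀ k, a k ≠ 0) (h : ∀ k i, w (M k i) * a k ≤ τ i) :
    w M.det * ∏ k, a k ≤ ∏ i, τ i := by
  have hp : 0 < ∏ k, a k := zero_lt_iff.mpr (Finset.prod_ne_zero_iff.mpr fun k _ => ha k)
  rw [← le_div_iff₀ hp, Matrix.det_apply]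
  refine w.map_sum_le fun π _ => (le_div_iff₀ hp).mpr ?_
  have h1 : w (Equiv.Perm.sign π • ∏ i, M (π i) i) = ∏ i, w (M (π i) i) := by
    rw [← map_prod]
    rcases Int.units_eq_one_or (Equiv.Perm.sign π) with h | h <;> simp [h]
  rw [h1, ← Equiv.prod_comp π a, ← Finset.prod_mul_distrib]
  exact Finset.prod_le_prod' fun i _ => h _ _

lemma exists_integral_basis {F L Γ : Type*} [Field F] [AddCommGroup L] [Module F L]
    [LinearOrderedCommGroupWithZero Γ] (v : Valuation F Γ) (G : Finset L) :
    ∃ B ⊆ G, LinearIndependent F (fun a : B => (a : L)) ∧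
      ∀ y ∈ G, y ∈ Submodule.span v.integer (B : Set L) := by
  classical
  induction G using Finset.strongInduction with
  | H G ih =>
    by_cases hli : LinearIndependent F (fun a : G => (a : L))
    · exact ⟨G, subset_rfl, hli, fun y hy => Submodule.subset_span hy⟩
    obtain ⟨g, hg, a1, ha1⟩ := Fintype.not_linearIndependent_iff.mp hli
    obtain ⟨a0, -, hmax⟩ := Finset.exists_max_image Finset.univ (fun a : G => v (g a))
      ⟨a1, Finset.mem_univ _⟩
    have hg0 : g a0 ≠ 0 := by
      intro h
      have := hmax a1 (Finset.mem_univ _)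
      rw [h, map_zero, le_zero_iff] at this
      exact ha1 (v.zero_iff.mp this)
    obtain ⟨B, hBG, hB, hsp⟩ := ih (G.erase a0) (Finset.erase_ssubset a0.2)
    refine ⟨B, hBG.trans (Finset.erase_subset _ _), hB, fun y hy => ?_⟩
    by_cases hya : y = a0
    · have h1 : (a0 : L) = ∑ a ∈ Finset.univ.erase a0, (-(g a / g a0)) • (a : L) := by
        rw [← Finset.add_sum_erase _ _ (Finset.mem_univ a0)] at hg
        have h2 : (a0 : L) = (g a0)⁻¹ • (g a0 • (a0 : L)) := by
          rw [smul_smul, inv_mul_cancel₀ hg0, one_smul]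
        rw [h2, eq_neg_of_add_eq_zero_left hg, smul_neg, Finset.smul_sum,
          ← Finset.sum_neg_distrib]
        refine Finset.sum_congr rfl fun a _ => ?_
        rw [smul_smul, neg_smul, div_eq_inv_mul]
      rw [hya, h1]
      refine Submodule.sum_mem _ fun a ha => ?_
      have hint : -(g a / g a0) ∈ v.integer := by
        rw [Valuation.mem_integer_iff, Valuation.map_neg, map_div₀]
        exact div_le_one_of_le₀ (hmax a (Finset.mem_univ _)) zero_le
      refine Submodule.smul_mem _ (⟨_, hint⟩ : v.integer) (hsp a ?_)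
      exact Finset.mem_erase.mpr ⟨fun h => (Finset.mem_erase.mp ha).1 (Subtype.ext h), a.2⟩
    · exact hsp y (Finset.mem_erase.mpr ⟨hya, hy⟩)

lemma exists_frame {F L Γ : Type*} [Field F] [AddCommGroup L] [Module F L]
    [LinearOrderedCommGroupWithZero Γ] (v : Valuation F Γ) (G : Finset L) :
    ∃ B ⊆ G, ∃ lam : B → Module.Dual F L,
      ∀ y ∈ G, ∑ a : B, lam a y • (a : L) = y ∧ ∀ a, v (lam a y) ≤ 1 := by
  classical
  obtain ⟨B, hBG, hB, hsp⟩ := exists_integral_basis v G
  obtain ⟨Λ, hΛ⟩ := (Fintype.linearCombination F (fun a : B => (a : L))).exists_leftInverse_of_injective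
    (by
      rw [LinearMap.ker_eq_bot']
      intro c hc
      funext a
      exact Fintype.linearIndependent_iff.mp hB c hc a)
  refine ⟨B, hBG, fun a => (LinearMap.proj a).comp Λ, fun y hy => ?_⟩
  obtain ⟨c, -, hc⟩ := Submodule.mem_span_finset.mp (hsp y hy)
  have h1 : y = Fintype.linearCombination F (fun a : B => (a : L)) (fun a => (c a : F)) := by
    rw [Fintype.linearCombination_apply, ← hc, ← Finset.sum_coe_sort]
    rfl
  have h2 : Λ y = fun a : B => (c a : F) := by
    rw [h1]
    exact congrArg (fun φ : (B → F) →ₗ[F] (B → F) => φ fun a => (c a : F)) hΛ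
  refine ⟨?_, fun a => ?_⟩
  · simp only [LinearMap.comp_apply, h2, LinearMap.proj_apply]
    conv_rhs => rw [h1]
    rw [Fintype.linearCombination_apply]
  · simp only [LinearMap.comp_apply, h2, LinearMap.proj_apply]
    exact (c a).2

/-- A determinant whose columns come from a space with a deep subspace of small codimension. -/
lemma det_deep_le {Fq ι L Γ : Type*} [Field Fq] [Field L] [Algebra Fq L] [Fintype ι]
    [DecidableEq ι] [LinearOrderedCommGroupWithZero Γ] (w : Valuation L Γ)
    (R : L →ₗ[Fq] (ι → L)) (V Vd : Submodule Fq L) [FiniteDimensional Fq V] (hle : Vd ≤ V)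
    {κ : ℕ} (hκ : finrank Fq V ≤ finrank Fq Vd + κ) (τ : ι → Γ) {ω : Γ} (hω0 : ω ≠ 0)
    (hω1 : ω ≤ 1) (hd : ∀ y ∈ Vd, ∀ i, w (R y i) ≤ τ i) (hV : ∀ y ∈ V, ∀ i, w (R y i) * ω ≤ τ i)
    (x : ι → V) : w (Matrix.of fun k i => R (x k) i).det * ω ^ κ ≤ ∏ i, τ i := by
  classical
  obtain ⟨X, hXV, -, hsup, hrk⟩ := exists_compl_in hle
  have : FiniteDimensional Fq X := Submodule.finiteDimensional_of_le hXV
  have hdec : ∀ k, ∃ d ∈ Vd, ∃ e ∈ X, d + e = x k := fun k =>
    Submodule.mem_sup.mp (hsup ▸ (x k).2)
  choose d hd' e he hde using hdec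
  have h1 : (Matrix.of fun k i => R (x k) i).det =
      Matrix.detRowAlternating ((fun k => R (e k)) + (fun k => R (d k))) := by
    change Matrix.detRowAlternating _ = _
    congr 1
    funext k
    simp only [Pi.add_apply]
    rw [← map_add, add_comm, hde]
    rfl
  have hp : 0 < ω ^ κ := pow_pos (zero_lt_iff.mpr hω0) κ
  rw [h1, AlternatingMap.map_add_univ, ← le_div_iff₀ hp]
  refine w.map_sum_le fun s _ => (le_div_iff₀ hp).mpr ?_
  by_cases hs : κ < s.card
  · rw [AlternatingMap.map_linearDependent, map_zero, zero_mul]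
    · exact zero_le
    intro hli
    have h2 : LinearIndependent L (fun k : s => R (e k)) := by
      have := hli.comp (fun k : s => (k : ι)) Subtype.val_injective
      have e1 : ((s.piecewise (fun k => R (e k)) fun k => R (d k)) ∘ fun k : s => (k : ι)) =
          fun k : s => R (e k) := by
        funext k
        simp
      rwa [e1] at this
    have h3 : LinearIndependent Fq (fun k : s => (⟨e k, he k⟩ : X)) :=
      LinearIndependent.of_comp (R.comp X.subtype) (h2.restrict_scalars' Fq)
    have h4 := h3.fintype_card_le_finrank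
    rw [Fintype.card_coe] at h4
    omega
  · have h2 := det_val_le w (Matrix.of (s.piecewise (fun k => R (e k)) (fun k => R (d k))))
      (fun k => if k ∈ s then ω else 1) τ (fun k => by split_ifs <;> simp [hω0]) (by
        intro k i
        by_cases hk : k ∈ s
        · simp only [Matrix.of_apply, Finset.piecewise_eq_of_mem _ _ _ hk, if_pos hk]
          exact hV _ (hXV (he k)) i
        · simp only [Matrix.of_apply, Finset.piecewise_eq_of_notMem _ _ _ hk, if_neg hk, mul_one]
          exact hd _ (hd' k) i)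
    rw [Finset.prod_ite_mem, Finset.univ_inter, Finset.prod_const] at h2
    refine le_trans ?_ h2
    exact mul_le_mul_right (pow_le_pow_right_of_le_one' hω1 (not_lt.mp hs)) _

lemma finrank_iInf_le {K M ι : Type*} [Field K] [AddCommGroup M] [Module K M]
    (V : Submodule K M) [FiniteDimensional K V] (s : Finset ι) (B : ι → Submodule K M)
    (hB : ∀ i, B i ≤ V) (κ : ι → ℕ) (h : ∀ i, finrank K V ≤ finrank K (B i) + κ i) :
    finrank K V ≤ finrank K (V ⊓ ⨅ i ∈ s, B i : Submodule K M) + ∑ i ∈ s, κ i := by
  classical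
  induction s using Finset.induction_on with
  | empty =>
    have : (V ⊓ ⨅ i ∈ (∅ : Finset ι), B i : Submodule K M) = V := by simp
    rw [this]; simp
  | insert a s ha ih =>
    rw [Finset.iInf_insert, Finset.sum_insert ha, inf_left_comm]
    have := Submodule.finiteDimensional_of_le (hB a)
    have : FiniteDimensional K (V ⊓ ⨅ i ∈ s, B i : Submodule K M) :=
      Submodule.finiteDimensional_of_le inf_le_left
    have h1 := Submodule.finrank_sup_add_finrank_inf_eq (B a) (V ⊓ ⨅ i ∈ s, B i)
    have h2 : finrank K (B a ⊔ (V ⊓ ⨅ i ∈ s, B i) : Submodule K M) ≤ finrank K V :=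
      Submodule.finrank_mono (sup_le (hB a) inf_le_left)
    have := h a
    omega

end Pool.Agent.P.MP_43acf5_nt
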