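import Mathlib

/-! Elementary growth estimates. -/

namespace Pool.Agent.P.MP_43acf5_nt

open Filter Topology

lemma ev_poly (C k : ℕ) : ∀ᶠ t : ℕ in atTop, C * (t + 1) ^ k < 2 ^ t := by
  have h1 := (tendsto_pow_const_div_const_pow_of_one_lt k (r := (2 : ℝ)) one_lt_two).comp
    (tendsto_add_atTop_nat 1)
  have h2 := h1.eventually (gt_mem_nhds (show (0 : ℝ) < 1 / (2 * C + 2) by positivity))
  filter_upwards [h2] with t ht
  simp only [Function.comp] at ht
  rw [div_lt_div_iff₀ (by positivity) (by positivity), pow_succ] at ht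
  push_cast at ht
  have h3 : (0 : ℝ) ≤ ((t : ℝ) + 1) ^ k := by positivity
  have h4 : (C : ℝ) * ((t : ℝ) + 1) ^ k < 2 ^ t := by nlinarith
  exact_mod_cast h4

lemma ev_div (C k : ℕ) {c : ℕ} (hc : 0 < c) :
    ∀ᶠ n : ℕ in atTop, C * (n + 1) ^ k < 2 ^ (n / c) := by
  filter_upwards [(Nat.tendsto_div_const_atTop hc.ne').eventually (ev_poly (C * c ^ k) k)]
    with n hn
  refine lt_of_le_of_lt ?_ hn
  rw [mul_assoc, ← mul_pow]
  refine Nat.mul_le_mul_left _ (Nat.pow_le_pow_left ?_ _)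
  exact Nat.succ_le_of_lt (Nat.lt_mul_div_succ n hc)

lemma exists_numeric {q r : ℕ} (hq : 2 ≤ q) (hr : 0 < r) (D d : ℕ) :
    ∃ n0 s : ℕ, q ^ d * (16 * r * D ^ 2) < q ^ s ∧ ∀ n, n0 ≤ n →
      2 * ((16 * r * D ^ 2) * (r * (16 * r * D ^ 2))) < n ∧ 6 * r < n ∧
      D.factorial * (32 * D * (q ^ d * n) + 2 * q ^ s * (n + 2)) < 2 ^ (n / (3 * r)) ∧
      1 + q ^ D * D * n ^ (2 * D) < q ^ n := by
  set m := 16 * r * D ^ 2
  have e1 := eventually_gt_atTop (2 * (m * (r * m)))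
  have e2 := eventually_gt_atTop (6 * r)
  have e3 := ev_div (D.factorial * (32 * D * q ^ d + 4 * q ^ (d + m))) 1
    (show 0 < 3 * r by omega)
  have e4 := ev_poly (1 + q ^ D * D) (2 * D)
  obtain ⟨n0, h⟩ := eventually_atTop.mp (e1.and (e2.and (e3.and e4)))
  refine ⟨n0, d + m, ?_, fun n hn => ?_⟩
  · rw [pow_add]
    exact Nat.mul_lt_mul_of_pos_left (Nat.lt_pow_self (by omega)) (by positivity)
  · obtain ⟨h1, h2, h3, h4⟩ := h n hn
    refine ⟨h1, h2, lt_of_le_of_lt ?_ h3, ?_⟩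
    · rw [mul_assoc (Nat.factorial D)]
      refine Nat.mul_le_mul_left _ ?_
      generalize q ^ d = a
      generalize q ^ (d + m) = b
      nlinarith [Nat.zero_le (D * a), Nat.zero_le (b * n)]
    · refine lt_of_le_of_lt ?_ (h4.trans_le (Nat.pow_le_pow_left hq n))
      have a1 : n ^ (2 * D) ≤ (n + 1) ^ (2 * D) := Nat.pow_le_pow_left (by omega) _
      have a2 : 1 ≤ (n + 1) ^ (2 * D) := Nat.one_le_pow _ _ (by omega)
      have a3 := Nat.mul_le_mul_left (q ^ D * D) a1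
      rw [add_mul]
      omega

end Pool.Agent.P.MP_43acf5_nt
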