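import Pool.Agent.P.MP_43acf5_nt.Key
import Pool.Agent.P.MP_43acf5_nt.Num

/-! Reduction of a finite extension to a Galois extension of bounded degree. -/

namespace Pool.Agent.P.MP_43acf5_nt

open Module Polynomial

lemma exists_splitting (F E : Type*) [Field F] [Field E] [Algebra F E] [FiniteDimensional F E]
    [Algebra.IsSeparable F E] : ∃ p : F[X], p.Separable ∧
      finrank F p.SplittingField ≤ (finrank F E).factorial ∧
      Nonempty (E →ₐ[F] p.SplittingField) := by
  classical
  obtain ⟨α, hα⟩ := Field.exists_primitive_element F E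
  have hs : (minpoly F α).Separable := Algebra.IsSeparable.isSeparable F α
  refine ⟨minpoly F α, hs, ?_, ?_⟩
  · have : Fact (((minpoly F α).map (algebraMap F (minpoly F α).SplittingField)).Splits) :=
      ⟨SplittingField.splits _⟩
    rw [← Gal.card_of_separable hs]
    refine (Nat.card_le_card_of_injective _
      (Gal.galActionHom_injective (minpoly F α) (minpoly F α).SplittingField)).trans ?_
    rw [Nat.card_eq_fintype_card, Fintype.card_perm,
      card_rootSet_eq_natDegree hs (SplittingField.splits _)]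
    exact Nat.factorial_le (minpoly.natDegree_le α)
  · refine IntermediateField.nonempty_algHom_of_adjoin_splits (S := {α}) ?_ hα
    rintro _ rfl
    exact ⟨Algebra.IsIntegral.isIntegral _, SplittingField.splits _⟩

variable {Fq : Type*} [Field Fq] [Fintype Fq]

lemma fr_mem_separableClosure {F L : Type*} [Field F] [Field L] [Algebra Fq F] [Algebra F L]
    [Algebra Fq L] [IsScalarTower Fq F L] [FiniteDimensional F L] {d : ℕ}
    (hd : finrank F L ≤ d) (x : L) : fr Fq L d x ∈ separableClosure F L := by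
  obtain ⟨p, hp, n, hpp, hq⟩ := FiniteField.card' Fq
  have : ExpChar Fq p := ExpChar.prime hpp
  have : ExpChar F p := expChar_of_injective_algebraMap (algebraMap Fq F).injective p
  have : ExpChar (separableClosure F L) p :=
    expChar_of_injective_algebraMap (algebraMap F _).injective p
  have h1 := IsPurelyInseparable.minpoly_natDegree_eq' (separableClosure F L) p x
  obtain ⟨y, hy⟩ := IsPurelyInseparable.elemExponent_def' (separableClosure F L) p x
  set e := IsPurelyInseparable.elemExponent (separableClosure F L) x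
  have h2 : p ^ e ≤ d := by
    rw [← h1]
    refine (minpoly.natDegree_le x).trans (le_trans ?_ hd)
    rw [← finrank_mul_finrank F (separableClosure F L) L]
    exact Nat.le_mul_of_pos_left _ finrank_pos
  have h3 : e ≤ n * d := by
    have a1 : e < p ^ e := Nat.lt_pow_self hpp.one_lt
    have a2 : d ≤ n * d := Nat.le_mul_of_pos_left _ n.pos
    omega
  have h4 : fr Fq L d x = (x ^ p ^ e) ^ p ^ (n * d - e) := by
    rw [fr_apply, hq, ← pow_mul, ← pow_mul, ← pow_add, Nat.add_sub_cancel' h3]
  rw [h4, ← hy]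
  exact pow_mem y.2 _

variable {L : Type*} [Field L] [Algebra (RatFunc Fq) L] [Algebra Fq L]
  [IsScalarTower Fq (RatFunc Fq) L]

lemma exists_iota [FiniteDimensional (RatFunc Fq) L] {d : ℕ} (hd : finrank (RatFunc Fq) L ≤ d) :
    ∃ p : (RatFunc Fq)[X], p.Separable ∧ finrank (RatFunc Fq) p.SplittingField ≤ d.factorial ∧
      ∃ ι : L →ₐ[Fq] p.SplittingField, ι (th Fq L 0) = th Fq p.SplittingField d := by
  obtain ⟨p, hp, hr, ⟨emb⟩⟩ := exists_splitting (RatFunc Fq) (separableClosure (RatFunc Fq) L)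
  refine ⟨p, hp, hr.trans (Nat.factorial_le (le_trans ?_ hd)), ?_⟩
  · rw [← finrank_mul_finrank (RatFunc Fq) (separableClosure (RatFunc Fq) L) L]
    exact Nat.le_mul_of_pos_right _ finrank_pos
  let j : L →+* separableClosure (RatFunc Fq) L :=
    (fr Fq L d).toRingHom.codRestrict _ (fr_mem_separableClosure hd)
  have hj : ∀ y : RatFunc Fq, j (algebraMap _ L y) =
      algebraMap _ _ (y ^ (Fintype.card Fq) ^ d) := by
    intro y
    apply Subtype.ext
    change fr Fq L d _ = algebraMap (RatFunc Fq) L _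
    rw [fr_apply, map_pow]
  refine ⟨{ toRingHom := emb.toRingHom.comp j, commutes' := fun c => ?_ }, ?_⟩
  · change emb (j (algebraMap Fq L c)) = _
    rw [IsScalarTower.algebraMap_apply Fq (RatFunc Fq) L, hj, emb.commutes, ← map_pow,
      FiniteField.pow_card_pow, ← IsScalarTower.algebraMap_apply]
  · change emb (j (th Fq L 0)) = _
    rw [th, th, fr_zero, hj, emb.commutes, fr_apply, map_pow]

lemma IsLin.transfer {K K' : Type*} [Field K] [Field K'] [Algebra Fq K] [Algebra Fq K'] {θ : K}
    {r : ℕ} {Φ : Module.End Fq K} (h : IsLin Fq θ r Φ) (ι : K →ₐ[Fq] K') :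
    ∃ Φ' : Module.End Fq K', IsLin Fq (ι θ) r Φ' ∧ ∀ (a : Fq[X]) (x : K),
      (aeval Φ' a : Module.End Fq K') (ι x) = ι ((aeval Φ a : Module.End Fq K) x) := by
  obtain ⟨c, hc⟩ := mem_AP_iff.mp h
  have h1 : (fun y => ∑ k ∈ Finset.Ico 1 (r + 1), ι (c k) * fr Fq K' k y) ∈ AP Fq K' 1 (r + 1) :=
    mem_AP_iff.mpr ⟨fun k => ι (c k), fun _ => rfl⟩
  obtain ⟨U, hU⟩ := exists_linear_of_mem_AP h1
  refine ⟨LinearMap.mulLeft Fq (ι θ) + U, ?_, fun a x => ?_⟩
  · unfold IsLin
    rw [← hU] at h1
    convert h1 using 2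
    simp
  · have h2 : ∀ x, (LinearMap.mulLeft Fq (ι θ) + U : Module.End Fq K') (ι x) = ι (Φ x) := by
      intro x
      have := hc x
      rw [sub_eq_iff_eq_add'] at this
      rw [this, LinearMap.add_apply, hU]
      simp [fr_apply]
    have h3 : ∀ i x, ((LinearMap.mulLeft Fq (ι θ) + U : Module.End Fq K') ^ i) (ι x) =
        ι ((Φ ^ i) x) := by
      intro i
      induction i with
      | zero => simp
      | succ i ih => intro x; rw [pow_succ, pow_succ, Module.End.mul_apply, h2, ih]; rfl
    rw [aeval_eq_sum_range, aeval_eq_sum_range]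
    simp [LinearMap.sum_apply, h3]

omit L in
/-- A uniform bound for the degree of the annihilator of a primary torsion point. -/
lemma primary_bound {q r : ℕ} (hq : 2 ≤ q) (hr : 0 < r) (d : ℕ) : ∃ n0 : ℕ,
    ∀ (Fq : Type*) [Field Fq] [Fintype Fq], Fintype.card Fq = q →
    ∀ (L : Type*) [Field L] [Algebra (RatFunc Fq) L] [Algebra Fq L]
      [IsScalarTower Fq (RatFunc Fq) L] [FiniteDimensional (RatFunc Fq) L],
      finrank (RatFunc Fq) L ≤ d → ∀ Φ : Module.End Fq L, IsLin Fq (th Fq L 0) r Φ →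
      ∀ (x0 : L) (P : MI Fq) (k : ℕ),
        (∀ a, (aeval Φ a : Module.End Fq L) x0 = 0 ↔ P.1 ^ k ∣ a) → k * P.1.natDegree < n0 := by
  choose n0 s hs hn0 using fun D => exists_numeric hq hr D d
  refine ⟨(Finset.range (d.factorial + 1)).sup n0, ?_⟩
  intro Fq _ _ hFq L _ _ _ _ _ hd Φ hΦ x0 P k hann
  by_contra hlt
  obtain ⟨p, hp, hD, ι, hι⟩ := exists_iota hd
  have : IsGalois (RatFunc Fq) p.SplittingField := IsGalois.of_separable_splitting_field hp
  obtain ⟨Φ', hΦ', hc⟩ := hΦ.transfer ι
  rw [hι] at hΦ'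
  have h1 : n0 (finrank (RatFunc Fq) p.SplittingField) ≤ k * P.1.natDegree :=
    (Finset.le_sup (f := n0) (Finset.mem_range.mpr (by omega))).trans (not_lt.mp hlt)
  obtain ⟨N1, N2, N3, N4⟩ := hn0 _ _ h1
  subst hFq
  refine key_false hΦ' hr (x0 := ι x0) (P := P) (k := k) (fun a => ?_) rfl rfl (hs _) N1 N2 N3 N4
  rw [hc, ← hann, map_eq_zero]

end Pool.Agent.P.MP_43acf5_nt
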